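import Mathlib.Topology.Sheaves.Presheaf
import Mathlib.Algebra.Order.Ring.Star
import Mathlib.Algebra.Order.Star.Real
import Mathlib.Analysis.Complex.Liouville
import Mathlib.Analysis.CStarAlgebra.Classes
import Mathlib.Analysis.Calculus.ParametricIntegral
import Mathlib.Analysis.Complex.LocallyUniformLimit
import Mathlib.Analysis.Complex.AbsMax
import Mathlib.Analysis.Complex.ExponentialBounds
import Mathlib.Analysis.SpecialFunctions.Gaussian.FourierTransform
import Mathlib.Analysis.SpecialFunctions.Complex.LogBounds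
import Mathlib.Analysis.Real.Pi.Bounds
import Mathlib.RingTheory.PiTensorProduct
import Mathlib.RingTheory.SimpleRing.Principal
import Mathlib.Order.CompletePartialOrder
import Mathlib.Tactic.Algebra.Basic

-- ======== part 0: formerly Pool.Agent.MP_16212d_an.Erf
section MrgPart0

/-! A Gaussian cut-off function: entire, close to one on the right and to zero on the left. -/

open Complex MeasureTheory Set Filter Topology

namespace Pool.Agent.MP_16212d_an

noncomputable def gs (w : ℂ) (t : ℝ) : ℂ := cexp (-(w + t) ^ 2)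

noncomputable def Phi (w : ℂ) : ℂ :=
  ((Real.sqrt Real.pi : ℝ) : ℂ)⁻¹ * ∫ t in Iic (0 : ℝ), gs w t

lemma norm_gs (w : ℂ) (t : ℝ) : ‖gs w t‖ = Real.exp (w.im ^ 2 - (w.re + t) ^ 2) := by
  rw [gs, Complex.norm_exp]
  congr 1
  simp [sq]

lemma gs_eq (w : ℂ) (t : ℝ) : gs w t = cexp ((-1) * (t : ℂ) ^ 2 + (-2 * w) * t + (-w ^ 2)) := by
  rw [gs]; congr 1; ring

lemma integrable_gs (w : ℂ) : Integrable (gs w) := by
  have := integrable_cexp_quadratic' (b := -1) (by simp) (-2 * w) (-w ^ 2)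
  exact this.congr (Eventually.of_forall fun t => (gs_eq w t).symm)

lemma integral_gs (w : ℂ) : ∫ t, gs w t = ((Real.sqrt Real.pi : ℝ) : ℂ) := by
  simp_rw [gs_eq]
  rw [integral_cexp_quadratic (by simp)]
  have h1 : -w ^ 2 - (-2 * w) ^ 2 / (4 * (-1 : ℂ)) = 0 := by ring
  rw [h1, Complex.exp_zero, mul_one, Real.sqrt_eq_rpow, Complex.ofReal_cpow Real.pi_pos.le]
  simp

lemma sqrt_pi_pos : 0 < Real.sqrt Real.pi := Real.sqrt_pos.2 Real.pi_pos

lemma Phi_add (w : ℂ) : Phi w + Phi (-w) = 1 := by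
  have h1 : ∫ t in Iic (0 : ℝ), gs (-w) t = ∫ t in Ioi (0 : ℝ), gs w t := by
    have := integral_comp_neg_Iic (0 : ℝ) (gs w)
    rw [neg_zero] at this
    rw [← this]
    refine integral_congr_ae (Eventually.of_forall fun t => ?_)
    simp only [gs]
    congr 1
    push_cast
    ring
  rw [Phi, Phi, h1, ← mul_add,
    intervalIntegral.integral_Iic_add_Ioi (integrable_gs w).integrableOn
      (integrable_gs w).integrableOn, integral_gs]
  have : ((Real.sqrt Real.pi : ℝ) : ℂ) ≠ 0 := by exact_mod_cast sqrt_pi_pos.ne'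
  field_simp

lemma norm_Phi_aux (w : ℂ) (B s : ℝ)
    (h : ∀ t : ℝ, t ≤ 0 → w.im ^ 2 - (w.re + t) ^ 2 ≤ B - (t + s) ^ 2) :
    ‖Phi w‖ ≤ Real.exp B := by
  have hi : Integrable (fun t : ℝ => Real.exp (-1 * (t + s) ^ 2)) :=
    (integrable_exp_neg_mul_sq (b := 1) one_pos).comp_add_right s
  have hint : ∫ t : ℝ, Real.exp (-1 * (t + s) ^ 2) = Real.sqrt Real.pi := by
    rw [integral_add_right_eq_self (fun t : ℝ => Real.exp (-1 * t ^ 2)) s, integral_gaussian]
    simp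
  have h2 : ‖∫ t in Iic (0 : ℝ), gs w t‖ ≤ Real.exp B * Real.sqrt Real.pi := by
    calc ‖∫ t in Iic (0 : ℝ), gs w t‖
        ≤ ∫ t in Iic (0 : ℝ), Real.exp B * Real.exp (-1 * (t + s) ^ 2) := by
          refine norm_integral_le_of_norm_le (hi.const_mul _).integrableOn ?_
          refine (ae_restrict_iff' measurableSet_Iic).2 (Eventually.of_forall fun t ht => ?_)
          rw [norm_gs, ← Real.exp_add]
          exact Real.exp_le_exp.2 (by have := h t ht; linarith)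
      _ ≤ ∫ t : ℝ, Real.exp B * Real.exp (-1 * (t + s) ^ 2) :=
          setIntegral_le_integral (hi.const_mul _) (Eventually.of_forall fun t => by positivity)
      _ = Real.exp B * Real.sqrt Real.pi := by rw [integral_const_mul, hint]
  rw [Phi, norm_mul, norm_inv, Complex.norm_real, Real.norm_of_nonneg sqrt_pi_pos.le]
  rw [inv_mul_le_iff₀ sqrt_pi_pos]
  linarith

lemma norm_Phi_le (w : ℂ) : ‖Phi w‖ ≤ Real.exp (w.im ^ 2) :=
  norm_Phi_aux w _ w.re fun t _ => by rw [add_comm t]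

lemma norm_Phi_le' (w : ℂ) (hw : w.re ≤ 0) : ‖Phi w‖ ≤ Real.exp (w.im ^ 2 - w.re ^ 2) :=
  norm_Phi_aux w _ 0 fun t ht => by nlinarith [mul_nonneg_of_nonpos_of_nonpos hw ht]

lemma norm_Phi_neg (w : ℂ) (hw : 0 ≤ w.re) : ‖Phi (-w)‖ ≤ Real.exp (w.im ^ 2 - w.re ^ 2) := by
  simpa using norm_Phi_le' (-w) (by simpa using hw)

lemma differentiable_Phi : Differentiable ℂ Phi := by
  intro w
  have key := hasDerivAt_integral_of_dominated_loc_of_deriv_le (μ := volume.restrict (Iic (0 : ℝ)))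
    (F := gs) (F' := fun x t => -(2 * (x + t)) * gs x t) (x₀ := w) (s := Metric.ball w 1)
    (bound := fun t => 2 * Real.exp (4 * (‖w‖ + 1) ^ 2 + 2) * Real.exp (-(1 / 4) * t ^ 2))
    (Metric.ball_mem_nhds w one_pos)
    (Eventually.of_forall fun x => (integrable_gs x).aestronglyMeasurable.restrict)
    (integrable_gs w).integrableOn
    (by
      apply Continuous.aestronglyMeasurable
      unfold gs
      fun_prop)
    (Eventually.of_forall fun t x hx => by
      have hx1 : ‖x‖ ≤ ‖w‖ + 1 := by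
        have := mem_ball_iff_norm.1 hx
        have := norm_sub_norm_le x w
        linarith
      have hre : |x.re| ≤ ‖w‖ + 1 := (Complex.abs_re_le_norm x).trans hx1
      have him : |x.im| ≤ ‖w‖ + 1 := (Complex.abs_im_le_norm x).trans hx1
      set a := ‖w‖ + 1 with ha
      have ha0 : 0 ≤ a := by positivity
      have h1 : ‖x + t‖ ≤ a + |t| := by
        refine (norm_add_le _ _).trans ?_
        rw [Complex.norm_real, Real.norm_eq_abs]; linarith
      have h2 : a + |t| ≤ Real.exp (a + |t|) := by linarith [Real.add_one_le_exp (a + |t|)]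
      have h3 : x.re ^ 2 ≤ a ^ 2 := by rw [← sq_abs]; gcongr
      have h4 : x.im ^ 2 ≤ a ^ 2 := by rw [← sq_abs]; gcongr
      rw [norm_mul, norm_neg, norm_mul, norm_gs, mul_assoc, mul_assoc, ← Real.exp_add]
      have h5 : ‖x + t‖ * Real.exp (x.im ^ 2 - (x.re + t) ^ 2)
          ≤ Real.exp (4 * a ^ 2 + 2 + -(1 / 4) * t ^ 2) := by
        calc _ ≤ Real.exp (a + |t|) * Real.exp (x.im ^ 2 - (x.re + t) ^ 2) := by
              gcongr; exact h1.trans h2
          _ ≤ _ := by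
              rw [← Real.exp_add]
              refine Real.exp_le_exp.2 ?_
              nlinarith [sq_nonneg (|t| - 2), sq_abs t, sq_nonneg (2 * x.re + t), sq_nonneg (a - 1),
                sq_nonneg a]
      simpa using h5)
    ((integrable_exp_neg_mul_sq (b := 1 / 4) (by norm_num)).const_mul _).integrableOn
    (Eventually.of_forall fun t x _ => by
      have : HasDerivAt (fun x : ℂ => -(x + t) ^ 2) (-(2 * (x + t))) x := by
        have h0 := (((hasDerivAt_id x).add_const (t : ℂ)).fun_pow 2).fun_neg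
        simpa using h0
      simpa [gs, mul_comm] using this.cexp)
  exact (key.2.differentiableAt).const_mul _

lemma Phi_eq (w : ℂ) : Phi w = 1 - Phi (-w) := by rw [← Phi_add w]; ring

/-- The entire function (exp z - 1) / z. -/
noncomputable def E1 (z : ℂ) : ℂ := dslope cexp 0 z

lemma differentiable_E1 : Differentiable ℂ E1 := by
  have := (Complex.differentiableOn_dslope (f := cexp) (c := 0) (s := univ) univ_mem).2
    Complex.differentiable_exp.differentiableOn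
  exact differentiableOn_univ.1 this

lemma E1_eq {z : ℂ} (hz : z ≠ 0) : E1 z = (cexp z - 1) / z := by
  rw [E1, dslope_of_ne _ hz, slope_def_field]; simp

lemma norm_E1_le (z : ℂ) : ‖E1 z‖ ≤ 1 + Real.exp z.re := by
  by_cases hz : z = 0
  · subst hz; simp [E1]
  have hconv : Convex ℝ {x : ℂ | x.re ≤ max 0 z.re} := convex_halfSpace_re_le _
  have := hconv.norm_image_sub_le_of_norm_deriv_le (f := cexp) (C := 1 + Real.exp z.re)
    (x := 0) (y := z) (fun x _ => Complex.differentiable_exp x)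
    (fun x hx => by
      rw [Complex.deriv_exp, Complex.norm_exp]
      rcases le_max_iff.1 (show x.re ≤ max 0 z.re from hx) with h | h
      · have := Real.exp_le_one_iff.2 h
        have := Real.exp_pos z.re
        linarith
      · have := Real.exp_le_exp.2 h
        linarith)
    (by simp) (by simp)
  rw [E1_eq hz, norm_div, div_le_iff₀ (norm_pos_iff.2 hz)]
  simpa using this

end Pool.Agent.MP_16212d_an

end MrgPart0

-- ======== part 1: formerly Pool.Agent.MP_16212d_an.Params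
section MrgPart1

/-! The parameters of the construction and elementary inequalities between them. -/

open Real

namespace Pool.Agent.MP_16212d_an

def mm (i : ℕ) : ℕ := 10 * 5 ^ i
noncomputable def A (i : ℕ) : ℝ := 100 ^ mm i
noncomputable def Y : ℕ → ℝ
  | 0 => A 0
  | i + 1 => 30 * A i * Y i - 1080 * A i - 36
noncomputable def La (i : ℕ) : ℝ := 30 * A i * Y i
noncomputable def cc (i : ℕ) : ℝ := exp (La i)
noncomputable def hh (i : ℕ) : ℝ := 2 * π * (⌈exp (600 * A i)⌉₊ : ℝ)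
noncomputable def RR (i : ℕ) : ℝ := exp (100 * A i)
noncomputable def UU (i : ℕ) : ℝ := 2 * π * (⌈exp (La i - 36)⌉₊ : ℝ) + π
noncomputable def hp (i : ℕ) : ℝ := 2 * π * (⌈cc i * A (i + 1)⌉₊ : ℝ)
noncomputable def TT (i : ℕ) : ℝ := 2 * cc i * A (i + 1)
noncomputable def mu (i : ℕ) : ℝ := exp (-A i)
noncomputable def qq (i : ℕ) : ℂ := ((2 * La i : ℝ) : ℂ) + (hh i : ℂ) * Complex.I

lemma A_succ (i : ℕ) : A (i + 1) = A i ^ 5 := by
  rw [A, A, ← pow_mul, mm, mm]; congr 1; ring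

lemma A_zero : A 0 = 10 ^ 20 := by rw [A, mm]; norm_num

lemma A_ge (i : ℕ) : 10 ^ 20 ≤ A i := by
  induction i with
  | zero => rw [A_zero]
  | succ i ih =>
    rw [A_succ]
    calc (10 : ℝ) ^ 20 ≤ A i ^ 1 := by simpa using ih
      _ ≤ A i ^ 5 := pow_le_pow_right₀ (by linarith) (by norm_num)

lemma A_pos (i : ℕ) : 0 < A i := by linarith [A_ge i]
lemma one_le_A (i : ℕ) : 1 ≤ A i := by linarith [A_ge i]

lemma A_succ_ge (i : ℕ) : 10 ^ 20 * A i ^ 4 ≤ A (i + 1) := by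
  rw [A_succ, pow_succ' (A i) 4]
  have := A_ge i
  have := A_pos i
  gcongr

lemma A_sq_le (i : ℕ) : 10 ^ 20 * A i ^ 2 ≤ A (i + 1) := by
  refine le_trans ?_ (A_succ_ge i)
  have := pow_le_pow_right₀ (one_le_A i) (show 2 ≤ 4 by norm_num)
  linarith

lemma A_le_succ (i : ℕ) : 10 ^ 20 * A i ≤ A (i + 1) := by
  refine le_trans ?_ (A_succ_ge i)
  have := pow_le_pow_right₀ (one_le_A i) (show 1 ≤ 4 by norm_num)
  linarith

lemma A_mono : Monotone A :=
  monotone_nat_of_le_succ fun i => by linarith [A_le_succ i, A_pos i]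

lemma succ_le_A (i : ℕ) : (i : ℝ) + 1 ≤ A i := by
  induction i with
  | zero => linarith [A_ge 0, (Nat.cast_zero : ((0 : ℕ) : ℝ) = 0)]
  | succ i ih => push_cast; linarith [A_le_succ i, A_ge i]

lemma pow_le_exp {x : ℝ} (hx : 10 ^ 20 ≤ x) : x ^ 20 ≤ exp x := by
  have hx0 : 0 ≤ x := by linarith
  have h := Real.pow_div_factorial_le_exp x hx0 21
  refine le_trans ?_ h
  rw [le_div_iff₀ (by positivity), pow_succ x 20]
  gcongr
  refine le_trans ?_ hx
  norm_num [Nat.factorial]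

lemma pow_le_exp' {x : ℝ} (hx : 10 ^ 20 ≤ x) {k : ℕ} (hk : k ≤ 19) : 10 ^ 20 * x ^ k ≤ exp x := by
  refine le_trans ?_ (pow_le_exp hx)
  have h1 : (1 : ℝ) ≤ x := by linarith
  calc 10 ^ 20 * x ^ k ≤ x * x ^ 19 := by
        have := pow_le_pow_right₀ h1 hk
        gcongr
    _ = x ^ 20 := by ring

lemma Y_bounds (i : ℕ) : 10 ^ 6 ≤ Y i ∧ Y i ≤ A i := by
  induction i with
  | zero => rw [Y, A_zero]; norm_num
  | succ i ih =>
    have h1 := A_ge i
    have h2 := A_sq_le i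
    rw [Y]
    constructor <;> nlinarith [ih.1, ih.2]

lemma Y_succ (i : ℕ) : Y (i + 1) = La i - 1080 * A i - 36 := rfl

lemma La_ge (i : ℕ) : 10 ^ 7 * A i ≤ La i := by
  rw [La]; nlinarith [(Y_bounds i).1, A_pos i]

lemma La_le (i : ℕ) : La i ≤ 30 * A i ^ 2 := by
  rw [La]; nlinarith [(Y_bounds i).2, A_pos i]

lemma La_big (i : ℕ) : 10 ^ 20 ≤ La i := by linarith [La_ge i, A_ge i]
lemma La_pos (i : ℕ) : 0 < La i := by linarith [La_big i]

lemma La_le_A_succ (i : ℕ) : 10 ^ 10 * La i ≤ A (i + 1) := by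
  nlinarith [La_le i, A_sq_le i, A_pos i]

lemma Y_succ_ge (i : ℕ) : 10 ^ 6 * A i ≤ Y (i + 1) := by
  rw [Y_succ]; linarith [La_ge i, A_ge i]

lemma cc_pos (i : ℕ) : 0 < cc i := exp_pos _
lemma mu_pos (i : ℕ) : 0 < mu i := exp_pos _
lemma RR_pos (i : ℕ) : 0 < RR i := exp_pos _

lemma ceil_bounds {x : ℝ} (hx : 100 ≤ x) :
    6 * x ≤ 2 * π * (⌈x⌉₊ : ℝ) ∧ 2 * π * (⌈x⌉₊ : ℝ) + π ≤ 7 * x := by
  have h1 := Nat.le_ceil x
  have h2 := (Nat.ceil_lt_add_one (show 0 ≤ x by linarith)).le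
  have h3 := pi_gt_d2
  have h4 := pi_lt_d2
  constructor <;> nlinarith

lemma exp_ge_of {x : ℝ} : x ≤ exp x := by linarith [add_one_le_exp x]

lemma hh_bounds (i : ℕ) : 6 * exp (600 * A i) ≤ hh i ∧ hh i + π ≤ 7 * exp (600 * A i) :=
  ceil_bounds (by linarith [exp_ge_of (x := 600 * A i), A_ge i])

lemma UU_bounds (i : ℕ) : 6 * exp (La i - 36) ≤ UU i ∧ UU i ≤ 7 * exp (La i - 36) := by
  have := ceil_bounds (x := exp (La i - 36)) (by linarith [exp_ge_of (x := La i - 36), La_big i])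
  rw [UU]
  exact ⟨by linarith [this.1, pi_pos], this.2⟩

lemma cc_big (i : ℕ) : 10 ^ 20 ≤ cc i := by
  rw [cc]; linarith [exp_ge_of (x := La i), La_big i]

lemma hp_bounds (i : ℕ) : 6 * (cc i * A (i + 1)) ≤ hp i ∧ hp i + π ≤ 7 * (cc i * A (i + 1)) :=
  ceil_bounds (by nlinarith [cc_big i, A_ge (i + 1)])

lemma exp_nat_two_pi (n : ℕ) : Complex.exp (((2 * π * (n : ℝ) : ℝ) : ℂ) * Complex.I) = 1 := by
  have := Complex.exp_nat_mul_two_pi_mul_I n
  rw [← this]; congr 1; push_cast; ring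

lemma exp_hh (i : ℕ) : Complex.exp ((hh i : ℂ) * Complex.I) = 1 := exp_nat_two_pi _
lemma exp_hp (i : ℕ) : Complex.exp ((hp i : ℂ) * Complex.I) = 1 := exp_nat_two_pi _
lemma exp_UU (i : ℕ) : Complex.exp ((UU i : ℂ) * Complex.I) = -1 := by
  rw [UU, Complex.ofReal_add, add_mul, Complex.exp_add, exp_nat_two_pi, Complex.exp_pi_mul_I]
  simp

lemma mu_le (i : ℕ) {k : ℕ} (hk : k ≤ 19) : mu i * (10 ^ 20 * A i ^ k) ≤ 1 := by
  have := pow_le_exp' (A_ge i) hk
  rw [mu, exp_neg, inv_mul_le_iff₀ (exp_pos _)]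
  linarith

lemma mu_small (i : ℕ) : mu i ≤ 1 / 10 ^ 20 := by
  have := mu_le i (k := 0) (by norm_num)
  rw [le_div_iff₀ (by norm_num)]; linarith

lemma RR_big (i : ℕ) : 10 ^ 20 * A i ^ 2 ≤ RR i := by
  refine (pow_le_exp' (A_ge i) (by norm_num)).trans ?_
  exact exp_le_exp.2 (by linarith [A_pos i])

lemma RR_ge (i : ℕ) : 10 ^ 20 ≤ RR i := by nlinarith [RR_big i, A_ge i]

lemma RR_mono : Monotone RR := fun _ _ h => exp_le_exp.2 (by linarith [A_mono h])

lemma two_pow_le (j : ℕ) : (2 : ℝ) ^ j ≤ exp j := by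
  rw [← exp_one_pow]
  gcongr
  linarith [add_one_le_exp (1 : ℝ)]

lemma two_pow_le_A (j : ℕ) : (2 : ℝ) ^ j ≤ exp (A j) :=
  (two_pow_le j).trans (exp_le_exp.2 (by linarith [succ_le_A j]))

lemma cc_two_pow (j : ℕ) : 4 * cc j * 2 ^ j ≤ exp (RR j) := by
  have h1 := two_pow_le_A j
  have h2 : (4 : ℝ) ≤ exp (A j) := by linarith [exp_ge_of (x := A j), A_ge j]
  calc 4 * cc j * 2 ^ j ≤ exp (A j) * exp (La j) * exp (A j) := by
        rw [cc]; gcongr
    _ = exp (2 * A j + La j) := by rw [← exp_add, ← exp_add]; congr 1; ring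
    _ ≤ _ := exp_le_exp.2 (by nlinarith [La_le j, RR_big j, A_ge j])

lemma exp21_le (j : ℕ) : 10 ^ 20 * exp 21 ≤ cc j := by
  have h1 : (10 : ℝ) ^ 20 ≤ exp (La j - 21) := by
    linarith [exp_ge_of (x := La j - 21), La_ge j, A_ge j]
  calc 10 ^ 20 * exp 21 ≤ exp (La j - 21) * exp 21 := by gcongr
    _ = cc j := by rw [← exp_add, cc]; congr 1; ring

lemma qq_re (i : ℕ) : (qq i).re = 2 * La i := by simp [qq]
lemma qq_im (i : ℕ) : (qq i).im = hh i := by simp [qq]

lemma La_le_exp (i : ℕ) : 10 ^ 10 * La i ^ 2 ≤ exp (A i) := by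
  have h1 := pow_le_exp' (A_ge i) (k := 4) (by norm_num)
  have h2 : La i ^ 2 ≤ (30 * A i ^ 2) ^ 2 := by
    have := La_pos i
    gcongr
    exact La_le i
  nlinarith [sq_nonneg (A i ^ 2)]

lemma norm_qq_le (i : ℕ) : ‖qq i‖ ≤ 8 * exp (600 * A i) := by
  have h1 := Complex.norm_le_abs_re_add_abs_im (qq i)
  have h2 := hh_bounds i
  have h3 := La_le_exp i
  have h4 : exp (A i) ≤ exp (600 * A i) := exp_le_exp.2 (by linarith [A_pos i])
  have h5 := La_big i
  have h6 := exp_pos (600 * A i)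
  rw [qq_re, qq_im, abs_of_pos (by linarith), abs_of_pos (by linarith)] at h1
  nlinarith [pi_pos]

end Pool.Agent.MP_16212d_an

end MrgPart1

-- ======== part 2: formerly Pool.Agent.MP_16212d_an.Func
section MrgPart2

/-! The entire function, its growth, and its behaviour near the real axis. -/

open Complex Set Filter Topology

namespace Pool.Agent.MP_16212d_an

def dv (v : ℕ → ℂ) : ℕ → ℂ
  | 0 => v 0
  | j + 1 => v (j + 1) - v j

noncomputable def chi (j : ℕ) (z : ℂ) : ℂ := Phi (-((RR j : ℂ) + z ^ 6))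
noncomputable def GG (j : ℕ) (u : ℂ) : ℂ := (cc j : ℂ) * E1 (u - qq j)
noncomputable def term (v : ℕ → ℂ) (j : ℕ) (z : ℂ) : ℂ := chi j z * (dv v j + GG j (-z ^ 30))
noncomputable def F (v : ℕ → ℂ) (z : ℂ) : ℂ :=
  z ^ 100 * Phi (2 + 8 * z) + (1 / 100) * cexp (-z ^ 30) + ∑' j, term v j z

def Bd (v : ℕ → ℂ) : Prop := ∀ j, ‖v j‖ ≤ Real.exp 21

lemma norm_GG_le (j : ℕ) (u : ℂ) : ‖GG j u‖ ≤ cc j + Real.exp (-La j) * Real.exp u.re := by
  rw [GG, norm_mul, Complex.norm_real, Real.norm_of_nonneg (cc_pos j).le]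
  have h := norm_E1_le (u - qq j)
  have h2 : cc j * Real.exp (u - qq j).re = Real.exp (-La j) * Real.exp u.re := by
    rw [cc, ← Real.exp_add, ← Real.exp_add, sub_re, qq_re]; congr 1; ring
  have := cc_pos j
  nlinarith

lemma norm_dv_le {v : ℕ → ℂ} (hv : Bd v) (j : ℕ) : ‖dv v j‖ ≤ 2 * Real.exp 21 := by
  cases j with
  | zero => have := hv 0; have := Real.exp_pos 21; simp only [dv]; linarith
  | succ j => exact (norm_sub_le _ _).trans (by linarith [hv j, hv (j + 1)])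

lemma norm_br_le {v : ℕ → ℂ} (hv : Bd v) (j : ℕ) (u : ℂ) :
    ‖dv v j + GG j u‖ ≤ 2 * cc j + Real.exp (-La j) * Real.exp u.re := by
  have h1 := norm_dv_le hv j
  have h2 := norm_GG_le j u
  have h3 := exp21_le j
  have h4 := Real.exp_pos 21
  exact (norm_add_le _ _).trans (by linarith)

lemma norm_br_le' {v : ℕ → ℂ} (hv : Bd v) (j : ℕ) (u : ℂ) {B : ℝ} (hB : 0 ≤ B) (hu : u.re ≤ B) :
    ‖dv v j + GG j u‖ ≤ 4 * cc j * Real.exp B := by
  have h1 := norm_br_le hv j u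
  have h2 : Real.exp (-La j) ≤ 1 := Real.exp_le_one_iff.2 (by linarith [La_pos j])
  have h3 : Real.exp u.re ≤ Real.exp B := Real.exp_le_exp.2 hu
  have h4 : 1 ≤ Real.exp B := Real.one_le_exp hB
  have h5 := cc_big j
  have h6 : Real.exp (-La j) * Real.exp u.re ≤ 1 * Real.exp B := by gcongr
  nlinarith

lemma norm_chi_small (j : ℕ) {z : ℂ} (hz : ‖z‖ ^ 6 ≤ RR j / 4) :
    ‖chi j z‖ ≤ Real.exp (-RR j ^ 2 / 2) := by
  have h1 := Complex.abs_re_le_norm (z ^ 6)
  have h2 := Complex.abs_im_le_norm (z ^ 6)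
  rw [norm_pow] at h1 h2
  have h3 := abs_le.1 (h1.trans hz)
  have h4 := abs_le.1 (h2.trans hz)
  have hR := RR_pos j
  refine (norm_Phi_neg _ (by simp; linarith)).trans (Real.exp_le_exp.2 ?_)
  simp only [add_im, add_re, ofReal_re, ofReal_im, zero_add]
  nlinarith

lemma norm_chi_le (j : ℕ) (z : ℂ) : ‖chi j z‖ ≤ Real.exp ((z ^ 6).im ^ 2) := by
  refine (norm_Phi_le _).trans (le_of_eq ?_)
  simp

lemma norm_chi_sector (j : ℕ) {z : ℂ} (hz : |(z ^ 6).im| ≤ (z ^ 6).re) :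
    ‖chi j z‖ ≤ Real.exp (-RR j ^ 2) := by
  have h4 := abs_le.1 hz
  have hR := RR_pos j
  refine (norm_Phi_neg _ (by simp; linarith)).trans (Real.exp_le_exp.2 ?_)
  simp only [add_im, add_re, ofReal_re, ofReal_im, zero_add]
  nlinarith

lemma cc_le_half (j : ℕ) : 4 * cc j ≤ (1 / 2) ^ j * Real.exp (RR j) := by
  have := cc_two_pow j
  rw [one_div, inv_pow, inv_mul_eq_div, le_div_iff₀ (by positivity)]
  exact this

lemma neg_pow_re_le (z : ℂ) : (-z ^ 30).re ≤ ‖z‖ ^ 30 := by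
  have := Complex.re_le_norm (-z ^ 30)
  rwa [norm_neg, norm_pow] at this

lemma term_growth {v : ℕ → ℂ} (hv : Bd v) (j : ℕ) (z : ℂ) :
    ‖term v j z‖ ≤ (1 / 2) ^ j * Real.exp (4 * ‖z‖ ^ 6 + ‖z‖ ^ 12 + ‖z‖ ^ 30) := by
  have h1 := norm_br_le' hv j (-z ^ 30) (by positivity) (neg_pow_re_le z)
  have h2 := cc_le_half j
  have hR := RR_ge j
  have key : ‖chi j z‖ * Real.exp (RR j) ≤ Real.exp (4 * ‖z‖ ^ 6 + ‖z‖ ^ 12) := by
    by_cases hz : ‖z‖ ^ 6 ≤ RR j / 4
    · calc _ ≤ Real.exp (-RR j ^ 2 / 2) * Real.exp (RR j) := by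
            gcongr; exact norm_chi_small j hz
        _ ≤ _ := by
            rw [← Real.exp_add]
            refine Real.exp_le_exp.2 ?_
            have : 0 ≤ 4 * ‖z‖ ^ 6 + ‖z‖ ^ 12 := by positivity
            nlinarith
    · calc _ ≤ Real.exp ((z ^ 6).im ^ 2) * Real.exp (RR j) := by
            gcongr; exact norm_chi_le j z
        _ ≤ _ := by
            rw [← Real.exp_add]
            refine Real.exp_le_exp.2 ?_
            have h3 := Complex.abs_im_le_norm (z ^ 6)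
            rw [norm_pow] at h3
            have h4 : (z ^ 6).im ^ 2 ≤ (‖z‖ ^ 6) ^ 2 := by rw [← sq_abs]; gcongr
            have h5 : (‖z‖ ^ 6) ^ 2 = ‖z‖ ^ 12 := by ring
            linarith [not_le.1 hz]
  rw [term, norm_mul]
  calc _ ≤ ‖chi j z‖ * (((1 / 2) ^ j * Real.exp (RR j)) * Real.exp (‖z‖ ^ 30)) := by
        gcongr
        exact h1.trans (by gcongr)
    _ = (1 / 2) ^ j * (‖chi j z‖ * Real.exp (RR j) * Real.exp (‖z‖ ^ 30)) := by ring
    _ ≤ (1 / 2) ^ j * (Real.exp (4 * ‖z‖ ^ 6 + ‖z‖ ^ 12) * Real.exp (‖z‖ ^ 30)) := by gcongr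
    _ = _ := by rw [← Real.exp_add]

lemma summable_half (B : ℝ) : Summable fun j : ℕ => (1 / 2 : ℝ) ^ j * B :=
  summable_geometric_two.mul_right B

lemma tsum_half (B : ℝ) : ∑' j : ℕ, (1 / 2 : ℝ) ^ j * B = 2 * B := by
  rw [tsum_mul_right, tsum_geometric_two]

lemma norm_tsum_half {g : ℕ → ℂ} {B : ℝ} (h : ∀ j, ‖g j‖ ≤ (1 / 2) ^ j * B) :
    ‖∑' j, g j‖ ≤ 2 * B := by
  rw [← tsum_half]
  exact tsum_of_norm_bounded (summable_half B).hasSum h

lemma summable_term {v : ℕ → ℂ} (hv : Bd v) (z : ℂ) : Summable fun j => term v j z :=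
  Summable.of_norm_bounded (summable_half _) (fun j => term_growth hv j z)

lemma differentiable_term (v : ℕ → ℂ) (j : ℕ) : Differentiable ℂ (term v j) := by
  have h1 := differentiable_Phi
  have h2 := differentiable_E1
  unfold term chi GG
  fun_prop

lemma differentiable_F {v : ℕ → ℂ} (hv : Bd v) : Differentiable ℂ (F v) := by
  have h1 := differentiable_Phi
  have h3 : Differentiable ℂ fun z => ∑' j, term v j z := by
    intro z
    set r := ‖z‖ + 1
    have := Complex.differentiableOn_tsum_of_summable_norm (U := Metric.ball 0 r)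
      (F := term v) (summable_half (Real.exp (4 * r ^ 6 + r ^ 12 + r ^ 30)))
      (fun j => (differentiable_term v j).differentiableOn) Metric.isOpen_ball
      (fun j w hw => (term_growth hv j w).trans (by
        have : ‖w‖ ≤ r := (mem_ball_zero_iff.1 hw).le
        gcongr))
    exact this.differentiableAt (Metric.isOpen_ball.mem_nhds (by simp [r]))
  unfold F
  fun_prop

lemma norm_F_le {v : ℕ → ℂ} (hv : Bd v) {z : ℂ} (hz : 10 ≤ ‖z‖) :
    ‖F v z‖ ≤ Real.exp (10 * ‖z‖ ^ 30) := by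
  set r := ‖z‖ with hr
  have hr1 : 1 ≤ r := by linarith
  have p1 : r ≤ r ^ 2 := by nlinarith
  have p2 : r ^ 2 * 10 ^ 28 ≤ r ^ 30 := by
    calc _ ≤ r ^ 2 * r ^ 28 := by gcongr
      _ = _ := by ring
  have p6 : r ^ 6 ≤ r ^ 30 := pow_le_pow_right₀ hr1 (by norm_num)
  have p12 : r ^ 12 ≤ r ^ 30 := pow_le_pow_right₀ hr1 (by norm_num)
  have h1 : ‖z ^ 100 * Phi (2 + 8 * z)‖ ≤ Real.exp (6 * r ^ 30) := by
    rw [norm_mul, norm_pow]
    have a1 : r ^ 100 ≤ Real.exp r ^ 100 := by gcongr; exact exp_ge_of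
    have a2 : ((2 + 8 * z).im) ^ 2 ≤ (8 * r) ^ 2 := by
      rw [← sq_abs]
      gcongr
      have := Complex.abs_im_le_norm z
      simp only [add_im, mul_im, re_ofNat, im_ofNat, zero_mul, add_zero, zero_add, abs_mul]
      norm_num; linarith
    calc _ ≤ Real.exp r ^ 100 * Real.exp ((8 * r) ^ 2) :=
          mul_le_mul a1 ((norm_Phi_le _).trans (Real.exp_le_exp.2 a2)) (norm_nonneg _)
            (by positivity)
      _ ≤ _ := by
          rw [← Real.exp_nat_mul, ← Real.exp_add]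
          refine Real.exp_le_exp.2 ?_
          push_cast
          nlinarith
  have h2 : ‖(1 / 100 : ℂ) * cexp (-z ^ 30)‖ ≤ Real.exp (6 * r ^ 30) := by
    rw [norm_mul, Complex.norm_exp]
    have : Real.exp (-z ^ 30).re ≤ Real.exp (6 * r ^ 30) :=
      Real.exp_le_exp.2 ((neg_pow_re_le z).trans (by nlinarith))
    have := Real.exp_pos (-z ^ 30).re
    rw [show ‖(1 / 100 : ℂ)‖ = 1 / 100 by norm_num]
    linarith
  have h3 : ‖∑' j, term v j z‖ ≤ 2 * Real.exp (6 * r ^ 30) := by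
    refine norm_tsum_half fun j => (term_growth hv j z).trans ?_
    gcongr
    linarith
  have h4 : 4 * Real.exp (6 * r ^ 30) ≤ Real.exp (10 * r ^ 30) := by
    have : (4 : ℝ) ≤ Real.exp (4 * r ^ 30) := by
      refine le_trans ?_ exp_ge_of
      nlinarith
    calc _ ≤ Real.exp (4 * r ^ 30) * Real.exp (6 * r ^ 30) := by gcongr
      _ = _ := by rw [← Real.exp_add]; congr 1; ring
  rw [F]
  refine (norm_add₃_le).trans ?_
  linarith

/-- Points where all cut-off terms are negligible. -/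
def Nice (z : ℂ) : Prop := ‖z‖ ≤ 1 ∨ (|(z ^ 6).im| ≤ (z ^ 6).re ∧ 0 ≤ (z ^ 30).re)

lemma term_small {v : ℕ → ℂ} (hv : Bd v) (j : ℕ) {z : ℂ} (hz : Nice z) :
    ‖term v j z‖ ≤ (1 / 2) ^ j * Real.exp (-RR j) := by
  have hR := RR_ge j
  have h0 : ‖chi j z‖ ≤ Real.exp (-RR j ^ 2 / 2) ∧ (-z ^ 30).re ≤ 1 := by
    rcases hz with hz | hz
    · have a1 : ‖z‖ ^ 6 ≤ 1 := pow_le_one₀ (norm_nonneg _) hz
      have a2 : ‖z‖ ^ 30 ≤ 1 := pow_le_one₀ (norm_nonneg _) hz
      exact ⟨norm_chi_small j (by linarith), (neg_pow_re_le z).trans a2⟩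
    · refine ⟨(norm_chi_sector j hz.1).trans (Real.exp_le_exp.2 (by nlinarith)), ?_⟩
      rw [neg_re]; linarith [hz.2]
  have h1 := norm_br_le' hv j (-z ^ 30) zero_le_one h0.2
  have h2 := cc_le_half j
  rw [term, norm_mul]
  calc _ ≤ Real.exp (-RR j ^ 2 / 2) * (((1 / 2) ^ j * Real.exp (RR j)) * Real.exp 1) := by
        gcongr
        · exact h0.1
        · exact h1.trans (by gcongr)
    _ = (1 / 2) ^ j * Real.exp (-RR j ^ 2 / 2 + RR j + 1) := by
        rw [Real.exp_add, Real.exp_add]; ring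
    _ ≤ _ := by
        gcongr
        nlinarith

lemma exp_neg_small {x : ℝ} (hx : 10 ^ 20 ≤ x) : Real.exp (-x) ≤ 1 / 10 ^ 20 := by
  rw [Real.exp_neg, ← one_div]
  exact one_div_le_one_div_of_le (by norm_num) (hx.trans exp_ge_of)

lemma tsum_small {v : ℕ → ℂ} (hv : Bd v) {z : ℂ} (hz : Nice z) :
    ‖∑' j, term v j z‖ ≤ 1 / 10 ^ 10 := by
  have := norm_tsum_half (g := fun j => term v j z) (B := 1 / 10 ^ 20) fun j =>
    (term_small hv j hz).trans (by gcongr; exact exp_neg_small (RR_ge j))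
  refine this.trans (by norm_num)

lemma F_sub_F {v w : ℕ → ℂ} (hv : Bd v) (hw : Bd w) {i : ℕ} (h : ∀ j < i, v j = w j) {z : ℂ}
    (hz : Nice z) : ‖F v z - F w z‖ ≤ 4 * Real.exp (-RR i) := by
  have e : F v z - F w z = ∑' j, (term v j z - term w j z) := by
    rw [(summable_term hv z).tsum_sub (summable_term hw z), F, F]; ring
  rw [e]
  refine (norm_tsum_half (B := 2 * Real.exp (-RR i)) fun j => ?_).trans (le_of_eq (by ring))
  by_cases hj : j < i
  · have : dv v j = dv w j := by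
      cases j with
      | zero => exact h 0 hj
      | succ j => simp only [dv]; rw [h _ hj, h j (by omega)]
    rw [term, term, this, sub_self, norm_zero]; positivity
  · have h1 := term_small hv j hz
    have h2 := term_small hw j hz
    have h3 : Real.exp (-RR j) ≤ Real.exp (-RR i) :=
      Real.exp_le_exp.2 (by linarith [RR_mono (not_lt.1 hj)])
    have h4 : (1 / 2 : ℝ) ^ j * Real.exp (-RR j) ≤ (1 / 2) ^ j * Real.exp (-RR i) := by gcongr
    refine (norm_sub_le _ _).trans (by linarith)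

lemma exp_pow_re (ζ : ℂ) (n : ℕ) :
    (cexp ζ ^ n).re = Real.exp (n * ζ.re) * Real.cos (n * ζ.im) := by
  rw [← Complex.exp_nat_mul, Complex.exp_re]; simp

lemma exp_pow_im (ζ : ℂ) (n : ℕ) :
    (cexp ζ ^ n).im = Real.exp (n * ζ.re) * Real.sin (n * ζ.im) := by
  rw [← Complex.exp_nat_mul, Complex.exp_im]; simp

lemma nice_aux {ζ : ℂ} (h : |ζ.im| ≤ 1 / 20) :
    |(cexp ζ ^ 6).im| ≤ (cexp ζ ^ 6).re ∧ 0 ≤ (cexp ζ ^ 30).re := by
  have h' := abs_le.1 h
  rw [exp_pow_re, exp_pow_im, exp_pow_re]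
  constructor
  · rw [abs_mul, abs_of_pos (Real.exp_pos _)]
    gcongr
    have h1 := Real.abs_sin_le_abs (x := ((6 : ℕ) : ℝ) * ζ.im)
    have h2 := Real.one_sub_sq_div_two_le_cos (x := ((6 : ℕ) : ℝ) * ζ.im)
    rw [abs_mul] at h1
    push_cast at *
    norm_num at h1
    nlinarith
  · refine mul_nonneg (Real.exp_pos _).le (Real.cos_nonneg_of_mem_Icc ⟨?_, ?_⟩) <;>
      push_cast <;> linarith [Real.pi_gt_three]

lemma nice_exp {ζ : ℂ} (h : |ζ.im| ≤ 1 / 20) : Nice (cexp ζ) := Or.inr (nice_aux h)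

lemma nice_neg_exp {ζ : ℂ} (h : |ζ.im| ≤ 1 / 20) : Nice (-cexp ζ) := by
  right
  rw [show (-cexp ζ) ^ 6 = cexp ζ ^ 6 by ring, show (-cexp ζ) ^ 30 = cexp ζ ^ 30 by ring]
  exact nice_aux h

lemma rest_small {v : ℕ → ℂ} (hv : Bd v) {z : ℂ} (hz : Nice z) (hz' : (-z ^ 30).re ≤ 1 / 100) :
    ‖F v z - z ^ 100 * Phi (2 + 8 * z)‖ ≤ 11 / 1000 := by
  have e : F v z - z ^ 100 * Phi (2 + 8 * z) = (1 / 100) * cexp (-z ^ 30) + ∑' j, term v j z := by
    rw [F]; ring
  rw [e]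
  have h1 := tsum_small hv hz
  have h2 : Real.exp (-z ^ 30).re ≤ 105 / 100 := by
    refine (Real.exp_le_exp.2 hz').trans ?_
    have := Real.exp_bound_div_one_sub_of_interval' (x := 1 / 100) (by norm_num) (by norm_num)
    linarith [show (1 : ℝ) / (1 - 1 / 100) ≤ 105 / 100 by norm_num]
  refine (norm_add_le _ _).trans ?_
  rw [norm_mul, Complex.norm_exp]
  norm_num at *
  linarith

/-- The trap: a disc together with a thin sector around the negative axis. -/
def B0 : Set ℂ := {w | ‖w‖ ≤ 1 / 2 ∨ ∃ ζ : ℂ, |ζ.im| ≤ 1 / 20 ∧ w = -cexp ζ}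

lemma cos_sin_small {t : ℝ} (h : |t| ≤ 1 / 20) : 99 / 100 ≤ Real.cos t ∧ |Real.sin t| ≤ 1 / 20 := by
  have h' := abs_le.1 h
  refine ⟨?_, Real.abs_sin_le_abs.trans h⟩
  have h2 := Real.one_sub_sq_div_two_le_cos (x := t)
  nlinarith

lemma F_B0 {v : ℕ → ℂ} (hv : Bd v) {z : ℂ} (hz : z ∈ B0) : ‖F v z‖ ≤ 1 / 2 := by
  suffices h : Nice z ∧ (-z ^ 30).re ≤ 1 / 100 ∧ ‖z ^ 100 * Phi (2 + 8 * z)‖ ≤ 1 / 10 by
    have h1 := rest_small hv h.1 h.2.1
    have h2 := norm_sub_norm_le (F v z) (z ^ 100 * Phi (2 + 8 * z))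
    linarith [h.2.2]
  by_cases h1 : ‖z‖ ≤ 1 / 2
  · refine ⟨Or.inl (by linarith), (neg_pow_re_le z).trans ?_, ?_⟩
    · calc ‖z‖ ^ 30 ≤ (1 / 2) ^ 30 := by gcongr
        _ ≤ _ := by norm_num
    · rw [norm_mul, norm_pow]
      have a2 : ((2 + 8 * z).im) ^ 2 ≤ 4 ^ 2 := by
        rw [← sq_abs]
        gcongr
        have := Complex.abs_im_le_norm z
        simp only [add_im, mul_im, re_ofNat, im_ofNat, zero_mul, add_zero, zero_add, abs_mul]
        norm_num; linarith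
      have a3 : Real.exp (4 ^ 2) ≤ 3 ^ 16 := by
        rw [show (4 : ℝ) ^ 2 = ((16 : ℕ) : ℝ) by norm_num, ← Real.exp_one_pow]
        gcongr
        linarith [Real.exp_one_lt_d9]
      have a4 : ‖z‖ ^ 100 ≤ (1 / 2) ^ 100 := pow_le_pow_left₀ (norm_nonneg _) h1 _
      have a5 := (norm_Phi_le _).trans ((Real.exp_le_exp.2 a2).trans a3)
      exact (mul_le_mul a4 a5 (norm_nonneg _) (by positivity)).trans (by norm_num)
  · rcases hz with hz | ⟨ζ, hζ, rfl⟩
    · exact absurd hz h1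
    have hn := nice_aux hζ
    refine ⟨nice_neg_exp hζ, ?_, ?_⟩
    · rw [show (-cexp ζ) ^ 30 = cexp ζ ^ 30 by ring, neg_re]; linarith [hn.2]
    · rw [norm_neg, Complex.norm_exp] at h1
      obtain ⟨c1, c2⟩ := cos_sin_small hζ
      have c3 := Real.cos_le_one ζ.im
      set r := Real.exp ζ.re with hr
      have hr0 : 1 / 2 < r := not_le.1 h1
      have e1 : (2 + 8 * -cexp ζ).re = 2 - 8 * (r * Real.cos ζ.im) := by
        simp [Complex.exp_re, hr]; ring
      have e2 : (2 + 8 * -cexp ζ).im = -8 * (r * Real.sin ζ.im) := by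
        simp [Complex.exp_im, hr]
      have c4 : Real.sin ζ.im ^ 2 ≤ (1 / 20) ^ 2 := by rw [← sq_abs]; gcongr
      have b1 := norm_Phi_le' (2 + 8 * -cexp ζ) (by rw [e1]; nlinarith)
      rw [e1, e2] at b1
      have b2 : r ^ 100 ≤ Real.exp (r - 1) ^ 100 := by
        gcongr; linarith [Real.add_one_le_exp (r - 1)]
      rw [norm_mul, norm_pow, norm_neg, Complex.norm_exp, ← hr]
      have b3 : 99 / 100 * r ≤ r * Real.cos ζ.im := by nlinarith
      have b4 : (8 * (99 / 100 * r) - 2) ^ 2 ≤ (8 * (r * Real.cos ζ.im) - 2) ^ 2 := by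
        gcongr; linarith
      have b5 : (r * Real.sin ζ.im) ^ 2 ≤ r ^ 2 * (1 / 20) ^ 2 := by rw [mul_pow]; gcongr
      have b7 : ((100 : ℕ) : ℝ) * (r - 1) + ((-8 * (r * Real.sin ζ.im)) ^ 2 -
            (2 - 8 * (r * Real.cos ζ.im)) ^ 2) ≤ -10 := by
        push_cast
        nlinarith [sq_nonneg (r - 1)]
      calc _ ≤ Real.exp (r - 1) ^ 100 * Real.exp ((-8 * (r * Real.sin ζ.im)) ^ 2 -
            (2 - 8 * (r * Real.cos ζ.im)) ^ 2) := mul_le_mul b2 b1 (norm_nonneg _) (by positivity)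
        _ ≤ Real.exp (-10) := by
            rw [← Real.exp_nat_mul, ← Real.exp_add]
            exact Real.exp_le_exp.2 b7
        _ ≤ _ := by
            rw [Real.exp_neg, ← one_div]
            exact one_div_le_one_div_of_le (by norm_num) exp_ge_of

lemma F_approx {v : ℕ → ℂ} (hv : Bd v) {ζ : ℂ} (h : |ζ.im| ≤ 1 / 20) :
    ‖F v (cexp ζ) - cexp (100 * ζ)‖ ≤
      Real.exp (100 * ζ.re) * Real.exp (-30 * Real.exp ζ.re - 4) + 11 / 1000 := by
  have hn := nice_aux h
  have h1 := rest_small hv (nice_exp h) (by rw [neg_re]; linarith [hn.2])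
  have e0 : cexp ζ ^ 100 = cexp (100 * ζ) := by rw [← Complex.exp_nat_mul]; norm_num
  obtain ⟨c1, c2⟩ := cos_sin_small h
  set r := Real.exp ζ.re with hr
  have hr0 : 0 < r := Real.exp_pos _
  have e1 : (2 + 8 * cexp ζ).re = 2 + 8 * (r * Real.cos ζ.im) := by
    simp [Complex.exp_re, hr]
  have e2 : (2 + 8 * cexp ζ).im = 8 * (r * Real.sin ζ.im) := by
    simp [Complex.exp_im, hr]
  have c4 : Real.sin ζ.im ^ 2 ≤ (1 / 20) ^ 2 := by rw [← sq_abs]; gcongr
  have b3 : 99 / 100 * r ≤ r * Real.cos ζ.im := by nlinarith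
  have b1 := norm_Phi_neg (2 + 8 * cexp ζ) (by rw [e1]; nlinarith)
  rw [e1, e2] at b1
  have b4 : (2 + 8 * (99 / 100 * r)) ^ 2 ≤ (2 + 8 * (r * Real.cos ζ.im)) ^ 2 := by gcongr
  have b5 : (r * Real.sin ζ.im) ^ 2 ≤ r ^ 2 * (1 / 20) ^ 2 := by rw [mul_pow]; gcongr
  have b6 : ‖Phi (-(2 + 8 * cexp ζ))‖ ≤ Real.exp (-30 * r - 4) :=
    b1.trans (Real.exp_le_exp.2 (by nlinarith))
  have e3 : F v (cexp ζ) - cexp (100 * ζ) = (F v (cexp ζ) - cexp ζ ^ 100 * Phi (2 + 8 * cexp ζ))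
      - cexp (100 * ζ) * Phi (-(2 + 8 * cexp ζ)) := by
    rw [Phi_eq (2 + 8 * cexp ζ), e0]; ring
  rw [e3]
  refine (norm_sub_le _ _).trans ?_
  rw [norm_mul, Complex.norm_exp]
  have e4 : (100 * ζ).re = 100 * ζ.re := by simp
  rw [e4]
  have : Real.exp (100 * ζ.re) * ‖Phi (-(2 + 8 * cexp ζ))‖ ≤
      Real.exp (100 * ζ.re) * Real.exp (-30 * r - 4) := by gcongr
  linarith

lemma F_side {v : ℕ → ℂ} (hv : Bd v) {ζ : ℂ} (h : |ζ.im| = Real.pi / 100)
    (h2 : 1 / 2 ≤ Real.exp ζ.re) : F v (cexp ζ) ∈ B0 := by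
  have h1 := F_approx hv (ζ := ζ) (by rw [h]; linarith [Real.pi_lt_four])
  set s := Real.exp (100 * ζ.re) with hs
  have hs0 : 0 < s := Real.exp_pos _
  have e1 : cexp (100 * ζ) = -(s : ℂ) := by
    have : 100 * ζ = ((100 * ζ.re : ℝ) : ℂ) + (100 * ζ.im : ℝ) * I := by
      apply Complex.ext <;> simp
    rw [this, Complex.exp_add, hs, Complex.ofReal_exp]
    rcases (abs_eq (by positivity)).1 h with h' | h'
    · rw [h', show ((100 * (Real.pi / 100) : ℝ) : ℂ) = Real.pi by push_cast; ring,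
        Complex.exp_pi_mul_I]; ring
    · rw [h', show ((100 * -(Real.pi / 100) : ℝ) : ℂ) * I = -(Real.pi * I) by push_cast; ring,
        Complex.exp_neg, Complex.exp_pi_mul_I]; ring
  have b1 : Real.exp (-30 * Real.exp ζ.re - 4) ≤ 1 / 1000 := by
    calc _ ≤ Real.exp (-((10 : ℕ) : ℝ)) := Real.exp_le_exp.2 (by push_cast; linarith)
      _ ≤ _ := by
        rw [Real.exp_neg, ← one_div, ← Real.exp_one_pow]
        refine one_div_le_one_div_of_le (by norm_num) ?_
        calc (1000 : ℝ) ≤ 2 ^ 10 := by norm_num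
          _ ≤ _ := by gcongr; linarith [Real.add_one_le_exp (1 : ℝ)]
  have b2 : s * Real.exp (-30 * Real.exp ζ.re - 4) ≤ s * (1 / 1000) := by gcongr
  rw [e1] at h1
  by_cases hs4 : s ≤ 4 / 10
  · left
    have := norm_sub_norm_le (F v (cexp ζ)) (-(s : ℂ))
    rw [norm_neg, Complex.norm_real, Real.norm_of_nonneg hs0.le] at this
    linarith
  · right
    set δ : ℂ := -(F v (cexp ζ) - -(s : ℂ)) / s with hδ
    have hsc : (s : ℂ) ≠ 0 := by exact_mod_cast hs0.ne'
    have b3 : ‖δ‖ ≤ 3 / 100 := by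
      rw [hδ, norm_div, norm_neg, Complex.norm_real, Real.norm_of_nonneg hs0.le,
        div_le_iff₀ hs0]
      linarith [not_le.1 hs4]
    have b4 := Complex.norm_log_one_add_half_le_self (z := δ) (by linarith)
    have hne : 1 + δ ≠ 0 := by
      intro h0
      have : δ = -1 := by linear_combination h0
      rw [this] at b3; norm_num at b3
    refine ⟨((100 * ζ.re : ℝ) : ℂ) + log (1 + δ), ?_, ?_⟩
    · have := Complex.abs_im_le_norm (log (1 + δ))
      simp only [add_im, ofReal_im, zero_add]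
      linarith
    · rw [Complex.exp_add, Complex.exp_log hne, ← Complex.ofReal_exp, ← hs, hδ]
      field_simp
      ring

lemma F_delta {v : ℕ → ℂ} (hv : Bd v) {ζ : ℂ} (h : |ζ.im| ≤ 1 / 20) (h2 : 1 ≤ ζ.re) :
    ‖F v (cexp ζ) * cexp (-(100 * ζ)) - 1‖ ≤ Real.exp (-ζ.re) / 2 := by
  have h1 := F_approx hv h
  have e : F v (cexp ζ) * cexp (-(100 * ζ)) - 1 =
      (F v (cexp ζ) - cexp (100 * ζ)) * cexp (-(100 * ζ)) := by
    rw [sub_mul, ← Complex.exp_add]; simp
  rw [e, norm_mul, Complex.norm_exp]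
  have e4 : (-(100 * ζ)).re = -(100 * ζ.re) := by simp
  rw [e4]
  have b1 : Real.exp (-30 * Real.exp ζ.re - 4) ≤ Real.exp (-ζ.re) / 4 := by
    have a1 : Real.exp (-4) ≤ 1 / 4 := by
      rw [Real.exp_neg, ← one_div]
      exact one_div_le_one_div_of_le (by norm_num) exp_ge_of
    calc _ ≤ Real.exp (-ζ.re + -4) :=
          Real.exp_le_exp.2 (by linarith [exp_ge_of (x := ζ.re)])
      _ ≤ _ := by
          rw [Real.exp_add]
          have := Real.exp_pos (-ζ.re)
          nlinarith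
  have b2 : Real.exp (-(100 * ζ.re)) ≤ Real.exp (-ζ.re) := Real.exp_le_exp.2 (by linarith)
  have b3 : Real.exp (100 * ζ.re) * Real.exp (-(100 * ζ.re)) = 1 := by
    rw [← Real.exp_add]; simp
  calc _ ≤ (Real.exp (100 * ζ.re) * Real.exp (-30 * Real.exp ζ.re - 4) + 11 / 1000) *
        Real.exp (-(100 * ζ.re)) := by gcongr
    _ = Real.exp (100 * ζ.re) * Real.exp (-(100 * ζ.re)) * Real.exp (-30 * Real.exp ζ.re - 4) +
        11 / 1000 * Real.exp (-(100 * ζ.re)) := by ring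
    _ ≤ _ := by
        rw [b3]
        have := Real.exp_pos (-ζ.re)
        linarith

end Pool.Agent.MP_16212d_an

end MrgPart2

-- ======== part 3: formerly Pool.Agent.MP_16212d_an.EDyn
section MrgPart3

/-! Dynamics in the expanding sector around the positive axis. -/

open Complex Set Filter Topology Metric

namespace Pool.Agent.MP_16212d_an

noncomputable def eta (v : ℕ → ℂ) (ζ : ℂ) : ℂ := log (F v (cexp ζ) * cexp (-(100 * ζ)))

def E0 : Set ℂ := {w | 1 / 2 < ‖w‖ ∧ |arg w| < Real.pi / 100}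

lemma min_mod {g : ℂ → ℂ} {a : ℂ} {r C : ℝ} (hr : 0 < r)
    (hd : ∀ z ∈ closedBall a r, DifferentiableAt ℂ g z) (h1 : ‖g a‖ < C)
    (h2 : ∀ z ∈ sphere a r, C ≤ ‖g z‖) : ∃ z ∈ closedBall a r, g z = 0 := by
  by_contra hne
  push Not at hne
  have hC : 0 < C := (norm_nonneg _).trans_lt h1
  have hd' : DiffContOnCl ℂ (fun z => (g z)⁻¹) (ball a r) :=
    DifferentiableOn.diffContOnCl_ball (U := closedBall a r)
      (fun z hz => ((hd z hz).inv (hne z hz)).differentiableWithinAt) subset_rfl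
  have := Complex.norm_le_of_forall_mem_frontier_norm_le isBounded_ball hd' (C := C⁻¹)
    (fun z hz => by
      rw [frontier_ball a hr.ne'] at hz
      rw [norm_inv]
      exact inv_anti₀ hC (h2 z hz))
    (subset_closure (mem_ball_self hr))
  rw [norm_inv, inv_le_inv₀ (norm_pos_iff.2 (hne a (mem_closedBall_self hr.le))) hC] at this
  linarith

section
variable {v : ℕ → ℂ} (hv : Bd v)
include hv

lemma delta_half {ζ : ℂ} (h : |ζ.im| ≤ 1 / 20) (h2 : 1 ≤ ζ.re) :
    ‖F v (cexp ζ) * cexp (-(100 * ζ)) - 1‖ ≤ 1 / 2 := by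
  have := F_delta hv h h2
  have : Real.exp (-ζ.re) ≤ 1 := Real.exp_le_one_iff.2 (by linarith)
  linarith

lemma eta_slit {ζ : ℂ} (h : |ζ.im| ≤ 1 / 20) (h2 : 1 ≤ ζ.re) :
    F v (cexp ζ) * cexp (-(100 * ζ)) ∈ slitPlane := by
  have := Complex.mem_slitPlane_of_norm_lt_one ((delta_half hv h h2).trans_lt (by norm_num))
  simpa using this

lemma eta_spec {ζ : ℂ} (h : |ζ.im| ≤ 1 / 20) (h2 : 1 ≤ ζ.re) :
    F v (cexp ζ) = cexp (100 * ζ + eta v ζ) := by
  rw [Complex.exp_add, eta, Complex.exp_log (slitPlane_ne_zero (eta_slit hv h h2)), mul_left_comm,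
    ← Complex.exp_add]
  simp

lemma eta_le {ζ : ℂ} (h : |ζ.im| ≤ 1 / 20) (h2 : 1 ≤ ζ.re) : ‖eta v ζ‖ ≤ Real.exp (-ζ.re) := by
  have h3 := Complex.norm_log_one_add_half_le_self (delta_half hv h h2)
  have h4 := F_delta hv h h2
  rw [add_sub_cancel] at h3
  rw [eta]
  linarith [Real.exp_pos (-ζ.re)]

lemma eta_diff {ζ : ℂ} (h : |ζ.im| ≤ 1 / 20) (h2 : 1 ≤ ζ.re) : DifferentiableAt ℂ (eta v) ζ := by
  have := differentiable_F hv
  exact DifferentiableAt.clog (by fun_prop) (eta_slit hv h h2)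

lemma eta_deriv {ζ : ℂ} {s : ℝ} (h : |ζ.im| ≤ Real.pi / 100) (hs : 18 ≤ s) (h2 : s ≤ ζ.re) :
    ‖deriv (eta v) ζ‖ ≤ 60 * Real.exp (-s) := by
  have key : ∀ z ∈ closedBall ζ (18 / 1000), |z.im| ≤ 1 / 20 ∧ s - 18 / 1000 ≤ z.re := by
    intro z hz
    have a1 := abs_le.1 ((Complex.abs_re_le_norm _).trans (mem_closedBall_iff_norm.1 hz))
    have a2 := abs_le.1 ((Complex.abs_im_le_norm _).trans (mem_closedBall_iff_norm.1 hz))
    have a3 := abs_le.1 h
    rw [sub_re] at a1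
    rw [sub_im] at a2
    have := Real.pi_lt_d2
    exact ⟨abs_le.2 ⟨by linarith, by linarith⟩, by linarith⟩
  have := Complex.norm_deriv_le_of_forall_mem_sphere_norm_le (c := ζ) (R := 18 / 1000)
    (C := 105 / 100 * Real.exp (-s)) (f := eta v) (by norm_num)
    (DifferentiableOn.diffContOnCl_ball (U := closedBall ζ (18 / 1000))
      (fun z hz => (eta_diff hv (key z hz).1 (by linarith [(key z hz).2])).differentiableWithinAt)
      subset_rfl)
    (fun z hz => by
      have hz' := key z (sphere_subset_closedBall hz)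
      refine (eta_le hv hz'.1 (by linarith [hz'.2])).trans ?_
      have a1 := Real.exp_bound_div_one_sub_of_interval' (x := 18 / 1000) (by norm_num)
        (by norm_num)
      calc _ ≤ Real.exp (18 / 1000 + -s) := Real.exp_le_exp.2 (by linarith [hz'.2])
        _ ≤ _ := by
          rw [Real.exp_add]
          gcongr
          exact a1.le.trans (by norm_num))
  refine this.trans ?_
  rw [div_le_iff₀ (by norm_num)]
  linarith [Real.exp_pos (-s)]

lemma eta_lip {ζ ξ : ℂ} {s : ℝ} (hs : 18 ≤ s) (h : |ζ.im| ≤ Real.pi / 100) (h2 : s ≤ ζ.re)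
    (h' : |ξ.im| ≤ Real.pi / 100) (h2' : s ≤ ξ.re) :
    ‖eta v ζ - eta v ξ‖ ≤ 60 * Real.exp (-s) * ‖ζ - ξ‖ := by
  have hconv : Convex ℝ ({z : ℂ | s ≤ z.re} ∩ ({z : ℂ | -(Real.pi / 100) ≤ z.im} ∩
      {z : ℂ | z.im ≤ Real.pi / 100})) :=
    (convex_halfSpace_re_ge _).inter ((convex_halfSpace_im_ge _).inter (convex_halfSpace_im_le _))
  refine hconv.norm_image_sub_le_of_norm_deriv_le (f := eta v) (fun z hz => ?_) (fun z hz => ?_)
    ⟨h2', abs_le.1 h'⟩ ⟨h2, abs_le.1 h⟩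
  · have h3 : |z.im| ≤ Real.pi / 100 := abs_le.2 ⟨hz.2.1, hz.2.2⟩
    exact eta_diff hv (h3.trans (by linarith [Real.pi_lt_four]))
      (by linarith [show s ≤ z.re from hz.1])
  · exact eta_deriv hv (abs_le.2 ⟨hz.2.1, hz.2.2⟩) hs hz.1

omit hv in
lemma exp_neg_18 {s : ℝ} (hs : 18 ≤ s) : Real.exp (-s) ≤ 1 / (6 * 10 ^ 7) := by
  rw [Real.exp_neg, ← one_div]
  refine one_div_le_one_div_of_le (by norm_num) (le_trans ?_ (Real.exp_le_exp.2 hs))
  rw [show (18 : ℝ) = ((18 : ℕ) : ℝ) by norm_num, ← Real.exp_one_pow]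
  calc (6 * 10 ^ 7 : ℝ) ≤ (2718 / 1000) ^ 18 := by norm_num
    _ ≤ _ := pow_le_pow_left₀ (by norm_num) (by linarith [Real.exp_one_gt_d9]) _

omit hv in
lemma ne_zero_of_notMem_B0 {w : ℂ} (h : w ∉ B0) : w ≠ 0 := by
  rintro rfl; exact h (Or.inl (by norm_num))

omit hv in
lemma log_exp_of_notMem {ξ : ℂ} (h : |ξ.im| ≤ Real.pi + 1 / 20) (h2 : cexp ξ ∉ B0) :
    log (cexp ξ) = ξ := by
  have h' := abs_le.1 h
  refine Complex.log_exp ?_ ?_
  · by_contra hc
    refine h2 (Or.inr ⟨ξ + Real.pi * I, ?_, ?_⟩)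
    · simp only [add_im, mul_im, ofReal_re, I_im, mul_one, ofReal_im, I_re, mul_zero, add_zero]
      exact abs_le.2 ⟨by linarith, by linarith [not_lt.1 hc]⟩
    · rw [Complex.exp_add, Complex.exp_pi_mul_I]; ring
  · by_contra hc
    refine h2 (Or.inr ⟨ξ - Real.pi * I, ?_, ?_⟩)
    · simp only [sub_im, mul_im, ofReal_re, I_im, mul_one, ofReal_im, I_re, mul_zero, add_zero]
      exact abs_le.2 ⟨by linarith [not_le.1 hc], by linarith⟩
    · rw [Complex.exp_sub, Complex.exp_pi_mul_I]; ring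

lemma log_step {z : ℂ} (hz : z ∈ E0) (h1 : 18 ≤ (log z).re) (h2 : F v z ∉ B0) :
    log (F v z) = 100 * log z + eta v (log z) := by
  have hz0 : z ≠ 0 := norm_pos_iff.1 (by linarith [hz.1])
  have h3 : |(log z).im| < Real.pi / 100 := by rw [log_im]; exact hz.2
  have h4 : |(log z).im| ≤ 1 / 20 := by linarith [Real.pi_lt_four]
  have h5 := eta_spec hv h4 (by linarith)
  rw [Complex.exp_log hz0] at h5
  rw [h5] at h2 ⊢
  refine log_exp_of_notMem ?_ h2
  have h6 := abs_le.1 ((Complex.abs_im_le_norm _).trans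
    ((eta_le hv h4 (by linarith)).trans (exp_neg_18 h1)))
  have h7 := abs_lt.1 h3
  simp only [add_im, mul_im, re_ofNat, im_ofNat, zero_mul, add_zero]
  exact abs_le.2 ⟨by linarith, by linarith⟩

lemma orbit {w : ℂ} {m : ℕ} (hE : ∀ k < m, (F v)^[k] w ∈ E0) (hB : ∀ k ≤ m, (F v)^[k] w ∉ B0)
    (h18 : 18 ≤ (log w).re) (k : ℕ) (hk : k ≤ m) :
    (log w).re + k ≤ (log ((F v)^[k] w)).re ∧
      ‖log ((F v)^[k] w) - 100 ^ k * log w‖ ≤ (100 ^ k - 1) * (Real.exp (-(log w).re) / 50) := by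
  induction k with
  | zero => simp
  | succ k ih =>
    obtain ⟨a1, a2⟩ := ih (by omega)
    have hk0 : (0 : ℝ) ≤ k := Nat.cast_nonneg k
    have hz := hE k (by omega)
    have b0 := hB (k + 1) hk
    rw [Function.iterate_succ_apply'] at b0 ⊢
    set ζ := log ((F v)^[k] w) with hζ
    have b1 := log_step hv hz (by linarith) b0
    have h4 : |ζ.im| ≤ 1 / 20 := by rw [hζ, log_im]; linarith [Real.pi_lt_four, hz.2]
    have b2 := eta_le hv h4 (by linarith)
    have b3 : Real.exp (-ζ.re) ≤ Real.exp (-(log w).re) := Real.exp_le_exp.2 (by linarith)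
    have b4 := exp_neg_18 h18
    rw [b1, ← hζ]
    constructor
    · have := abs_le.1 ((Complex.abs_re_le_norm _).trans b2)
      simp only [add_re, mul_re, re_ofNat, im_ofNat, zero_mul, sub_zero]
      push_cast
      linarith
    · have e : 100 * ζ + eta v ζ - 100 ^ (k + 1) * log w =
          100 * (ζ - 100 ^ k * log w) + eta v ζ := by ring
      rw [e]
      refine (norm_add_le _ _).trans ?_
      rw [norm_mul, show ‖(100 : ℂ)‖ = 100 by norm_num, pow_succ]
      linarith [Real.exp_pos (-(log w).re)]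

lemma compare {w : ℂ} {m : ℕ} (hE : ∀ k < m, (F v)^[k] w ∈ E0) (hB : ∀ k ≤ m, (F v)^[k] w ∉ B0)
    (h18 : 18 ≤ (log w).re) {ξ : ℕ → ℂ} {e : ℝ} (he : 0 ≤ e)
    (hξ : ∀ k < m, |(ξ k).im| ≤ Real.pi / 100 ∧ 18 + k ≤ (ξ k).re ∧
      ‖ξ (k + 1) - 100 * ξ k - eta v (ξ k)‖ ≤ e) (k : ℕ) (hk : k ≤ m) :
    ‖(log ((F v)^[k] w) - ξ k) - 100 ^ k * (log w - ξ 0)‖ ≤
      100 ^ k * ((1 - (1 / 2) ^ k) * (‖log w - ξ 0‖ / 10 ^ 5 + e)) := by
  induction k with
  | zero => simp
  | succ k ih =>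
    have a2 := ih (by omega)
    obtain ⟨a1, -⟩ := orbit hv hE hB h18 k (by omega)
    obtain ⟨x1, x2, x3⟩ := hξ k (by omega)
    have hk0 : (0 : ℝ) ≤ k := Nat.cast_nonneg k
    have hz := hE k (by omega)
    have b0 := hB (k + 1) hk
    rw [Function.iterate_succ_apply'] at b0 ⊢
    set ζ := log ((F v)^[k] w) with hζ
    have b1 := log_step hv hz (by linarith) b0
    have h4 : |ζ.im| ≤ Real.pi / 100 := by rw [hζ, log_im]; exact hz.2.le
    have b2 := eta_lip hv (s := 18 + k) (by linarith) h4 (by linarith) x1 x2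
    set D := ‖log w - ξ 0‖ with hD
    have hD0 : 0 ≤ D := norm_nonneg _
    set p := (1 / 2 : ℝ) ^ k with hp
    set a := (100 : ℝ) ^ k with ha
    have hp0 : 0 < p := by positivity
    have ha0 : 0 < a := by positivity
    have hp1 : p ≤ 1 := pow_le_one₀ (by norm_num) (by norm_num)
    have hap : 1 ≤ a * p := by
      rw [ha, hp, ← mul_pow]; exact one_le_pow₀ (by norm_num)
    have b3 : 60 * Real.exp (-(18 + (k : ℝ))) ≤ p / 10 ^ 6 := by
      have c1 := exp_neg_18 le_rfl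
      have c2 : Real.exp (-(k : ℝ)) ≤ p := by
        rw [hp, one_div, inv_pow, Real.exp_neg]
        exact inv_anti₀ (by positivity) (two_pow_le k)
      rw [neg_add, Real.exp_add]
      have : Real.exp (-18) * Real.exp (-(k : ℝ)) ≤ 1 / (6 * 10 ^ 7) * p := by gcongr
      linarith
    have b4 : ‖ζ - ξ k‖ ≤ a * (2 * D + e) := by
      have c1 := norm_sub_norm_le (ζ - ξ k) (100 ^ k * (log w - ξ 0))
      rw [norm_mul, norm_pow, show ‖(100 : ℂ)‖ = 100 by norm_num, ← ha, ← hD] at c1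
      have c2 : a * ((1 - p) * (D / 10 ^ 5 + e)) ≤ a * (1 * (D + e)) := by
        gcongr <;> linarith
      linarith
    have b5 : ‖eta v ζ - eta v (ξ k)‖ ≤ p / 10 ^ 6 * (a * (2 * D + e)) :=
      b2.trans (by gcongr)
    rw [b1, ← hζ]
    have e1 : 100 * ζ + eta v ζ - ξ (k + 1) - 100 ^ (k + 1) * (log w - ξ 0) =
        100 * (ζ - ξ k - 100 ^ k * (log w - ξ 0)) + (eta v ζ - eta v (ξ k)) +
          -(ξ (k + 1) - 100 * ξ k - eta v (ξ k)) := by ring
    rw [e1]
    refine norm_add₃_le.trans ?_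
    rw [norm_mul, show ‖(100 : ℂ)‖ = 100 by norm_num, pow_succ, pow_succ, ← ha, ← hp, norm_neg]
    have c1 : 1 * e ≤ a * p * e := by gcongr
    have c2 : 0 ≤ a * p * D := by positivity
    have e2 : a * 100 * ((1 - p * (1 / 2)) * (D / 10 ^ 5 + e)) =
        100 * (a * ((1 - p) * (D / 10 ^ 5 + e))) + 50 * (a * p * D) / 10 ^ 5 + 50 * (a * p * e) := by
      ring
    have e3 : p / 10 ^ 6 * (a * (2 * D + e)) = 2 * (a * p * D) / 10 ^ 6 + a * p * e / 10 ^ 6 := by
      ring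
    rw [e2]
    rw [e3] at b5
    linarith

/-- Covering of a small disc, in logarithmic coordinates. -/
lemma cover {a b l : ℂ} (h1 : 30 ≤ ‖l‖) (h2 : ‖l‖ ≤ 100)
    (h : ∀ ζ ∈ closedBall a (1 / 10 ^ 4),
      ‖F v (cexp ζ) * cexp (-(b + l * (ζ - a))) - 1‖ ≤ 2 / 10 ^ 4)
    {ξ : ℂ} (hξ : ξ ∈ closedBall b (1 / 10 ^ 4)) :
    ∃ ζ ∈ closedBall a (1 / 10 ^ 4), F v (cexp ζ) = cexp ξ := by
  have hF := differentiable_F hv
  have t1 : ‖cexp (ξ - b) - 1‖ ≤ 2 / 10 ^ 4 := by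
    have := mem_closedBall_iff_norm.1 hξ
    linarith [Complex.norm_exp_sub_one_le (x := ξ - b) (by linarith)]
  obtain ⟨ζ, hζ, h0⟩ := min_mod (g := fun ζ => F v (cexp ζ) * cexp (-b) - cexp (ξ - b)) (a := a)
    (r := 1 / 10 ^ 4) (C := 5 / 10 ^ 4) (by norm_num) (fun z _ => by fun_prop)
    (by
      have := h a (mem_closedBall_self (by norm_num))
      rw [sub_self, mul_zero, add_zero] at this
      have e : F v (cexp a) * cexp (-b) - cexp (ξ - b) =
          (F v (cexp a) * cexp (-b) - 1) - (cexp (ξ - b) - 1) := by ring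
      rw [e]
      exact (norm_sub_le _ _).trans_lt (by linarith))
    (fun z hz => by
      have a1 := h z (sphere_subset_closedBall hz)
      have a2 : ‖z - a‖ = 1 / 10 ^ 4 := mem_sphere_iff_norm.1 hz
      set t := l * (z - a) with ht
      have a3 : ‖t‖ ≤ 1 / 100 := by rw [ht, norm_mul, a2]; linarith
      have a4 : 30 / 10 ^ 4 ≤ ‖t‖ := by rw [ht, norm_mul, a2]; linarith
      have a5 := Complex.norm_exp_sub_one_sub_id_le (x := t) (by linarith)
      have a6 : ‖t‖ ^ 2 ≤ (1 / 100) ^ 2 := by gcongr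
      have a7 := Complex.norm_exp_sub_one_le (x := t) (by linarith)
      have a8 : ‖cexp t‖ ≤ 2 := by
        have := norm_sub_norm_le (cexp t) 1
        rw [norm_one] at this
        linarith
      have e : t = (F v (cexp z) * cexp (-b) - cexp (ξ - b)) + (cexp (ξ - b) - 1) +
          (-(cexp t * (F v (cexp z) * cexp (-(b + t)) - 1)) - (cexp t - 1 - t)) := by
        have : cexp (-b) = cexp t * cexp (-(b + t)) := by
          rw [← Complex.exp_add]; congr 1; ring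
        rw [this]; ring
      have a9 : ‖cexp t * (F v (cexp z) * cexp (-(b + t)) - 1)‖ ≤ 2 * (2 / 10 ^ 4) := by
        rw [norm_mul]; gcongr
      have a10 := norm_sub_le (-(cexp t * (F v (cexp z) * cexp (-(b + t)) - 1))) (cexp t - 1 - t)
      rw [norm_neg] at a10
      have a11 := norm_add₃_le (a := F v (cexp z) * cexp (-b) - cexp (ξ - b))
        (b := cexp (ξ - b) - 1)
        (c := -(cexp t * (F v (cexp z) * cexp (-(b + t)) - 1)) - (cexp t - 1 - t))
      rw [← e] at a11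
      linarith)
  refine ⟨ζ, hζ, ?_⟩
  have : F v (cexp ζ) * cexp (-b) = cexp ξ * cexp (-b) := by
    rw [← Complex.exp_add, ← sub_eq_add_neg]; exact sub_eq_zero.1 h0
  exact mul_right_cancel₀ (Complex.exp_ne_zero _) this

omit hv in
lemma ball_bounds {a ζ : ℂ} {r : ℝ} (h : ζ ∈ closedBall a r) :
    |ζ.re - a.re| ≤ r ∧ |ζ.im - a.im| ≤ r := by
  have := mem_closedBall_iff_norm.1 h
  exact ⟨(Complex.abs_re_le_norm (ζ - a)).trans this, (Complex.abs_im_le_norm (ζ - a)).trans this⟩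

/-- Pulling a small disc back through the expanding sector. -/
lemma pull (m : ℕ) : ∀ (b : ℂ), 19 * 100 ^ m ≤ b.re → |b.im| ≤ 3 →
    ∀ ξ ∈ closedBall b (1 / 10 ^ 4), ∃ ζ : ℕ → ℂ, ζ m = ξ ∧
      (∀ k ≤ m, ζ k ∈ closedBall (b / 100 ^ (m - k)) (1 / 10 ^ 4)) ∧
      ∀ k < m, F v (cexp (ζ k)) = cexp (ζ (k + 1)) := by
  induction m with
  | zero => exact fun b _ _ ξ hξ => ⟨fun _ => ξ, rfl, fun k hk => by simpa using hξ, by simp⟩
  | succ m ih =>
    intro b h1 h2 ξ hξ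
    have e1 : (b / 100).re = b.re / 100 := by simp
    have e2 : (b / 100).im = b.im / 100 := by simp
    have h3 := abs_le.1 h2
    have h4 : (1 : ℝ) ≤ 100 ^ m := one_le_pow₀ (by norm_num)
    rw [pow_succ] at h1
    obtain ⟨ζ1, hζ1, h0⟩ := cover hv (a := b / 100) (b := b) (l := 100) (by norm_num) (by norm_num)
      (fun ζ hζ => by
        obtain ⟨a1, a2⟩ := ball_bounds hζ
        rw [e1, abs_le] at a1
        rw [e2, abs_le] at a2
        have := F_delta hv (ζ := ζ) (abs_le.2 ⟨by linarith, by linarith⟩) (by linarith)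
        rw [show b + 100 * (ζ - b / 100) = 100 * ζ by ring]
        linarith [exp_neg_18 (s := ζ.re) (by linarith)]) hξ
    obtain ⟨ζ, a1, a2, a3⟩ := ih (b / 100) (by rw [e1]; linarith)
      (by rw [e2]; exact abs_le.2 ⟨by linarith, by linarith⟩) ζ1 hζ1
    refine ⟨fun k => if k ≤ m then ζ k else ξ, by simp, fun k hk => ?_, fun k hk => ?_⟩
    · by_cases hkm : k ≤ m
      · have := a2 k hkm
        rw [div_div, ← pow_succ', show m - k + 1 = m + 1 - k by omega] at this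
        simpa [hkm] using this
      · have : k = m + 1 := by omega
        subst this
        simpa using hξ
    · by_cases hkm : k < m
      · simp only [hkm.le, show k + 1 ≤ m from hkm, if_true]
        exact a3 k hkm
      · have : k = m := by omega
        subst this
        simp [a1, h0]

end

end Pool.Agent.MP_16212d_an

end MrgPart3

-- marker of a merged file
example : 731051 + 815507 = 731051 + 815507 := rfl
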