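import Pool.Agent.MP_16212d_an.EDyn

-- ======== part 0: formerly Pool.Agent.MP_16212d_an.Omega
section MrgPart0

/-! The function in the sector where the folding takes place. -/

open Complex Set Filter Topology

namespace Pool.Agent.MP_16212d_an

noncomputable def uu (ζ : ℂ) : ℂ := -cexp ζ ^ 30
noncomputable def ang (ζ : ℂ) : ℝ := 30 * ζ.im - 25 * Real.pi

lemma norm_uu (ζ : ℂ) : ‖uu ζ‖ = Real.exp (30 * ζ.re) := by
  rw [uu, norm_neg, norm_pow, Complex.norm_exp, ← Real.exp_nat_mul]; norm_num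

lemma uu_re (ζ : ℂ) : (uu ζ).re = Real.exp (30 * ζ.re) * Real.cos (ang ζ) := by
  rw [uu, neg_re, exp_pow_re]
  have : ((30 : ℕ) : ℝ) * ζ.im = (ang ζ + Real.pi) + ((12 : ℕ) : ℝ) * (2 * Real.pi) := by
    rw [ang]; push_cast; ring
  rw [this, Real.cos_add_nat_mul_two_pi, Real.cos_add_pi]; push_cast; ring

lemma uu_im (ζ : ℂ) : (uu ζ).im = Real.exp (30 * ζ.re) * Real.sin (ang ζ) := by
  rw [uu, neg_im, exp_pow_im]
  have : ((30 : ℕ) : ℝ) * ζ.im = (ang ζ + Real.pi) + ((12 : ℕ) : ℝ) * (2 * Real.pi) := by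
    rw [ang]; push_cast; ring
  rw [this, Real.sin_add_nat_mul_two_pi, Real.sin_add_pi]; push_cast; ring

lemma z6_re (ζ : ℂ) : (cexp ζ ^ 6).re = -(Real.exp (6 * ζ.re) * Real.cos (ang ζ / 5)) := by
  rw [exp_pow_re]
  have : ((6 : ℕ) : ℝ) * ζ.im = (ang ζ / 5 + Real.pi) + ((2 : ℕ) : ℝ) * (2 * Real.pi) := by
    rw [ang]; push_cast; ring
  rw [this, Real.cos_add_nat_mul_two_pi, Real.cos_add_pi]; push_cast; ring

lemma z6_im (ζ : ℂ) : (cexp ζ ^ 6).im = -(Real.exp (6 * ζ.re) * Real.sin (ang ζ / 5)) := by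
  rw [exp_pow_im]
  have : ((6 : ℕ) : ℝ) * ζ.im = (ang ζ / 5 + Real.pi) + ((2 : ℕ) : ℝ) * (2 * Real.pi) := by
    rw [ang]; push_cast; ring
  rw [this, Real.sin_add_nat_mul_two_pi, Real.sin_add_pi]; push_cast; ring

lemma La_le_of_lt {j i : ℕ} (h : j < i) : La j ≤ A i := by
  have h1 := La_le_A_succ j
  have h2 := A_mono (show j + 1 ≤ i from h)
  linarith [La_pos j]

lemma cc_mono {j i : ℕ} (h : j ≤ i) : cc j ≤ cc i := by
  rcases h.eq_or_lt with rfl | h
  · exact le_rfl
  · exact Real.exp_le_exp.2 (by linarith [La_le_of_lt h, La_ge i, A_pos i])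

lemma sum_dv (v : ℕ → ℂ) (i : ℕ) : ∑ j ∈ Finset.range (i + 1), dv v j = v i := by
  induction i with
  | zero => simp [dv]
  | succ i ih => rw [Finset.sum_range_succ, ih, dv]; ring

section
variable {i : ℕ} {ζ : ℂ} (hx : 20 * A i ≤ ζ.re) (hb0 : 0 ≤ ang ζ) (hb1 : ang ζ ≤ 13 * Real.pi / 12)

include hx in
lemma om_K : Real.exp (-33 * Real.exp ζ.re) * ((i + 1) * 20 * ‖uu ζ‖) ≤ mu i := by
  set r := Real.exp ζ.re
  have h1 : ζ.re ≤ r := exp_ge_of
  have h2 := A_ge i
  have h3 : (i : ℝ) + 1 ≤ Real.exp r := by linarith [succ_le_A i, exp_ge_of (x := r)]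
  have h4 : (20 : ℝ) ≤ Real.exp r := by linarith [exp_ge_of (x := r)]
  have h5 : ‖uu ζ‖ ≤ Real.exp (30 * r) := by rw [norm_uu]; exact Real.exp_le_exp.2 (by linarith)
  calc _ ≤ Real.exp (-33 * r) * (Real.exp r * Real.exp r * Real.exp (30 * r)) := by gcongr
    _ ≤ _ := by
      rw [← Real.exp_add, ← Real.exp_add, ← Real.exp_add]
      exact Real.exp_le_exp.2 (by linarith)

include hx hb0 hb1 in
lemma om_main : ‖cexp ζ ^ 100 * Phi (2 + 8 * cexp ζ)‖ ≤ Real.exp (-33 * Real.exp ζ.re) := by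
  set r := Real.exp ζ.re with hr
  have h1 : ζ.re ≤ r := exp_ge_of
  have h2 := A_ge i
  have hpi := Real.pi_pos
  rw [ang] at hb0 hb1
  have c1 : Real.cos ζ.im ≤ -(86 / 100) := by
    have a1 : Real.cos ζ.im ≤ Real.cos (Real.pi - Real.pi / 6) :=
      Real.cos_le_cos_of_nonneg_of_le_pi (by linarith) (by linarith) (by linarith)
    rw [Real.cos_pi_sub, Real.cos_pi_div_six] at a1
    have : (172 / 100 : ℝ) ≤ Real.sqrt 3 := Real.le_sqrt_of_sq_le (by norm_num)
    linarith
  have c2 := Real.neg_one_le_cos ζ.im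
  have c3 := Real.sin_sq_add_cos_sq ζ.im
  have e1 : (2 + 8 * cexp ζ).re = 2 + 8 * (r * Real.cos ζ.im) := by simp [Complex.exp_re, hr]
  have e2 : (2 + 8 * cexp ζ).im = 8 * (r * Real.sin ζ.im) := by simp [Complex.exp_im, hr]
  have hr0 : 100 ≤ r := by linarith
  have b1 := norm_Phi_le' (2 + 8 * cexp ζ) (by rw [e1]; nlinarith)
  rw [e1, e2] at b1
  have b2 : r ^ 100 ≤ Real.exp r ^ 100 := pow_le_pow_left₀ (by linarith) exp_ge_of _
  have b3 : (86 / 100 : ℝ) ^ 2 ≤ Real.cos ζ.im ^ 2 := by nlinarith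
  have b4 : (8 * (r * Real.sin ζ.im)) ^ 2 - (2 + 8 * (r * Real.cos ζ.im)) ^ 2 =
      -4 - 32 * (r * Real.cos ζ.im) - 64 * r ^ 2 * (2 * Real.cos ζ.im ^ 2 - 1) := by
    have : Real.sin ζ.im ^ 2 = 1 - Real.cos ζ.im ^ 2 := by linarith
    rw [mul_pow, mul_pow, this]; ring
  have b5 : r ^ 2 * (47 / 100) ≤ r ^ 2 * (2 * Real.cos ζ.im ^ 2 - 1) := by
    gcongr; linarith
  have b6 : -r ≤ r * Real.cos ζ.im := by nlinarith
  rw [norm_mul, norm_pow, Complex.norm_exp, ← hr]
  refine (mul_le_mul b2 b1 (norm_nonneg _) (by positivity)).trans ?_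
  rw [← Real.exp_nat_mul, ← Real.exp_add, b4]
  refine Real.exp_le_exp.2 ?_
  push_cast
  nlinarith

include hx hb0 hb1 in
lemma om_chi {j : ℕ} (hj : j ≤ i) : ‖chi j (cexp ζ) - 1‖ ≤ Real.exp (-33 * Real.exp ζ.re) := by
  have hpi := Real.pi_pos
  have e : chi j (cexp ζ) - 1 = -Phi ((RR j : ℂ) + cexp ζ ^ 6) := by
    rw [chi, Phi_eq ((RR j : ℂ) + cexp ζ ^ 6)]; ring
  rw [e, norm_neg]
  set s := Real.exp (6 * ζ.re) with hs
  set r := Real.exp ζ.re with hr
  have h1 : ζ.re ≤ r := exp_ge_of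
  have h2 := A_ge i
  have hsr : s = r ^ 6 := by rw [hs, hr, ← Real.exp_nat_mul]; norm_num
  have hR : 100 * RR j ≤ s := by
    have a1 : (100 : ℝ) ≤ Real.exp (20 * A i) := by linarith [exp_ge_of (x := 20 * A i)]
    calc 100 * RR j ≤ Real.exp (20 * A i) * RR i :=
          mul_le_mul a1 (RR_mono hj) (RR_pos j).le (by positivity)
      _ ≤ s := by
          rw [RR, ← Real.exp_add]; exact Real.exp_le_exp.2 (by linarith)
  have hR0 := RR_pos j
  set t := ang ζ / 5 with ht
  have c1 : 2 / 15 ≤ Real.cos (2 * t) := by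
    have a1 : Real.cos (Real.pi / 2 - Real.pi / 15) ≤ Real.cos (2 * t) :=
      Real.cos_le_cos_of_nonneg_of_le_pi (by linarith) (by linarith) (by linarith)
    rw [Real.cos_pi_div_two_sub] at a1
    have a2 := Real.mul_le_sin (x := Real.pi / 15) (by linarith) (by linarith)
    have a3 : 2 / Real.pi * (Real.pi / 15) = 2 / 15 := by field_simp
    linarith
  have c2 : 0 ≤ Real.cos t := Real.cos_nonneg_of_mem_Icc ⟨by linarith, by linarith⟩
  have c3 := Real.cos_two_mul t
  have c4 := Real.sin_sq_add_cos_sq t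
  have c5 := Real.cos_le_one t
  have c6 : 1 / 2 ≤ Real.cos t := by nlinarith
  have e1 : ((RR j : ℂ) + cexp ζ ^ 6).re = RR j - s * Real.cos t := by
    rw [add_re, ofReal_re, z6_re]; ring
  have e2 : ((RR j : ℂ) + cexp ζ ^ 6).im = -(s * Real.sin t) := by
    rw [add_im, ofReal_im, z6_im]; ring
  have b1 := norm_Phi_le' ((RR j : ℂ) + cexp ζ ^ 6) (by rw [e1]; nlinarith)
  rw [e1, e2] at b1
  refine b1.trans (Real.exp_le_exp.2 ?_)
  have b2 : (-(s * Real.sin t)) ^ 2 - (RR j - s * Real.cos t) ^ 2 =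
      -(s ^ 2 * Real.cos (2 * t)) + 2 * RR j * (s * Real.cos t) - RR j ^ 2 := by
    have : Real.sin t ^ 2 = 1 - Real.cos t ^ 2 := by linarith
    rw [neg_sq, mul_pow, this, c3]; ring
  have hs0 : 0 < s := Real.exp_pos _
  have b3 : s ^ 2 * (2 / 15) ≤ s ^ 2 * Real.cos (2 * t) := by gcongr
  have b4 : RR j * (s * Real.cos t) ≤ (s / 100) * (s * 1) := by gcongr; linarith
  have hr0 : 1000 ≤ r := by linarith
  have b5 : r ≤ s := by
    rw [hsr]
    simpa using pow_le_pow_right₀ (show (1 : ℝ) ≤ r by linarith) (show 1 ≤ 6 by norm_num)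
  rw [b2]
  nlinarith [sq_nonneg (RR j)]

lemma norm_GG_le' (j : ℕ) {u : ℂ} (h : u - qq j ≠ 0) :
    ‖GG j u‖ ≤ (cc j + Real.exp (-La j) * Real.exp u.re) / ‖u - qq j‖ := by
  rw [GG, E1_eq h, norm_mul, norm_div, Complex.norm_real, Real.norm_of_nonneg (cc_pos j).le,
    ← mul_div_assoc]
  gcongr
  have h1 := norm_sub_le (cexp (u - qq j)) 1
  rw [Complex.norm_exp, norm_one] at h1
  have h2 : cc j * Real.exp (u - qq j).re = Real.exp (-La j) * Real.exp u.re := by
    rw [cc, ← Real.exp_add, ← Real.exp_add, sub_re, qq_re]; congr 1; ring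
  have := cc_pos j
  nlinarith

include hx in
lemma om_lo {j : ℕ} (hj : j < i) :
    i * ‖GG j (uu ζ)‖ ≤ mu i * (cc i / ‖uu ζ‖ + Real.exp (uu ζ).re) / 10 := by
  have h2 := A_ge i
  have hu : Real.exp (600 * A i) ≤ ‖uu ζ‖ := by
    rw [norm_uu]; exact Real.exp_le_exp.2 (by linarith)
  have hu0 : 0 < ‖uu ζ‖ := (Real.exp_pos _).trans_le hu
  have hq : 2 * ‖qq j‖ ≤ ‖uu ζ‖ := by
    have a1 := norm_qq_le j
    have a2 := A_le_succ j
    have a3 := A_mono (show j + 1 ≤ i from hj)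
    have a4 : (16 : ℝ) ≤ Real.exp (A i) := by linarith [exp_ge_of (x := A i)]
    have a5 : 16 * Real.exp (600 * A j) ≤ Real.exp (A i) * Real.exp (A i) := by
      gcongr; linarith [A_pos j]
    rw [← Real.exp_add] at a5
    have a6 : Real.exp (A i + A i) ≤ Real.exp (600 * A i) := Real.exp_le_exp.2 (by linarith)
    linarith
  have h3 : ‖uu ζ‖ / 2 ≤ ‖uu ζ - qq j‖ := by linarith [norm_sub_norm_le (uu ζ) (qq j)]
  have h4 : uu ζ - qq j ≠ 0 := norm_pos_iff.1 (by linarith)
  have h5 := norm_GG_le' j h4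
  have h6 : Real.exp (-La j) ≤ 1 := Real.exp_le_one_iff.2 (by linarith [La_pos j])
  have hc := cc_pos j
  have h7 : ‖GG j (uu ζ)‖ ≤ (cc j + 1 * Real.exp (uu ζ).re) / (‖uu ζ‖ / 2) :=
    h5.trans (by gcongr)
  have h8 : 20 * (i : ℝ) ≤ Real.exp (A i) := by
    have := pow_le_exp' h2 (k := 1) (by norm_num)
    linarith [succ_le_A i]
  have h9 : 20 * i * cc j ≤ mu i * cc i := by
    calc _ ≤ Real.exp (A i) * Real.exp (A i) :=
          mul_le_mul h8 (Real.exp_le_exp.2 (La_le_of_lt hj)) hc.le (by positivity)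
      _ ≤ _ := by
          rw [mu, cc, ← Real.exp_add, ← Real.exp_add]
          exact Real.exp_le_exp.2 (by linarith [La_ge i])
  have h10 : 20 * (i : ℝ) ≤ mu i * ‖uu ζ‖ := by
    calc _ ≤ Real.exp (-A i) * Real.exp (600 * A i) := by
          rw [← Real.exp_add]; exact h8.trans (Real.exp_le_exp.2 (by linarith))
      _ ≤ _ := by rw [mu]; gcongr
  have h11 : 20 * (i : ℝ) * Real.exp (uu ζ).re ≤ mu i * ‖uu ζ‖ * Real.exp (uu ζ).re := by gcongr
  calc _ ≤ i * ((cc j + 1 * Real.exp (uu ζ).re) / (‖uu ζ‖ / 2)) := by gcongr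
    _ = (20 * i * cc j + 20 * i * Real.exp (uu ζ).re) / ‖uu ζ‖ / 10 := by field_simp; ring
    _ ≤ (mu i * cc i + mu i * ‖uu ζ‖ * Real.exp (uu ζ).re) / ‖uu ζ‖ / 10 := by gcongr
    _ = _ := by field_simp

include hx hb0 hb1 in
lemma om_hi {v : ℕ → ℂ} (hv : Bd v) (h1 : (uu ζ).im ≤ hp i + 1) (h2 : -TT i ≤ (uu ζ).re)
    {j : ℕ} (hj : i < j) :
    ‖term v j (cexp ζ)‖ ≤ (1 / 2) ^ j * (mu i * (cc i / ‖uu ζ‖ + Real.exp (uu ζ).re) / 10) := by
  have hpi := Real.pi_pos
  have hA := A_ge i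
  have hAj := A_mono hj.le
  set s := Real.exp (6 * ζ.re) with hs
  have hs0 : 0 < s := Real.exp_pos _
  have hu : ‖uu ζ‖ = s ^ 5 := by
    rw [norm_uu, hs, ← Real.exp_nat_mul]; congr 1; push_cast; ring
  have hz : ‖cexp ζ‖ ^ 6 = s := by
    rw [Complex.norm_exp, hs, ← Real.exp_nat_mul]; norm_num
  have hu1 : 1 ≤ ‖uu ζ‖ := by rw [norm_uu]; exact Real.one_le_exp (by linarith)
  have hbr := norm_br_le hv j (uu ζ)
  have hL : Real.exp (-La j) ≤ 1 := Real.exp_le_one_iff.2 (by linarith [La_pos j])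
  have hc := cc_le_half j
  have hcj := cc_big j
  have hci := cc_big i
  have hR := RR_big j
  have hR' := RR_ge j
  have hmu := mu_small i
  have hmu0 := mu_pos i
  set E := Real.exp (uu ζ).re with hE
  have hE0 : 0 < E := Real.exp_pos _
  set p := (1 / 2 : ℝ) ^ j with hp'
  have hp0 : 0 < p := by positivity
  have hterm : ‖term v j (cexp ζ)‖ = ‖chi j (cexp ζ)‖ * ‖dv v j + GG j (uu ζ)‖ := by
    rw [term, norm_mul, uu]
  have hmm : mu i * mu i ≤ mu i / 20 := by nlinarith
  have hmm' : mu i * mu i = Real.exp (-2 * A i) := by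
    rw [mu, ← Real.exp_add]; congr 1; ring
  rw [hterm]
  by_cases hsR : s ≤ RR j / 4
  · have a1 := norm_chi_small j (z := cexp ζ) (by rwa [hz])
    set k := Real.exp (-RR j ^ 2 / 2) with hk
    have hk0 : 0 < k := Real.exp_pos _
    have a2 : ‖uu ζ‖ ≤ Real.exp (5 * RR j) := by
      rw [hu, show 5 * RR j = ((5 : ℕ) : ℝ) * RR j by norm_num, Real.exp_nat_mul]
      exact pow_le_pow_left₀ hs0.le (by linarith [exp_ge_of (x := RR j)]) _
    have a3 : k * Real.exp (RR j) * ‖uu ζ‖ ≤ mu i / 20 := by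
      calc _ ≤ k * Real.exp (RR j) * Real.exp (5 * RR j) := by gcongr
        _ ≤ mu i * mu i := by
            rw [hmm', hk, ← Real.exp_add, ← Real.exp_add]
            refine Real.exp_le_exp.2 ?_
            nlinarith
        _ ≤ _ := hmm
    have a4 : k * (4 * cc j) * ‖uu ζ‖ ≤ p * (mu i / 20) := by
      calc _ ≤ k * (p * Real.exp (RR j)) * ‖uu ζ‖ := by gcongr
        _ = p * (k * Real.exp (RR j) * ‖uu ζ‖) := by ring
        _ ≤ _ := by gcongr
    have a5 : k * (2 * cc j) ≤ p * (mu i * (cc i / ‖uu ζ‖) / 10) := by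
      have : p * (mu i * (cc i / ‖uu ζ‖) / 10) = p * (mu i * cc i / 10) / ‖uu ζ‖ := by ring
      rw [this, le_div_iff₀ (by linarith)]
      have : p * (mu i / 20) ≤ p * (mu i * cc i / 10) :=
        mul_le_mul_of_nonneg_left (by nlinarith) hp0.le
      nlinarith
    have a6 : k ≤ p * (mu i / 10) := by
      have : k * 1 * 1 ≤ k * (4 * cc j) * ‖uu ζ‖ := by gcongr; linarith
      nlinarith
    calc _ ≤ k * (2 * cc j + 1 * E) := by
          gcongr
          exact hbr.trans (by gcongr)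
      _ = k * (2 * cc j) + k * E := by ring
      _ ≤ p * (mu i * (cc i / ‖uu ζ‖) / 10) + p * (mu i / 10) * E := by gcongr
      _ = _ := by ring
  · have hsR' := not_le.1 hsR
    have hB : TT i + hp i + 1 ≤ s := by
      have a1 := hp_bounds i
      have a2 := A_ge (i + 1)
      have a3 : cc i ≤ Real.exp (A (i + 1)) := Real.exp_le_exp.2 (La_le_of_lt (by omega))
      have a4 : 40 * A (i + 1) ≤ Real.exp (A (i + 1)) := by
        have := pow_le_exp' a2 (k := 1) (by norm_num)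
        linarith
      have a5 : cc i * (40 * A (i + 1)) ≤ Real.exp (A (i + 1)) * Real.exp (A (i + 1)) := by gcongr
      have a6 : Real.exp (A (i + 1)) * Real.exp (A (i + 1)) ≤ RR j := by
        rw [← Real.exp_add]
        refine le_trans ?_ (RR_mono (show i + 1 ≤ j from hj))
        exact Real.exp_le_exp.2 (by linarith)
      have a7 : 1 ≤ cc i * A (i + 1) := by nlinarith
      rw [TT]
      nlinarith
    have hs1 : 100 ≤ s := by linarith
    have hT : 0 ≤ TT i := by rw [TT]; have := A_pos (i + 1); positivity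
    have hhp : 0 ≤ hp i := by rw [hp]; positivity
    have s2 : 100 * s ≤ s ^ 2 := by nlinarith
    have s5 : s ^ 2 ≤ s ^ 5 := pow_le_pow_right₀ (by linarith) (by norm_num)
    have ere : (uu ζ).re = s ^ 5 * Real.cos (ang ζ) := by rw [uu_re, ← norm_uu, hu]
    have eim : (uu ζ).im = s ^ 5 * Real.sin (ang ζ) := by rw [uu_im, ← norm_uu, hu]
    have hβ : ang ζ ≤ Real.pi / 2 := by
      by_contra hc'
      have hc'' := not_le.1 hc'
      have c1 : Real.cos (ang ζ) ≤ 0 := Real.cos_nonpos_of_pi_div_two_le_of_le hc''.le (by linarith)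
      have key : 1 / 2 ≤ Real.sin (ang ζ) - Real.cos (ang ζ) ∨ 1 / 2 ≤ -Real.cos (ang ζ) := by
        by_cases hc3 : ang ζ ≤ Real.pi
        · left
          have c2 := Real.sin_nonneg_of_nonneg_of_le_pi hb0 hc3
          have c3 := Real.sin_sq_add_cos_sq (ang ζ)
          nlinarith
        · right
          have c2 := Real.one_sub_sq_div_two_le_cos (x := ang ζ - Real.pi)
          rw [Real.cos_sub_pi] at c2
          have c3 := not_le.1 hc3
          have c4 := Real.pi_lt_four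
          nlinarith
      have hs5 : 0 < s ^ 5 := by positivity
      rcases key with key | key <;> nlinarith
    have b1 := Real.mul_le_sin hb0 hβ
    have b2 : s * ang ζ ≤ 2 := by
      have c1 : ang ζ / 2 ≤ 2 / Real.pi * ang ζ := by
        rw [div_mul_eq_mul_div, div_le_div_iff₀ (by norm_num) hpi]
        nlinarith [Real.pi_lt_four]
      have c2 : s ^ 2 * (ang ζ / 2) ≤ s ^ 5 * Real.sin (ang ζ) :=
        mul_le_mul s5 (c1.trans b1) (by linarith) (by positivity)
      have c3 : s * (s * ang ζ) ≤ s * 2 := by nlinarith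
      exact le_of_mul_le_mul_left c3 hs0
    have b3 : ang ζ ≤ 1 / 50 := by nlinarith
    have b4 : 1 / 2 ≤ Real.cos (ang ζ) := by
      have := Real.one_sub_sq_div_two_le_cos (x := ang ζ)
      nlinarith
    have b5 : 2 * RR j ≤ (uu ζ).re := by
      rw [ere]
      have : s ^ 5 * (1 / 2) ≤ s ^ 5 * Real.cos (ang ζ) := by gcongr
      linarith
    have b6 : ‖chi j (cexp ζ)‖ ≤ Real.exp 1 := by
      refine (norm_chi_le j _).trans (Real.exp_le_exp.2 ?_)
      rw [z6_im, ← hs, neg_sq, ← sq_abs, abs_mul, abs_of_pos hs0]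
      have c1 := Real.abs_sin_le_abs (x := ang ζ / 5)
      rw [abs_of_nonneg (show 0 ≤ ang ζ / 5 by linarith)] at c1
      have c2 : s * |Real.sin (ang ζ / 5)| ≤ s * (ang ζ / 5) := by gcongr
      exact pow_le_one₀ (by positivity) (by linarith)
    have b7 : Real.exp 1 * Real.exp (RR j) ≤ mu i / 20 * E := by
      calc _ ≤ mu i * mu i * E := by
            rw [hmm', hE, ← Real.exp_add, ← Real.exp_add]
            exact Real.exp_le_exp.2 (by nlinarith)
        _ ≤ _ := by gcongr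
    have b8 : Real.exp 1 * Real.exp (-La j) ≤ p * (mu i / 20) := by
      have c1 := two_pow_le_A j
      have c2 : Real.exp (-A j) ≤ p := by
        rw [hp', one_div, inv_pow, Real.exp_neg]
        exact inv_anti₀ (by positivity) c1
      calc _ ≤ Real.exp (-A j) * (mu i * mu i) := by
            rw [hmm', ← Real.exp_add, ← Real.exp_add]
            exact Real.exp_le_exp.2 (by linarith [La_ge j])
        _ ≤ _ := by gcongr
    have b9 : 0 ≤ p * (mu i * (cc i / ‖uu ζ‖) / 10) := by positivity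
    calc _ ≤ Real.exp 1 * (p * Real.exp (RR j) + Real.exp (-La j) * E) := by
          gcongr
          exact hbr.trans (by linarith)
      _ = p * (Real.exp 1 * Real.exp (RR j)) + Real.exp 1 * Real.exp (-La j) * E := by ring
      _ ≤ p * (mu i / 20 * E) + p * (mu i / 20) * E := by gcongr
      _ ≤ _ := by nlinarith

include hx hb0 hb1 in
theorem omega_est {v : ℕ → ℂ} (hv : Bd v) (h1 : (uu ζ).im ≤ hp i + 1) (h2 : -TT i ≤ (uu ζ).re) :
    ‖F v (cexp ζ) - (v i + GG i (uu ζ) + (1 / 100) * cexp (uu ζ))‖ ≤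
      mu i * (cc i / ‖uu ζ‖ + Real.exp (uu ζ).re) := by
  set W := mu i * (cc i / ‖uu ζ‖ + Real.exp (uu ζ).re) with hW
  have hs := (summable_term hv (cexp ζ)).sum_add_tsum_nat_add (i + 1)
  have e : F v (cexp ζ) - (v i + GG i (uu ζ) + (1 / 100) * cexp (uu ζ)) =
      cexp ζ ^ 100 * Phi (2 + 8 * cexp ζ) +
      (∑ j ∈ Finset.range (i + 1), (chi j (cexp ζ) - 1) * (dv v j + GG j (uu ζ))) +
      (∑ j ∈ Finset.range i, GG j (uu ζ)) + ∑' j, term v (j + (i + 1)) (cexp ζ) := by
    have e1 : ∑ j ∈ Finset.range (i + 1), term v j (cexp ζ) =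
        ∑ j ∈ Finset.range (i + 1), (chi j (cexp ζ) - 1) * (dv v j + GG j (uu ζ)) +
          (v i + (∑ j ∈ Finset.range i, GG j (uu ζ) + GG i (uu ζ))) := by
      rw [← Finset.sum_range_succ, ← sum_dv v i, ← Finset.sum_add_distrib,
        ← Finset.sum_add_distrib]
      refine Finset.sum_congr rfl fun j _ => ?_
      rw [term, uu]; ring
    rw [F, ← hs, e1, uu]; ring
  rw [e]
  have hK := om_K hx
  set k := Real.exp (-33 * Real.exp ζ.re) with hk
  have hk0 : 0 < k := Real.exp_pos _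
  have hu1 : 1 ≤ ‖uu ζ‖ := by rw [norm_uu]; exact Real.one_le_exp (by linarith [A_pos i])
  have hc := cc_big i
  have hmu := mu_pos i
  set E := Real.exp (uu ζ).re with hE
  have hE0 : 0 < E := Real.exp_pos _
  have hi0 : (0 : ℝ) ≤ i := Nat.cast_nonneg i
  have k1 : k * (i + 1) * (2 * cc i) ≤ mu i * (cc i / ‖uu ζ‖) / 10 := by
    have : mu i * (cc i / ‖uu ζ‖) / 10 = mu i * (cc i / 10) / ‖uu ζ‖ := by ring
    rw [this, le_div_iff₀ (by linarith)]
    calc _ = k * ((i + 1) * 20 * ‖uu ζ‖) * (cc i / 10) := by ring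
      _ ≤ _ := by gcongr
  have k2 : k * (i + 1) ≤ mu i / 10 := by
    have : k * ((i + 1) * 20 * 1) ≤ k * ((i + 1) * 20 * ‖uu ζ‖) := by gcongr
    nlinarith
  have t1 : ‖cexp ζ ^ 100 * Phi (2 + 8 * cexp ζ)‖ ≤ W / 10 := by
    refine (om_main hx hb0 hb1).trans ?_
    have : k * 1 * 1 ≤ k * (i + 1) * (2 * cc i) := by gcongr <;> linarith
    have : 0 ≤ mu i * E := by positivity
    rw [hW]; nlinarith
  have t2 : ‖∑ j ∈ Finset.range (i + 1), (chi j (cexp ζ) - 1) * (dv v j + GG j (uu ζ))‖ ≤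
      W / 10 := by
    refine (norm_sum_le_of_le (n := fun _ => k * (2 * cc i + E)) _ fun j hj => ?_).trans ?_
    · have hj' : j ≤ i := Nat.lt_succ_iff.1 (Finset.mem_range.1 hj)
      have hL : Real.exp (-La j) ≤ 1 := Real.exp_le_one_iff.2 (by linarith [La_pos j])
      have a1 := norm_br_le hv j (uu ζ)
      have a2 := cc_mono hj'
      have a3 : Real.exp (-La j) * E ≤ 1 * E := by gcongr
      rw [norm_mul]
      exact mul_le_mul (om_chi hx hb0 hb1 hj') (by linarith) (norm_nonneg _) hk0.le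
    · rw [Finset.sum_const, Finset.card_range, nsmul_eq_mul]
      push_cast
      have : k * (i + 1) * E ≤ mu i / 10 * E := by gcongr
      rw [hW]; nlinarith
  have t3 : ‖∑ j ∈ Finset.range i, GG j (uu ζ)‖ ≤ W / 10 := by
    rcases Nat.eq_zero_or_pos i with h0 | h0
    · rw [h0, Finset.sum_range_zero, norm_zero]; positivity
    have hi1 : (0 : ℝ) < i := by exact_mod_cast h0
    refine (norm_sum_le_of_le (n := fun _ => W / 10 / i) _ fun j hj => ?_).trans ?_
    · rw [le_div_iff₀ hi1, mul_comm]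
      exact om_lo hx (Finset.mem_range.1 hj)
    · rw [Finset.sum_const, Finset.card_range, nsmul_eq_mul]
      exact le_of_eq (by field_simp)
  have t4 : ‖∑' j, term v (j + (i + 1)) (cexp ζ)‖ ≤ 2 * (W / 10) := by
    refine norm_tsum_half fun j => (om_hi hx hb0 hb1 hv h1 h2 (by omega)).trans ?_
    have : 0 ≤ W / 10 := by positivity
    gcongr (?_ * _)
    exact pow_le_pow_of_le_one (by norm_num) (by norm_num) (by omega)
  have hW0 : 0 ≤ W := by positivity
  refine (norm_add_le _ _).trans ?_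
  have := norm_add₃_le (a := cexp ζ ^ 100 * Phi (2 + 8 * cexp ζ))
    (b := ∑ j ∈ Finset.range (i + 1), (chi j (cexp ζ) - 1) * (dv v j + GG j (uu ζ)))
    (c := ∑ j ∈ Finset.range i, GG j (uu ζ))
  linarith

end

end Pool.Agent.MP_16212d_an

end MrgPart0

-- ======== part 1: formerly Pool.Agent.MP_16212d_an.Tube
section MrgPart1

/-! Inequalities for the model map in the plane of the variable u. -/

open Complex Set Filter Topology

namespace Pool.Agent.MP_16212d_an

def Ap (i : ℕ) (v u w : ℂ) : Prop :=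
  ‖w - (v + GG i u + (1 / 100) * cexp u)‖ ≤ mu i * (cc i / ‖u‖ + Real.exp u.re)

noncomputable def DD (i : ℕ) (u : ℂ) : ℂ := -(cc i : ℂ) / (u - qq i)

noncomputable def sig (u : ℂ) : ℝ := Real.pi / 2 + max 0 (-u.re) / 4

lemma exp_le_pow (n : ℕ) : Real.exp n ≤ 3 ^ n := by
  rw [← Real.exp_one_pow]
  exact pow_le_pow_left₀ (Real.exp_pos _).le (by linarith [Real.exp_one_lt_d9]) _

lemma pow_le_exp_nat (n : ℕ) : (27 / 10 : ℝ) ^ n ≤ Real.exp n := by
  rw [← Real.exp_one_pow]
  exact pow_le_pow_left₀ (by norm_num) (by linarith [Real.exp_one_gt_d9]) _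

lemma exp21 : Real.exp 21 ≤ 10 ^ 11 := by
  have := exp_le_pow 21
  push_cast at this
  exact this.trans (by norm_num)

lemma exp25 : Real.exp 25 ≤ 10 ^ 12 := by
  have := exp_le_pow 25
  push_cast at this
  exact this.trans (by norm_num)

lemma norm_DD (i : ℕ) (u : ℂ) : ‖DD i u‖ = cc i / ‖u - qq i‖ := by
  rw [DD, norm_div, norm_neg, Complex.norm_real, Real.norm_of_nonneg (cc_pos i).le]

lemma DD_re (i : ℕ) (u : ℂ) : (DD i u).re = cc i * (-(u - qq i).re) / ‖u - qq i‖ ^ 2 := by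
  rw [DD, div_re, Complex.normSq_eq_norm_sq]; simp; ring

lemma DD_im (i : ℕ) (u : ℂ) : (DD i u).im = cc i * (u - qq i).im / ‖u - qq i‖ ^ 2 := by
  rw [DD, div_im, Complex.normSq_eq_norm_sq]; simp; ring

lemma norm_eps (u : ℂ) : ‖(1 / 100 : ℂ) * cexp u‖ = Real.exp u.re / 100 := by
  rw [norm_mul, Complex.norm_exp, show ‖(1 / 100 : ℂ)‖ = 1 / 100 by norm_num]; ring

lemma eps_re (u : ℂ) {t : ℝ} (ht : cexp ((t : ℂ) * I) = 1) :
    ((1 / 100 : ℂ) * cexp u).re = Real.exp u.re / 100 * Real.cos (u.im - t) := by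
  have : cexp u = cexp (u - t * I) := by rw [Complex.exp_sub, ht, div_one]
  rw [this, show (1 / 100 : ℂ) = ((1 / 100 : ℝ) : ℂ) by norm_num, re_ofReal_mul, Complex.exp_re]
  simp; ring

lemma eps_im (u : ℂ) {t : ℝ} (ht : cexp ((t : ℂ) * I) = 1) :
    ((1 / 100 : ℂ) * cexp u).im = Real.exp u.re / 100 * Real.sin (u.im - t) := by
  have : cexp u = cexp (u - t * I) := by rw [Complex.exp_sub, ht, div_one]
  rw [this, show (1 / 100 : ℂ) = ((1 / 100 : ℝ) : ℂ) by norm_num, im_ofReal_mul, Complex.exp_im]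
  simp; ring

lemma exp_neg_La_le (i : ℕ) : Real.exp (-La i) ≤ mu i :=
  Real.exp_le_exp.2 (by linarith [La_ge i, A_pos i])

lemma Ap.base {i : ℕ} {v u w : ℂ} (h : Ap i v u w) (h1 : 1 ≤ ‖u - qq i‖) :
    ‖w - v - DD i u - (1 / 100) * cexp u‖ ≤ mu i * (cc i / ‖u‖) + 2 * mu i * Real.exp u.re := by
  have h0 : u - qq i ≠ 0 := norm_pos_iff.1 (by linarith)
  have e : w - v - DD i u - (1 / 100) * cexp u = (w - (v + GG i u + (1 / 100) * cexp u)) +
      (cc i : ℂ) * cexp (u - qq i) / (u - qq i) := by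
    rw [GG, DD, E1_eq h0]; field_simp; ring
  have h2 : ‖(cc i : ℂ) * cexp (u - qq i) / (u - qq i)‖ ≤ mu i * Real.exp u.re := by
    rw [norm_div, norm_mul, Complex.norm_real, Real.norm_of_nonneg (cc_pos i).le, Complex.norm_exp]
    have h2 : cc i * Real.exp (u - qq i).re = Real.exp (-La i) * Real.exp u.re := by
      rw [cc, ← Real.exp_add, ← Real.exp_add, sub_re, qq_re]; congr 1; ring
    rw [h2]
    refine (div_le_self (by positivity) h1).trans ?_
    gcongr
    exact exp_neg_La_le i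
  rw [e]
  refine (norm_add_le _ _).trans ?_
  rw [Ap] at h
  linarith

lemma cone_perturb {d D : ℂ} (h : ‖d - D‖ ≤ ‖D‖ / 100) :
    (7 / 10 * ‖D‖ ≤ D.re → 6 / 10 * ‖d‖ ≤ d.re) ∧ (12 / 100 * ‖D‖ ≤ D.im → ‖d‖ / 10 ≤ d.im) ∧
      (D.im ≤ -(12 / 100 * ‖D‖) → d.im ≤ -(‖d‖ / 10)) := by
  have h1 := abs_le.1 ((Complex.abs_re_le_norm (d - D)).trans h)
  have h2 := abs_le.1 ((Complex.abs_im_le_norm (d - D)).trans h)
  have h3 := norm_sub_norm_le d D
  have h4 := norm_nonneg D
  rw [sub_re] at h1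
  rw [sub_im] at h2
  refine ⟨fun a => ?_, fun a => ?_, fun a => ?_⟩ <;> linarith

lemma abs_re_sub_qq (i : ℕ) (u : ℂ) : (u - qq i).re = u.re - 2 * La i := by rw [sub_re, qq_re]
lemma abs_im_sub_qq (i : ℕ) (u : ℂ) : (u - qq i).im = u.im - hh i := by rw [sub_im, qq_im]

/-- The far left part of the main channel. -/
lemma Ap.left {i : ℕ} {v u w : ℂ} (h : Ap i v u w) (h1 : u.re ≤ -(2 * La i))
    (h2 : |u.im - hh i| ≤ sig u) :
    6 / 10 * ‖w - v‖ ≤ (w - v).re ∧ (u.im - hh i = sig u → ‖w - v‖ / 10 ≤ (w - v).im) ∧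
      (u.im - hh i = -sig u → (w - v).im ≤ -(‖w - v‖ / 10)) := by
  have hL := La_big i
  have hpi := Real.pi_lt_four
  have hpi' := Real.pi_pos
  have hs : sig u = Real.pi / 2 + -u.re / 4 := by rw [sig, max_eq_right (by linarith)]
  set n := ‖u - qq i‖ with hn
  have n1 : -(u - qq i).re ≤ n := by
    have := Complex.abs_re_le_norm (u - qq i)
    linarith [neg_abs_le (u - qq i).re]
  have e1 := abs_re_sub_qq i u
  have e2 := abs_im_sub_qq i u
  have n2 : n ≤ 104 / 100 * (2 * La i - u.re) := by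
    refine abs_le_of_sq_le_sq' ?_ (by linarith) |>.2
    rw [hn, ← Complex.normSq_eq_norm_sq, Complex.normSq_apply, e1, e2]
    have a1 : |u.im - hh i| ≤ 26 / 100 * (2 * La i - u.re) := by linarith
    have a2 : (u.im - hh i) ^ 2 ≤ (26 / 100 * (2 * La i - u.re)) ^ 2 := by
      rw [← sq_abs]; gcongr
    nlinarith [sq_nonneg (2 * La i - u.re)]
  have n0 : 0 < n := by linarith
  have hb := h.base (by linarith)
  have hc := cc_big i
  have hmu := mu_small i
  have hmu0 := mu_pos i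
  have u1 : -u.re ≤ ‖u‖ := by
    have := Complex.abs_re_le_norm u
    linarith [neg_abs_le u.re]
  have b1 : cc i / ‖u‖ ≤ 3 * (cc i / n) := by
    rw [← mul_div_assoc, div_le_div_iff₀ (by linarith) n0]
    have : n ≤ 3 * ‖u‖ := by linarith
    nlinarith
  have b2 : Real.exp u.re ≤ (cc i / n) / 1000 := by
    have a1 : -u.re ≤ Real.exp (-u.re) := exp_ge_of
    have a2 : Real.exp u.re * Real.exp (-u.re) = 1 := by rw [← Real.exp_add]; simp
    have a3 := Real.exp_pos u.re
    rw [le_div_iff₀ (by norm_num), le_div_iff₀ n0]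
    have a4 : Real.exp u.re * n ≤ Real.exp u.re * (3 * Real.exp (-u.re)) := by gcongr; linarith
    nlinarith
  have hD0 : 0 < cc i / n := by positivity
  have b3 : ‖w - v - DD i u‖ ≤ ‖DD i u‖ / 100 := by
    rw [norm_DD, ← hn]
    have a1 := norm_add_le (w - v - DD i u - (1 / 100) * cexp u) ((1 / 100) * cexp u)
    rw [sub_add_cancel, norm_eps] at a1
    have a2 : mu i * (cc i / ‖u‖) ≤ 1 / 10 ^ 20 * (3 * (cc i / n)) := by gcongr
    have a3 : mu i * Real.exp u.re ≤ 1 / 10 ^ 20 * ((cc i / n) / 1000) := by gcongr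
    linarith
  obtain ⟨p1, p2, p3⟩ := cone_perturb b3
  have key : ∀ k t : ℝ, k * n ≤ t → k * (cc i / n) ≤ cc i * t / n ^ 2 := fun k t hk => by
    rw [le_div_iff₀ (by positivity)]
    calc k * (cc i / n) * n ^ 2 = cc i * (k * n) := by field_simp
      _ ≤ _ := by gcongr
  refine ⟨p1 ?_, fun hy => p2 ?_, fun hy => p3 ?_⟩
  · rw [norm_DD, DD_re, ← hn]
    exact key _ _ (by linarith)
  · rw [norm_DD, DD_im, ← hn]
    exact key _ _ (by linarith)
  · rw [norm_DD, DD_im, ← hn]
    have := key (12 / 100) (-(u - qq i).im) (by linarith)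
    rw [mul_neg, neg_div] at this
    linarith

lemma hh_big (i : ℕ) : 10 ^ 20 ≤ hh i := by
  linarith [(hh_bounds i).1, exp_ge_of (x := 600 * A i), A_ge i]

lemma exp600_le (i : ℕ) : 10 ^ 20 * Real.exp (600 * A i) ≤ Real.exp (La i - 40) := by
  have h1 : (10 : ℝ) ^ 20 ≤ Real.exp (A i) := (A_ge i).trans exp_ge_of
  calc _ ≤ Real.exp (A i) * Real.exp (600 * A i) := by gcongr
    _ ≤ _ := by
      rw [← Real.exp_add]; exact Real.exp_le_exp.2 (by linarith [La_ge i, A_ge i])

lemma La_le_exp600 (i : ℕ) : La i ≤ Real.exp (600 * A i) := by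
  have h3 := La_le_exp i
  have h4 : Real.exp (A i) ≤ Real.exp (600 * A i) := Real.exp_le_exp.2 (by linarith [A_pos i])
  have h5 := La_big i
  nlinarith

/-- The far right part of a tube: the exponential term dominates. -/
lemma Ap.right {i : ℕ} {v u w : ℂ} (h : Ap i v u w) (hv : ‖v‖ ≤ Real.exp 21)
    (h1 : La i + 10 ≤ u.re) :
    ‖w - (1 / 100) * cexp u‖ ≤ Real.exp u.re / 5000 ∧ 10 ^ 20 ≤ Real.exp u.re := by
  have hL := La_big i
  have hc := cc_big i
  have hmu := mu_small i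
  have hmu0 := mu_pos i
  have h21 := exp21
  have hE : 20000 * cc i ≤ Real.exp u.re := by
    have a1 := pow_le_exp_nat 10
    calc 20000 * cc i ≤ Real.exp ((10 : ℕ) : ℝ) * cc i := by
          gcongr; exact le_trans (by norm_num) a1
      _ ≤ _ := by
          rw [cc, ← Real.exp_add]; exact Real.exp_le_exp.2 (by push_cast; linarith)
  have hG := norm_GG_le i u
  have a1 : Real.exp (-La i) * Real.exp u.re ≤ 1 / 10 ^ 20 * Real.exp u.re := by
    gcongr; exact (exp_neg_La_le i).trans hmu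
  have a2 : cc i / ‖u‖ ≤ cc i :=
    div_le_self (by linarith) (by linarith [Complex.re_le_norm u])
  have a3 : mu i * (cc i / ‖u‖ + Real.exp u.re) ≤ 1 / 10 ^ 20 * (cc i + Real.exp u.re) := by
    gcongr
  have e : w - (1 / 100) * cexp u = (w - (v + GG i u + (1 / 100) * cexp u)) + v + GG i u := by ring
  rw [e]
  rw [Ap] at h
  exact ⟨norm_add₃_le.trans (by linarith), by linarith⟩

lemma kappa_big (i : ℕ) : 10 ^ 40 ≤ cc i / La i ^ 2 := by
  have h1 := pow_le_exp' (La_big i) (k := 3) (by norm_num)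
  have h2 := La_big i
  rw [le_div_iff₀ (by positivity), cc]
  have : 10 ^ 20 * La i ^ 2 ≤ La i * La i ^ 2 := by gcongr
  nlinarith

lemma sig_ge (u : ℂ) : Real.pi / 2 ≤ sig u := by
  have := le_max_left 0 (-u.re)
  rw [sig]; linarith

/-- The middle part of the main channel. -/
lemma Ap.mid {i : ℕ} {v u w : ℂ} (h : Ap i v u w) (hv : ‖v‖ ≤ Real.exp 21) (hu : 1 ≤ ‖u‖)
    (h1 : -(2 * La i) ≤ u.re) (h1' : u.re ≤ La i + 10) (h2 : |u.im - hh i| ≤ sig u) :
    10 ^ 12 ≤ w.re ∧ ‖w‖ ≤ 1000 * cc i ∧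
      (|u.im - hh i| = sig u → cc i / La i ^ 2 / 20 ≤ |w.im|) := by
  have hL := La_big i
  have hpi := Real.pi_lt_four
  have hpi' := Real.pi_gt_three
  have hc := cc_big i
  have hmu := mu_small i
  have hmu0 := mu_pos i
  have h21 := exp21
  have hk := kappa_big i
  set κ := cc i / La i ^ 2 with hκ
  have hs : sig u ≤ La i := by
    have : max 0 (-u.re) ≤ 2 * La i := max_le (by linarith) (by linarith)
    rw [sig]; linarith
  have hs' := sig_ge u
  set n := ‖u - qq i‖ with hn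
  have e1 := abs_re_sub_qq i u
  have e2 := abs_im_sub_qq i u
  have n1 : -(u - qq i).re ≤ n := by
    have := Complex.abs_re_le_norm (u - qq i)
    linarith [neg_abs_le (u - qq i).re]
  have n2 : n ≤ 5 * La i := by
    have := Complex.norm_le_abs_re_add_abs_im (u - qq i)
    rw [e2, abs_of_nonpos (by linarith)] at this
    linarith
  have n0 : 0 < n := by linarith
  have hb := h.base (by linarith)
  have hE : Real.exp u.re ≤ 60000 * cc i := by
    have a1 := exp_le_pow 10
    calc _ ≤ Real.exp ((10 : ℕ) : ℝ) * cc i := by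
          rw [cc, ← Real.exp_add]; exact Real.exp_le_exp.2 (by push_cast; linarith)
      _ ≤ _ := by gcongr; exact a1.trans (by norm_num)
  have a2 : cc i / ‖u‖ ≤ cc i := div_le_self (by linarith) hu
  have a3 : mu i * cc i ≤ κ / 10 ^ 10 := by
    have b1 := La_le_exp i
    have b2 : mu i * Real.exp (A i) = 1 := by rw [mu, ← Real.exp_add]; simp
    have b3 : mu i * (10 ^ 10 * La i ^ 2) ≤ 1 := by
      rw [← b2]; gcongr
    rw [hκ, div_div, le_div_iff₀ (by positivity)]
    nlinarith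
  have a4 : mu i * (cc i / ‖u‖) ≤ mu i * cc i := by gcongr
  have a5 : mu i * Real.exp u.re ≤ mu i * (60000 * cc i) := by gcongr
  have err : ‖w - v - DD i u - (1 / 100) * cexp u‖ ≤ κ / 1000 := by linarith
  have r1 := abs_le.1 ((Complex.abs_re_le_norm _).trans err)
  have r2 := abs_le.1 ((Complex.abs_im_le_norm _).trans err)
  have r3 := abs_le.1 ((Complex.abs_re_le_norm _).trans hv)
  have r4 := abs_le.1 ((Complex.abs_im_le_norm _).trans hv)
  simp only [sub_re, sub_im] at r1 r2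
  have key : ∀ t : ℝ, 3 / 2 ≤ t → κ * (6 / 100) ≤ cc i * t / n ^ 2 := fun t ht => by
    rw [hκ, le_div_iff₀ (by positivity)]
    calc _ ≤ cc i / La i ^ 2 * (6 / 100) * (5 * La i) ^ 2 := by gcongr
      _ = cc i * (3 / 2) := by field_simp; ring
      _ ≤ _ := by gcongr
  have hE0 := Real.exp_pos u.re
  have small : ∀ t : ℝ, -1 ≤ t → (0 ≤ u.re → 0 ≤ t) → -1 ≤ Real.exp u.re / 100 * t := by
    intro t ht ht'
    by_cases hu0 : 0 ≤ u.re
    · have := ht' hu0
      have : 0 ≤ Real.exp u.re / 100 * t := by positivity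
      linarith
    · have : Real.exp u.re ≤ 1 := Real.exp_le_one_iff.2 (not_le.1 hu0).le
      nlinarith
  have hs0 : 0 ≤ u.re → sig u = Real.pi / 2 := fun hu0 => by
    rw [sig, max_eq_left (by linarith)]; ring
  refine ⟨?_, ?_, fun hy => ?_⟩
  · have b1 := key (-(u - qq i).re) (by linarith)
    rw [← DD_re] at b1
    have b2 := small (Real.cos (u.im - hh i)) (Real.neg_one_le_cos _) fun hu0 =>
      Real.cos_nonneg_of_mem_Icc (by rw [hs0 hu0] at h2; exact abs_le.1 h2)
    rw [← eps_re u (exp_hh i)] at b2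
    linarith
  · have e : w = (w - v - DD i u - (1 / 100) * cexp u) + v + DD i u + (1 / 100) * cexp u := by ring
    have b1 : ‖DD i u‖ ≤ cc i := by
      rw [norm_DD]; exact div_le_self (by linarith) (by linarith)
    have b2 : κ ≤ cc i := div_le_self (by linarith) (by nlinarith)
    rw [e]
    refine (norm_add_le _ _).trans ?_
    have := norm_add₃_le (a := w - v - DD i u - (1 / 100) * cexp u) (b := v) (c := DD i u)
    rw [norm_eps]
    linarith
  · rcases (abs_eq (by linarith)).1 hy with hy | hy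
    · have b1 := key ((u - qq i).im) (by linarith)
      rw [← DD_im] at b1
      have b2 := small (Real.sin (u.im - hh i)) (Real.neg_one_le_sin _) fun hu0 => by
        rw [hy, hs0 hu0]; simp
      rw [← eps_im u (exp_hh i)] at b2
      linarith [le_abs_self w.im]
    · have b1 := key (-(u - qq i).im) (by linarith)
      rw [mul_neg, neg_div, ← DD_im] at b1
      have b2 := small (-Real.sin (u.im - hh i)) (by linarith [Real.sin_le_one (u.im - hh i)])
        fun hu0 => by rw [hy, hs0 hu0]; simp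
      rw [mul_neg, ← eps_im u (exp_hh i)] at b2
      linarith [neg_abs_le w.im]

lemma Ap.main_large {i : ℕ} {v u w : ℂ} (h : Ap i v u w) (hv : ‖v‖ ≤ Real.exp 21) (hu : 1 ≤ ‖u‖)
    (h1 : -(2 * La i) ≤ u.re) (h2 : |u.im - hh i| ≤ sig u) : Real.exp 25 ≤ ‖w‖ := by
  refine exp25.trans ?_
  by_cases h3 : u.re ≤ La i + 10
  · exact (h.mid hv hu h1 h3 h2).1.trans (Complex.re_le_norm w)
  · obtain ⟨a1, a2⟩ := h.right hv (not_le.1 h3).le
    have := norm_sub_norm_le ((1 / 100 : ℂ) * cexp u) w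
    rw [norm_eps, norm_sub_rev] at this
    linarith

lemma Ap.main_side {i : ℕ} {v u w : ℂ} (h : Ap i v u w) (hv : ‖v‖ ≤ Real.exp 21) (hu : 1 ≤ ‖u‖)
    (h1 : -(2 * La i) ≤ u.re) (h2 : |u.im - hh i| = sig u)
    (hAC : |w.im| ≤ 4 * ‖w‖ / A (i + 1) + 1 / 50) : False := by
  have hA := A_ge (i + 1)
  by_cases h3 : u.re ≤ La i + 10
  · obtain ⟨-, a1, a2⟩ := h.mid hv hu h1 h3 h2.le
    have a3 := a2 h2
    have a4 := kappa_big i
    have a5 : 4 * ‖w‖ / A (i + 1) ≤ cc i / La i ^ 2 / 100 := by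
      have b1 := A_succ_ge i
      have b2 : La i ^ 2 ≤ (30 * A i ^ 2) ^ 2 := by
        have := La_pos i
        gcongr
        exact La_le i
      have := La_pos i
      have := cc_pos i
      have b3 : La i ^ 2 * 100 * 4000 ≤ A (i + 1) := by nlinarith [sq_nonneg (A i ^ 2)]
      rw [div_div, div_le_div_iff₀ (by linarith) (by positivity)]
      calc _ ≤ 4 * (1000 * cc i) * (La i ^ 2 * 100) := by gcongr
        _ = cc i * (La i ^ 2 * 100 * 4000) := by ring
        _ ≤ _ := by gcongr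
    linarith
  · have h3' := not_le.1 h3
    obtain ⟨a1, a2⟩ := h.right hv h3'.le
    have hs : sig u = Real.pi / 2 := by
      rw [sig, max_eq_left (by linarith [La_pos i])]; ring
    have b1 := norm_sub_norm_le w ((1 / 100 : ℂ) * cexp u)
    rw [norm_eps] at b1
    have b2 := abs_le.1 ((Complex.abs_im_le_norm _).trans a1)
    rw [sub_im, eps_im u (exp_hh i)] at b2
    have b3 : 4 * ‖w‖ / A (i + 1) ≤ 4 * ‖w‖ / 100 := by gcongr; linarith
    rcases (abs_eq (by linarith [Real.pi_pos])).1 (h2.trans hs) with hy | hy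
    · rw [hy, Real.sin_pi_div_two] at b2
      linarith [le_abs_self w.im]
    · rw [hy, Real.sin_neg, Real.sin_pi_div_two] at b2
      linarith [neg_abs_le w.im]

lemma hh_le_cc (i : ℕ) : 100 * hh i ≤ cc i := by
  have h1 := (hh_bounds i).2
  have h2 := exp600_le i
  have h3 : Real.exp (La i - 40) ≤ cc i := Real.exp_le_exp.2 (by linarith)
  linarith [Real.pi_pos, Real.exp_pos (600 * A i)]

/-- The upper tube. -/
lemma Ap.top {i : ℕ} {v u w : ℂ} (h : Ap i v u w) (h2 : |u.im - hp i| ≤ Real.pi / 4) :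
    ‖w - v‖ ≤ 200 / A (i + 1) ∨
    (6 / 10 * ‖w - v‖ ≤ (w - v).re ∧ (u.im - hp i = Real.pi / 4 → ‖w - v‖ / 10 ≤ (w - v).im) ∧
      (u.im - hp i = -(Real.pi / 4) → (w - v).im ≤ -(‖w - v‖ / 10))) := by
  have hA := A_ge (i + 1)
  have hc := cc_big i
  have hmu := mu_small i
  have hmu0 := mu_pos i
  have hpi := Real.pi_lt_four
  have hpi' := Real.pi_pos
  have h3 := abs_le.1 h2
  have h4 := (hp_bounds i).1
  have h5 := hh_le_cc i
  have h6 : cc i * 1 ≤ cc i * A (i + 1) := by gcongr; linarith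
  have h7 := hh_big i
  have n1 : 5 * (cc i * A (i + 1)) ≤ ‖u - qq i‖ := by
    have := Complex.im_le_norm (u - qq i)
    rw [abs_im_sub_qq] at this
    linarith
  have n2 : 5 * (cc i * A (i + 1)) ≤ ‖u‖ := by linarith [Complex.im_le_norm u]
  have hb := h.base (by linarith)
  set k := 1 / A (i + 1) with hk
  have hk0 : 0 < k := by positivity
  have key : ∀ n : ℝ, 5 * (cc i * A (i + 1)) ≤ n → cc i / n ≤ k / 5 := fun n hn => by
    calc cc i / n ≤ cc i / (5 * (cc i * A (i + 1))) := by gcongr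
      _ = _ := by rw [hk]; field_simp
  have b1 : ‖DD i u‖ ≤ k / 5 := by rw [norm_DD]; exact key _ n1
  have b2 : mu i * (cc i / ‖u‖) ≤ 1 * (k / 5) :=
    mul_le_mul (by linarith) (key _ n2) (by positivity) zero_le_one
  have hE0 := Real.exp_pos u.re
  have b3 : mu i * Real.exp u.re ≤ 1 / 10 ^ 20 * Real.exp u.re := by gcongr
  have b4 : ‖w - v - (1 / 100) * cexp u‖ ≤ 2 * k / 5 + 2 / 10 ^ 20 * Real.exp u.re := by
    have e : w - v - (1 / 100) * cexp u = (w - v - DD i u - (1 / 100) * cexp u) + DD i u := by ring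
    rw [e]
    exact (norm_add_le _ _).trans (by linarith)
  by_cases hE : Real.exp u.re ≤ 10000 * k
  · left
    have := norm_sub_norm_le (w - v) ((1 / 100 : ℂ) * cexp u)
    rw [norm_eps] at this
    rw [div_eq_mul_one_div, ← hk]
    linarith
  · right
    have hE' := not_le.1 hE
    obtain ⟨p1, p2, p3⟩ := cone_perturb (d := w - v) (D := (1 / 100) * cexp u)
      (by rw [norm_eps]; linarith)
    have s2 : (14 / 10 : ℝ) ≤ Real.sqrt 2 := Real.le_sqrt_of_sq_le (by norm_num)
    refine ⟨p1 ?_, fun hy => p2 ?_, fun hy => p3 ?_⟩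
    · rw [norm_eps, eps_re u (exp_hp i), mul_comm]
      gcongr
      have := Real.cos_le_cos_of_nonneg_of_le_pi (abs_nonneg (u.im - hp i)) (by linarith) h2
      rw [Real.cos_abs, Real.cos_pi_div_four] at this
      linarith
    · rw [norm_eps, eps_im u (exp_hp i), hy, Real.sin_pi_div_four]
      nlinarith
    · rw [norm_eps, eps_im u (exp_hp i), hy, Real.sin_neg, Real.sin_pi_div_four]
      nlinarith

/-- The left end. -/
lemma Ap.far {i : ℕ} {v u w : ℂ} (h : Ap i v u w) (h2 : u.re = -TT i) :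
    ‖w - v‖ ≤ 200 / A (i + 1) := by
  have hA := A_ge (i + 1)
  have hc := cc_big i
  have hmu := mu_small i
  have hmu0 := mu_pos i
  have hL := La_pos i
  have h6 : 1 * A (i + 1) ≤ cc i * A (i + 1) := by gcongr; linarith
  have hT : TT i = 2 * (cc i * A (i + 1)) := by rw [TT]; ring
  have n1 : TT i ≤ ‖u - qq i‖ := by
    have := Complex.abs_re_le_norm (u - qq i)
    rw [abs_re_sub_qq] at this
    linarith [neg_abs_le (u.re - 2 * La i)]
  have n2 : TT i ≤ ‖u‖ := by linarith [Complex.abs_re_le_norm u, neg_abs_le u.re]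
  have hb := h.base (by linarith)
  set k := 1 / A (i + 1) with hk
  have hk0 : 0 < k := by positivity
  have key : ∀ n : ℝ, TT i ≤ n → cc i / n ≤ k := fun n hn => by
    calc cc i / n ≤ cc i / (cc i * A (i + 1)) := by gcongr; linarith
      _ = _ := by rw [hk]; field_simp
  have b1 : ‖DD i u‖ ≤ k := by rw [norm_DD]; exact key _ n1
  have b2 : mu i * (cc i / ‖u‖) ≤ 1 * k := by
    gcongr
    · linarith
    · exact key _ n2
  have b3 : Real.exp u.re ≤ k := by
    rw [h2, Real.exp_neg, ← one_div, hk]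
    exact one_div_le_one_div_of_le (by linarith) (by linarith [exp_ge_of (x := TT i)])
  have b4 : mu i * Real.exp u.re ≤ 1 * k := by gcongr; linarith
  have e : w - v = (w - v - DD i u - (1 / 100) * cexp u) + DD i u + (1 / 100) * cexp u := by ring
  rw [div_eq_mul_one_div, ← hk, e]
  refine norm_add₃_le.trans ?_
  rw [norm_eps]
  linarith

/-- The horizontal part of the wall. -/
lemma Ap.wall {i : ℕ} {v u w : ℂ} (h : Ap i v u w) (hv : ‖v‖ ≤ Real.exp 21) (h1 : u.im = UU i)
    (h2 : -UU i ≤ u.re) : w.re - 10 * w.im < 0 := by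
  have hc := cc_big i
  have hmu := mu_small i
  have hmu0 := mu_pos i
  have hL := La_big i
  have h21 := exp21
  have hU := UU_bounds i
  have hh1 := hh_bounds i
  have a1 := exp600_le i
  have a2 := La_le_exp600 i
  have a3 : Real.exp (La i - 40) ≤ Real.exp (La i - 36) := Real.exp_le_exp.2 (by linarith)
  have a4 := norm_qq_le i
  have hpi := Real.pi_pos
  set n := ‖u - qq i‖ with hn
  have e1 := abs_re_sub_qq i u
  have e2 := abs_im_sub_qq i u
  have n1 : UU i - hh i ≤ n := by linarith [Complex.im_le_norm (u - qq i)]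
  have n0 : 0 < n := by linarith
  have n2 : UU i ≤ ‖u‖ := by linarith [Complex.im_le_norm u]
  have n3 : n ≤ 2 * ‖u‖ := by linarith [norm_sub_le u (qq i)]
  have n4 : n ≤ (u - qq i).re + 10 * (u - qq i).im := by
    have := Complex.norm_le_abs_re_add_abs_im (u - qq i)
    rw [abs_of_nonneg (a := (u - qq i).im) (by linarith)] at this
    rcases abs_cases (u - qq i).re with h' | h' <;> linarith [h'.1]
  have hb := h.base (by linarith)
  have b1 : (DD i u).re - 10 * (DD i u).im ≤ -(cc i / n) := by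
    rw [DD_re, DD_im, ← hn]
    have : cc i / n ≤ cc i * ((u - qq i).re + 10 * (u - qq i).im) / n ^ 2 := by
      rw [le_div_iff₀ (by positivity)]
      calc _ = cc i * n := by field_simp
        _ ≤ _ := by gcongr
    have e : cc i * -(u - qq i).re / n ^ 2 - 10 * (cc i * (u - qq i).im / n ^ 2) =
      -(cc i * ((u - qq i).re + 10 * (u - qq i).im) / n ^ 2) := by ring
    linarith
  have e3 : (1 / 100 : ℂ) * cexp u = ((-(Real.exp u.re / 100) : ℝ) : ℂ) := by
    conv_lhs => rw [← Complex.re_add_im u, Complex.exp_add, h1, exp_UU]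
    push_cast; ring
  have b2 : cc i / ‖u‖ ≤ 2 * (cc i / n) := by
    rw [← mul_div_assoc, div_le_div_iff₀ (by linarith) n0]
    nlinarith
  have hE0 := Real.exp_pos u.re
  have hD0 : 0 < cc i / n := by positivity
  have b3 : mu i * (cc i / ‖u‖) ≤ 1 / 10 ^ 20 * (2 * (cc i / n)) := by gcongr
  have b4 : mu i * Real.exp u.re ≤ 1 / 10 ^ 20 * Real.exp u.re := by gcongr
  have r1 := abs_le.1 ((Complex.abs_re_le_norm _).trans hb)
  have r2 := abs_le.1 ((Complex.abs_im_le_norm _).trans hb)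
  have r3 := abs_le.1 ((Complex.abs_re_le_norm _).trans hv)
  have r4 := abs_le.1 ((Complex.abs_im_le_norm _).trans hv)
  rw [e3] at r1 r2
  simp only [sub_re, sub_im, ofReal_re, ofReal_im] at r1 r2
  have b5 : 10 ^ 13 ≤ cc i / n ∨ 10 ^ 15 ≤ Real.exp u.re := by
    by_cases hu : u.re ≤ UU i
    · left
      have c1 : ‖u‖ ≤ 2 * UU i := by
        have := Complex.norm_le_abs_re_add_abs_im u
        rw [h1, abs_of_nonneg (a := UU i) (by linarith)] at this
        linarith [abs_le.2 ⟨h2, hu⟩]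
      have c2 := pow_le_exp_nat 36
      have c3 : cc i = Real.exp ((36 : ℕ) : ℝ) * Real.exp (La i - 36) := by
        rw [cc, ← Real.exp_add]; congr 1; push_cast; ring
      have c4 : (28 * 10 ^ 13 : ℝ) * Real.exp (La i - 36) ≤
          Real.exp ((36 : ℕ) : ℝ) * Real.exp (La i - 36) := by
        gcongr; exact le_trans (by norm_num) c2
      rw [le_div_iff₀ n0]
      linarith
    · right
      linarith [exp_ge_of (x := u.re), not_le.1 hu]
  rcases b5 with b5 | b5 <;> linarith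

/-- In the left half-plane the map is an inversion. -/
lemma Ap.sector {i : ℕ} {v u w : ℂ} (h : Ap i v u w) (hv : ‖v‖ ≤ Real.exp 21) (h1 : u.re ≤ 0)
    (h2 : Real.exp (600 * A i + 20) ≤ ‖u‖) (h3 : ‖u‖ ≤ Real.exp (La i - 33)) :
    ‖w * (-u / cc i) - 1‖ ≤ 1 / 10 ^ 4 := by
  have hc := cc_big i
  have hmu := mu_small i
  have hmu0 := mu_pos i
  have a4 := norm_qq_le i
  have a1 : 10 ^ 8 * Real.exp (600 * A i) ≤ ‖u‖ := by
    refine le_trans ?_ h2
    rw [add_comm, Real.exp_add]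
    have := pow_le_exp_nat 20
    push_cast at this
    gcongr; exact le_trans (by norm_num) this
  have a2 : 1 ≤ Real.exp (600 * A i) := Real.one_le_exp (by linarith [A_pos i])
  set n := ‖u - qq i‖ with hn
  have n1 : ‖u‖ / 2 ≤ n := by linarith [norm_sub_norm_le u (qq i)]
  have hu0 : 0 < ‖u‖ := by linarith
  have n0 : 0 < n := by linarith
  have hb := h.base (by linarith)
  have hu : u ≠ 0 := norm_pos_iff.1 hu0
  have hq : u - qq i ≠ 0 := norm_pos_iff.1 n0
  have hcc : (cc i : ℂ) ≠ 0 := by exact_mod_cast (cc_pos i).ne'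
  set k := ‖u‖ / cc i with hk
  have hk0 : 0 < k := by positivity
  have e : w * (-u / cc i) - 1 = ((w - v - DD i u - (1 / 100) * cexp u) + v + (1 / 100) * cexp u) *
      (-u / cc i) + qq i / (u - qq i) := by
    rw [DD]; field_simp; ring
  have b1 : ‖qq i / (u - qq i)‖ ≤ 1 / 10 ^ 6 := by
    rw [norm_div, ← hn, div_le_iff₀ n0]; linarith
  have b2 : ‖-u / (cc i : ℂ)‖ = k := by
    rw [norm_div, norm_neg, Complex.norm_real, Real.norm_of_nonneg (by linarith)]
  have b3 : Real.exp 21 * k ≤ 1 / 10 ^ 5 := by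
    have c1 := pow_le_exp_nat 12
    have c2 : cc i = Real.exp ((12 : ℕ) : ℝ) * (Real.exp 21 * Real.exp (La i - 33)) := by
      rw [cc, ← Real.exp_add, ← Real.exp_add]; congr 1; push_cast; ring
    have c3 : (10 ^ 5 : ℝ) * (Real.exp 21 * ‖u‖) ≤
        Real.exp ((12 : ℕ) : ℝ) * (Real.exp 21 * Real.exp (La i - 33)) := by
      gcongr; exact le_trans (by norm_num) c1
    rw [hk, ← mul_div_assoc, div_le_iff₀ (by linarith)]
    linarith
  have b4 : Real.exp u.re ≤ Real.exp 21 := Real.exp_le_exp.2 (by linarith)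
  have b5 : cc i / ‖u‖ * k = 1 := by rw [hk]; field_simp
  have b6 : mu i * Real.exp u.re ≤ 1 / 10 ^ 20 * Real.exp 21 := by gcongr
  have b7 : ‖(w - v - DD i u - (1 / 100) * cexp u) + v + (1 / 100) * cexp u‖ ≤
      mu i * (cc i / ‖u‖) + 2 * Real.exp 21 := by
    refine norm_add₃_le.trans ?_
    rw [norm_eps]
    linarith [Real.exp_pos 21]
  rw [e]
  refine (norm_add_le _ _).trans ?_
  rw [norm_mul, b2]
  have b8 := mul_le_mul_of_nonneg_right b7 hk0.le
  have b9 : (mu i * (cc i / ‖u‖) + 2 * Real.exp 21) * k = mu i + 2 * (Real.exp 21 * k) := by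
    rw [add_mul, mul_assoc, b5]; ring
  linarith

end Pool.Agent.MP_16212d_an

end MrgPart1

-- marker of a merged file
example : 731051 + 509733 = 731051 + 509733 := rfl
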