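import Mathlib.Combinatorics.SimpleGraph.Basic
import Pool.Agent.MP_16212d_an.EDyn
import Pool.Agent.MP_16212d_an.Tube

-- ======== part 0: formerly Pool.Agent.MP_16212d_an.Dir
section MrgPart0

/-! Choice of the values v, and the direction lemma. -/

open Complex Set Filter Topology Metric

namespace Pool.Agent.MP_16212d_an

noncomputable def LV (j : ℕ) : ℂ := ((20 * A j + 1 : ℝ) : ℂ) + ((103 * Real.pi / 120 : ℝ) : ℂ) * I

lemma LV_re (j : ℕ) : (LV j).re = 20 * A j + 1 := by simp [LV]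
lemma LV_im (j : ℕ) : (LV j).im = 103 * Real.pi / 120 := by simp [LV]

lemma div_pow_re (b : ℂ) (n : ℕ) : (b / 100 ^ n).re = b.re / 100 ^ n := by
  rw [show (100 : ℂ) ^ n = ((100 ^ n : ℝ) : ℂ) by push_cast; rfl, div_ofReal_re]

lemma div_pow_im (b : ℂ) (n : ℕ) : (b / 100 ^ n).im = b.im / 100 ^ n := by
  rw [show (100 : ℂ) ^ n = ((100 ^ n : ℝ) : ℂ) by push_cast; rfl, div_ofReal_im]

lemma succ_le_pow (k : ℕ) : (k : ℝ) + 1 ≤ 100 ^ k := by
  have := one_add_mul_le_pow (a := (99 : ℝ)) (by norm_num) k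
  have h0 : (0 : ℝ) ≤ k := Nat.cast_nonneg k
  norm_num at this
  linarith

/-- Position of the discs along a pulled back chain. -/
lemma chain_bounds {b ζ : ℂ} {m k : ℕ} {s : ℝ} (h1 : s * 100 ^ m ≤ b.re)
    (h2 : |b.im| ≤ 3) (hk : k ≤ m) (h : ζ ∈ closedBall (b / 100 ^ (m - k)) (1 / 10 ^ 4)) :
    s * 100 ^ k - 1 / 10 ^ 4 ≤ ζ.re ∧ (k < m → |ζ.im| ≤ 301 / 10 ^ 4) := by
  obtain ⟨a1, a2⟩ := ball_bounds h
  rw [div_pow_re, abs_le] at a1
  rw [div_pow_im, abs_le] at a2
  constructor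
  · have : s * 100 ^ k ≤ b.re / 100 ^ (m - k) := by
      rw [le_div_iff₀ (by positivity), mul_assoc, ← pow_add, show k + (m - k) = m by omega]
      exact h1
    linarith
  · intro hkm
    have a3 : (100 : ℝ) ^ 1 ≤ 100 ^ (m - k) := pow_le_pow_right₀ (by norm_num) (by omega)
    have a4 : |b.im / 100 ^ (m - k)| ≤ 3 / 100 ^ 1 := by
      rw [abs_div, abs_of_pos (a := (100 : ℝ) ^ (m - k)) (by positivity)]
      gcongr
    have a5 := abs_le.1 a4
    exact abs_le.2 ⟨by linarith, by linarith⟩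

def VSpec (v : ℕ → ℂ) (i : ℕ) : Prop :=
  ∃ ξ : ℕ → ℂ, cexp (ξ 0) = v i ∧ ξ (mm (i + 1)) = LV (i + 1) ∧
    ξ 0 ∈ closedBall (LV (i + 1) / 100 ^ mm (i + 1)) (1 / 10 ^ 4) ∧
    ∀ k < mm (i + 1), |(ξ k).im| ≤ Real.pi / 100 ∧ 18 + k ≤ (ξ k).re ∧
      ‖ξ (k + 1) - 100 * ξ k - eta v (ξ k)‖ ≤ 6 * Real.exp (-RR i)

lemma LV_im_le (j : ℕ) : |(LV j).im| ≤ 3 := by
  rw [LV_im, abs_of_pos (by positivity)]; linarith [Real.pi_lt_d2]

lemma LV_ball {j : ℕ} {ξ : ℂ} (h : ξ ∈ closedBall (LV j / 100 ^ mm j) (1 / 10 ^ 4)) :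
    20 - 1 / 10 ^ 4 ≤ ξ.re ∧ ξ.re ≤ 21 ∧ |ξ.im| ≤ 2 / 10 ^ 4 := by
  obtain ⟨a1, a2⟩ := ball_bounds h
  rw [div_pow_re, abs_le, LV_re, ← A] at a1
  rw [div_pow_im, abs_le, LV_im, ← A] at a2
  have hA := A_ge j
  have b1 : (20 * A j + 1) / A j = 20 + 1 / A j := by field_simp
  have b2 : 1 / A j ≤ 1 / 10 ^ 20 := one_div_le_one_div_of_le (by norm_num) hA
  have b3 : 0 < 1 / A j := by positivity
  have b4 : 103 * Real.pi / 120 / A j ≤ 4 / 10 ^ 20 := by
    gcongr; linarith [Real.pi_lt_four]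
  have b5 : 0 < 103 * Real.pi / 120 / A j := by positivity
  exact ⟨by linarith, by linarith, abs_le.2 ⟨by linarith, by linarith⟩⟩

theorem exists_v : ∃ v : ℕ → ℂ, Bd v ∧ ∀ i, VSpec v i := by
  have h1 : ∀ (w : ℕ → ℂ) (i : ℕ), ∃ ζ : ℕ → ℂ, Bd w → ζ (mm (i + 1)) = LV (i + 1) ∧
      (∀ k ≤ mm (i + 1), ζ k ∈ closedBall (LV (i + 1) / 100 ^ (mm (i + 1) - k)) (1 / 10 ^ 4)) ∧
      ∀ k < mm (i + 1), F w (cexp (ζ k)) = cexp (ζ (k + 1)) := by
    intro w i
    by_cases hw : Bd w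
    · obtain ⟨ζ, h⟩ := pull hw (mm (i + 1)) (LV (i + 1))
        (by rw [LV_re, ← A]; linarith [A_pos (i + 1)]) (LV_im_le _) _
        (mem_closedBall_self (by norm_num))
      exact ⟨ζ, fun _ => h⟩
    · exact ⟨0, fun h => absurd h hw⟩
  choose Z hZ using h1
  let s : ℕ → ℕ → ℂ := fun n => Nat.rec 0 (fun n w => Function.update w n (cexp (Z w n 0))) n
  have hs : ∀ n, s (n + 1) = Function.update (s n) n (cexp (Z (s n) n 0)) := fun n => rfl
  have hB : ∀ n, Bd (s n) := by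
    intro n
    induction n with
    | zero => intro j; simp [s, (Real.exp_pos _).le]
    | succ n ih =>
      intro j
      rw [hs]
      by_cases hj : j = n
      · subst hj
        rw [Function.update_self, Complex.norm_exp]
        exact Real.exp_le_exp.2 (LV_ball (by simpa using (hZ _ j ih).2.1 0 (Nat.zero_le _))).2.1
      · rw [Function.update_of_ne hj]; exact ih j
  have hagree : ∀ n, ∀ j < n, s (j + 1) j = s n j := by
    intro n
    induction n with
    | zero => simp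
    | succ n ih =>
      intro j hj
      by_cases hjn : j = n
      · rw [hjn]
      · rw [hs n, Function.update_of_ne hjn]; exact ih j (by omega)
  have hv : Bd fun j => s (j + 1) j := fun j => hB (j + 1) j
  refine ⟨fun j => s (j + 1) j, hv, fun i => ?_⟩
  obtain ⟨z1, z2, z3⟩ := hZ (s i) i (hB i)
  refine ⟨Z (s i) i, by simp [hs], z1, by simpa using z2 0 (Nat.zero_le _), fun k hk => ?_⟩
  set ξ := Z (s i) i
  set v : ℕ → ℂ := fun j => s (j + 1) j
  have c0 : 20 * (100 : ℝ) ^ mm (i + 1) ≤ (LV (i + 1)).re := by rw [LV_re, ← A]; linarith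
  obtain ⟨c1, c2⟩ := chain_bounds c0 (LV_im_le _) hk.le (z2 k hk.le)
  obtain ⟨c3, -⟩ := chain_bounds (k := k + 1) c0 (LV_im_le _) hk (z2 (k + 1) hk)
  have c4 := c2 hk
  have c5 := succ_le_pow k
  have c6 := succ_le_pow (k + 1)
  have hk0 : (0 : ℝ) ≤ k := Nat.cast_nonneg k
  push_cast at c6
  refine ⟨by linarith [Real.pi_gt_d2], by linarith, ?_⟩
  have d1 := F_sub_F hv (hB i) (hagree i) (nice_exp (ζ := ξ k) (by linarith))
  have d2 := eta_spec hv (ζ := ξ k) (by linarith) (by linarith)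
  have d3 := (eta_le hv (ζ := ξ k) (by linarith) (by linarith)).trans
    (exp_neg_18 (by linarith))
  rw [z3 k hk] at d1
  set δ := (F v (cexp (ξ k)) - cexp (ξ (k + 1))) * cexp (-ξ (k + 1)) with hδ
  have d4 : ‖δ‖ ≤ 4 * Real.exp (-RR i) := by
    rw [hδ, norm_mul, Complex.norm_exp]
    have : Real.exp (-ξ (k + 1)).re ≤ 1 := Real.exp_le_one_iff.2 (by rw [neg_re]; linarith)
    calc _ ≤ 4 * Real.exp (-RR i) * 1 := by gcongr
      _ = _ := by ring
  have d5 := exp_neg_small (RR_ge i)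
  have d6 := Complex.norm_log_one_add_half_le_self (z := δ) (by linarith)
  have hne : 1 + δ ≠ 0 :=
    slitPlane_ne_zero (Complex.mem_slitPlane_of_norm_lt_one (by linarith))
  have d7 : cexp (100 * ξ k + eta v (ξ k) - ξ (k + 1)) = 1 + δ := by
    rw [Complex.exp_sub, ← d2, hδ, Complex.exp_neg]
    have := Complex.exp_ne_zero (ξ (k + 1))
    field_simp
    ring
  have d8 : ‖100 * ξ k - ξ (k + 1)‖ ≤ 101 / 10 ^ 4 := by
    have e1 := mem_closedBall_iff_norm.1 (z2 k hk.le)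
    have e2 := mem_closedBall_iff_norm.1 (z2 (k + 1) hk)
    have e3 : 100 * ξ k - ξ (k + 1) = 100 * (ξ k - LV (i + 1) / 100 ^ (mm (i + 1) - k)) -
        (ξ (k + 1) - LV (i + 1) / 100 ^ (mm (i + 1) - (k + 1))) := by
      rw [show mm (i + 1) - k = mm (i + 1) - (k + 1) + 1 by omega, pow_succ]
      field_simp
      ring
    rw [e3]
    refine (norm_sub_le _ _).trans ?_
    rw [norm_mul, show ‖(100 : ℂ)‖ = 100 by norm_num]
    linarith
  have d9 : ‖100 * ξ k + eta v (ξ k) - ξ (k + 1)‖ ≤ 1 := by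
    rw [show 100 * ξ k + eta v (ξ k) - ξ (k + 1) = (100 * ξ k - ξ (k + 1)) + eta v (ξ k) by ring]
    exact (norm_add_le _ _).trans (by linarith)
  have d10 := abs_le.1 ((Complex.abs_im_le_norm _).trans d9)
  have d11 := Complex.log_exp (x := 100 * ξ k + eta v (ξ k) - ξ (k + 1))
    (by linarith [Real.pi_gt_three]) (by linarith [Real.pi_gt_three])
  rw [d7] at d11
  rw [show ξ (k + 1) - 100 * ξ k - eta v (ξ k) = -(100 * ξ k + eta v (ξ k) - ξ (k + 1)) by ring,
    norm_neg, ← d11]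
  linarith

lemma A_succ_err (i : ℕ) : A (i + 1) * (6 * Real.exp (-RR i)) ≤ 1 / 10 ^ 6 := by
  have h1 := pow_le_exp' (A_ge i) (k := 5) (by norm_num)
  rw [← A_succ] at h1
  have h2 : Real.exp (A i) * Real.exp (-RR i) ≤ 1 := by
    rw [← Real.exp_add]
    exact Real.exp_le_one_iff.2 (by nlinarith [RR_big i, A_ge i])
  have h3 : 10 ^ 20 * A (i + 1) * Real.exp (-RR i) ≤ Real.exp (A i) * Real.exp (-RR i) := by gcongr
  linarith

section
variable {v : ℕ → ℂ} (hv : Bd v) {i : ℕ} {w : ℂ} (hE : ∀ k < mm i, (F v)^[k] w ∈ E0)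
  (hB : ∀ k ≤ mm i, (F v)^[k] w ∉ B0)
include hv hE hB

lemma confine (h18 : 18 ≤ (log w).re) :
    |w.im| ≤ 4 * ‖w‖ / A i + 1 / 50 ∧
      |(log ((F v)^[mm i] w)).re - A i * (log w).re| ≤ A i / 10 ^ 9 := by
  obtain ⟨-, h1⟩ := orbit hv hE hB h18 _ le_rfl
  have hw0 : w ≠ 0 := ne_zero_of_notMem_B0 (hB 0 (Nat.zero_le _))
  have hn : 0 < ‖w‖ := norm_pos_iff.2 hw0
  have hA := A_pos i
  rw [show (100 : ℂ) ^ mm i = (A i : ℂ) by rw [A]; push_cast; rfl, ← A] at h1
  have h2 := exp_neg_18 h18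
  have h3 : (A i - 1) * (Real.exp (-(log w).re) / 50) ≤ A i * (Real.exp (-(log w).re) / 50) := by
    gcongr; linarith
  have h4 := (Complex.abs_re_le_norm _).trans (h1.trans h3)
  have h5 := (Complex.abs_im_le_norm _).trans (h1.trans h3)
  rw [sub_re, re_ofReal_mul] at h4
  rw [sub_im, im_ofReal_mul, log_im, log_im] at h5
  constructor
  · have a1 := abs_arg_le_pi ((F v)^[mm i] w)
    have a2 : A i * |arg w| ≤ 4 + A i * (Real.exp (-(log w).re) / 50) := by
      have := abs_sub_abs_le_abs_sub (A i * arg w) (arg ((F v)^[mm i] w))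
      rw [abs_mul, abs_of_pos hA, abs_sub_comm] at this
      linarith [Real.pi_lt_four]
    have a3 : Real.exp (-(log w).re) = 1 / ‖w‖ := by
      rw [log_re, Real.exp_neg, Real.exp_log hn, one_div]
    have a4 : |w.im| ≤ ‖w‖ * |arg w| := by
      have := Real.abs_sin_le_abs (x := arg w)
      rw [Complex.sin_arg, abs_div, abs_of_pos hn, div_le_iff₀ hn] at this
      linarith
    have a5 : |arg w| ≤ 4 / A i + 1 / ‖w‖ / 50 := by
      rw [← a3]
      have : 4 / A i + Real.exp (-(log w).re) / 50 =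
          (4 + A i * (Real.exp (-(log w).re) / 50)) / A i := by field_simp
      rw [this, le_div_iff₀ hA]
      linarith
    calc _ ≤ ‖w‖ * (4 / A i + 1 / ‖w‖ / 50) := a4.trans (by gcongr)
      _ = _ := by field_simp
  · refine h4.trans ?_
    calc _ ≤ A i * (1 / (6 * 10 ^ 7) / 50) := by gcongr
      _ ≤ _ := by linarith

end

lemma le_log_re {w : ℂ} {s : ℝ} (h : Real.exp s ≤ ‖w‖) : s ≤ (log w).re := by
  rw [log_re]
  exact (Real.le_log_iff_exp_le ((Real.exp_pos s).trans_le h)).2 h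

section
variable {v : ℕ → ℂ} (hv : Bd v) {i : ℕ} (hS : VSpec v i) {w : ℂ}
  (hE : ∀ k < mm (i + 1), (F v)^[k] w ∈ E0) (hB : ∀ k ≤ mm (i + 1), (F v)^[k] w ∉ B0)
  (hfree : 1 / 100 < ‖log ((F v)^[mm (i + 1)] w) - LV (i + 1)‖)

include hS in
lemma VSpec.facts : Real.exp 19 ≤ 99 / 100 * ‖v i‖ ∧ 999 / 1000 * ‖v i‖ ≤ (v i).re ∧
    |(v i).im| ≤ 2 / 10 ^ 4 * ‖v i‖ ∧ Real.exp (20 - 1 / 10 ^ 4) ≤ ‖v i‖ := by
  obtain ⟨ξ, h1, -, h3, -⟩ := hS
  obtain ⟨a1, a2, a3⟩ := LV_ball h3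
  rw [← h1, Complex.norm_exp, Complex.exp_re, Complex.exp_im]
  have h0 := Real.exp_pos (ξ 0).re
  refine ⟨?_, ?_, ?_, Real.exp_le_exp.2 a1⟩
  · have : Real.exp (ξ 0).re = Real.exp ((ξ 0).re - 19) * Real.exp 19 := by
      rw [← Real.exp_add]; congr 1; ring
    have b1 := Real.add_one_le_exp ((ξ 0).re - 19)
    have b2 := Real.exp_pos 19
    rw [this]; nlinarith
  · have b1 := Real.one_sub_sq_div_two_le_cos (x := (ξ 0).im)
    have b2 := abs_le.1 a3
    have : 999 / 1000 ≤ Real.cos (ξ 0).im := by nlinarith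
    nlinarith
  · rw [abs_mul, abs_of_pos h0, mul_comm]
    gcongr
    exact Real.abs_sin_le_abs.trans a3

include hv hS hE hB hfree in
lemma dir_near (hd : ‖w - v i‖ ≤ ‖v i‖ / 100) : ∃ κ : ℝ, 0 < κ ∧ κ ≤ A (i + 1) / 10 ^ 8 ∧
    ‖(log ((F v)^[mm (i + 1)] w) - LV (i + 1)) - κ * (w - v i)‖ ≤ κ * ‖w - v i‖ / 100 ∧
    9 / 1000 ≤ κ * ‖w - v i‖ := by
  obtain ⟨f1, -⟩ := hS.facts
  obtain ⟨ξ, h1, h2, h3, h4⟩ := hS
  obtain ⟨a1, a2, a3⟩ := LV_ball h3
  have h18 : 18 ≤ (log w).re := by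
    have b1 := norm_sub_norm_le (v i) w
    rw [norm_sub_rev] at b1
    have := le_log_re (w := w) (s := 19) (by linarith)
    linarith
  have key := compare hv hE hB h18 (by positivity) h4 _ le_rfl
  rw [h2, show (100 : ℂ) ^ mm (i + 1) = (A (i + 1) : ℂ) by rw [A]; push_cast; rfl, ← A] at key
  have hA := A_pos (i + 1)
  set d := w - v i with hdd
  have hv0 : 0 < ‖v i‖ := by linarith [Real.exp_pos 19]
  have hvne : v i ≠ 0 := norm_pos_iff.1 hv0
  set t := d / v i with ht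
  have t1 : ‖t‖ ≤ 1 / 100 := by rw [ht, norm_div, div_le_iff₀ hv0]; linarith
  have t2 := Complex.norm_log_one_add_half_le_self (z := t) (by linarith)
  have t3 := Complex.norm_log_one_add_sub_self_le (z := t) (by linarith)
  have hne : 1 + t ≠ 0 :=
    slitPlane_ne_zero (Complex.mem_slitPlane_of_norm_lt_one (by linarith))
  have e1 : log w - ξ 0 = log (1 + t) := by
    have b1 : w = cexp (ξ 0 + log (1 + t)) := by
      rw [Complex.exp_add, Complex.exp_log hne, h1, ht, hdd]; field_simp; ring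
    have b2 := abs_le.1 ((Complex.abs_im_le_norm _).trans t2)
    have b3 := abs_le.1 a3
    conv_lhs => rw [b1, Complex.log_exp (by rw [add_im]; linarith [Real.pi_gt_three])
      (by rw [add_im]; linarith [Real.pi_gt_three])]
    ring
  rw [e1] at key
  have hvn : ‖v i‖ = Real.exp (ξ 0).re := by rw [← h1, Complex.norm_exp]
  set r := ‖d‖ / ‖v i‖ with hr
  have tr : ‖t‖ = r := by rw [ht, norm_div]
  have hr0 : 0 ≤ r := by positivity
  have t4 : ‖log (1 + t) - t‖ ≤ r * (6 / 1000) := by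
    refine t3.trans ?_
    have b1 : (1 - ‖t‖)⁻¹ ≤ (99 / 100)⁻¹ := inv_anti₀ (by norm_num) (by linarith)
    have b2 : 0 ≤ (1 - ‖t‖)⁻¹ := inv_nonneg.2 (by linarith)
    rw [sq, ← tr]
    have : ‖t‖ * ‖t‖ * (1 - ‖t‖)⁻¹ ≤ ‖t‖ * (1 / 100) * (99 / 100)⁻¹ := by gcongr
    linarith [norm_nonneg t]
  have t5 : ‖t - d / (‖v i‖ : ℂ)‖ ≤ r * (4 / 10 ^ 4) := by
    have b1 : t - d / (‖v i‖ : ℂ) = d / (‖v i‖ : ℂ) * (cexp (-((ξ 0).im * I)) - 1) := by
      rw [ht, hvn]
      conv_lhs => rw [← h1, ← Complex.re_add_im (ξ 0), Complex.exp_add]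
      rw [Complex.exp_neg, Complex.ofReal_exp]
      have := Complex.exp_ne_zero ((ξ 0).im * I)
      have := Complex.exp_ne_zero ((ξ 0).re)
      simp only [add_re, ofReal_re, mul_re, I_re, mul_zero, ofReal_im, I_im, mul_one, sub_self,
        add_zero, ofReal_exp]
      field_simp
    have b2 : ‖-(((ξ 0).im : ℂ) * I)‖ ≤ 2 / 10 ^ 4 := by simpa using a3
    have b3 := Complex.norm_exp_sub_one_le (x := -(((ξ 0).im : ℂ) * I)) (by linarith)
    rw [b1, norm_mul, norm_div, Complex.norm_real, norm_norm, ← hr]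
    gcongr
    linarith
  have hp : (1 - (1 / 2 : ℝ) ^ mm (i + 1)) ≤ 1 := by
    have : (0 : ℝ) < (1 / 2) ^ mm (i + 1) := by positivity
    linarith
  have k1 : A (i + 1) * ((1 - (1 / 2) ^ mm (i + 1)) *
      (‖log (1 + t)‖ / 10 ^ 5 + 6 * Real.exp (-RR i))) ≤
      A (i + 1) * (1 * (3 / 2 * r / 10 ^ 5 + 6 * Real.exp (-RR i))) := by
    gcongr; rwa [← tr]
  have k2 := A_succ_err i
  have k3 : ‖(log ((F v)^[mm (i + 1)] w) - LV (i + 1)) - (A (i + 1) / ‖v i‖ : ℝ) * d‖ ≤
      A (i + 1) * r * (7 / 1000) + 1 / 10 ^ 6 := by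
    have e2 : (log ((F v)^[mm (i + 1)] w) - LV (i + 1)) - (A (i + 1) / ‖v i‖ : ℝ) * d =
        (log ((F v)^[mm (i + 1)] w) - LV (i + 1) - A (i + 1) * log (1 + t)) +
          A (i + 1) * (log (1 + t) - t) + A (i + 1) * (t - d / (‖v i‖ : ℂ)) := by
      push_cast; ring
    rw [e2]
    refine norm_add₃_le.trans ?_
    rw [norm_mul, norm_mul, Complex.norm_real, Real.norm_of_nonneg hA.le]
    have b1 : A (i + 1) * ‖log (1 + t) - t‖ ≤ A (i + 1) * (r * (6 / 1000)) := by gcongr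
    have b2 : A (i + 1) * ‖t - d / (‖v i‖ : ℂ)‖ ≤ A (i + 1) * (r * (4 / 10 ^ 4)) := by gcongr
    have b3 : 0 ≤ A (i + 1) * r := by positivity
    linarith
  have k4 : A (i + 1) / ‖v i‖ * ‖d‖ = A (i + 1) * r := by rw [hr]; ring
  have k5 := norm_sub_norm_le (log ((F v)^[mm (i + 1)] w) - LV (i + 1))
    ((A (i + 1) / ‖v i‖ : ℝ) * d)
  rw [norm_mul, Complex.norm_real, Real.norm_of_nonneg (by positivity), k4] at k5
  refine ⟨A (i + 1) / ‖v i‖, by positivity, ?_, by rw [k4]; linarith, by rw [k4]; linarith⟩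
  gcongr
  have := pow_le_exp_nat 19
  push_cast at this
  linarith [show (10 : ℝ) ^ 8 ≤ (27 / 10) ^ 19 by norm_num]

include hv hS hE hB hfree in
lemma dir_small (hd : ‖w - v i‖ ≤ 200 / A (i + 1)) : False := by
  obtain ⟨f1, -⟩ := hS.facts
  have hA := A_ge (i + 1)
  have h1 : 200 / A (i + 1) ≤ 200 / 10 ^ 20 := by gcongr
  obtain ⟨κ, k0, k1, -, k3⟩ := dir_near hv hS hE hB hfree
    (by linarith [exp_ge_of (x := 19)])
  have : κ * ‖w - v i‖ ≤ A (i + 1) / 10 ^ 8 * (200 / A (i + 1)) := by gcongr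
  rw [show A (i + 1) / 10 ^ 8 * (200 / A (i + 1)) = 200 / 10 ^ 8 by field_simp] at this
  linarith

include hv hS hE hB hfree in
lemma dir (hd : 6 / 10 * ‖w - v i‖ ≤ (w - v i).re) :
    20 * A (i + 1) + 1 ≤ (log ((F v)^[mm (i + 1)] w)).re ∧
    (‖w - v i‖ / 10 ≤ (w - v i).im → 3 * Real.pi / 4 < ang (log ((F v)^[mm (i + 1)] w))) ∧
    ((w - v i).im ≤ -(‖w - v i‖ / 10) → ang (log ((F v)^[mm (i + 1)] w)) < 3 * Real.pi / 4 ∧
      (log ((F v)^[mm (i + 1)] w)).re ≤ 20 * A (i + 1) + 201) := by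
  by_cases hn : ‖w - v i‖ ≤ ‖v i‖ / 100
  · obtain ⟨κ, k0, -, k2, k3⟩ := dir_near hv hS hE hB hfree hn
    have r1 := abs_le.1 ((Complex.abs_re_le_norm _).trans k2)
    have r2 := abs_le.1 ((Complex.abs_im_le_norm _).trans k2)
    rw [sub_re, sub_re, re_ofReal_mul, LV_re] at r1
    rw [sub_im, sub_im, im_ofReal_mul, LV_im] at r2
    have b1 : κ * (6 / 10 * ‖w - v i‖) ≤ κ * (w - v i).re := by gcongr
    refine ⟨by linarith, fun h => ?_, fun h => ?_⟩
    · have b2 : κ * (‖w - v i‖ / 10) ≤ κ * (w - v i).im := by gcongr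
      rw [ang]; linarith
    · have b2 : κ * (w - v i).im ≤ κ * (-(‖w - v i‖ / 10)) := by gcongr
      have b3 : κ * (w - v i).re ≤ κ * ‖w - v i‖ := by gcongr; exact Complex.re_le_norm _
      have b4 := neg_pi_lt_log_im ((F v)^[mm (i + 1)] w)
      rw [ang]
      constructor <;> linarith [Real.pi_lt_four]
  · have hn' := not_le.1 hn
    obtain ⟨f1, f2, f3, f4⟩ := hS.facts
    have hA := A_ge (i + 1)
    have b1 : 1005 / 1000 * ‖v i‖ ≤ ‖w‖ := by
      have := Complex.re_le_norm w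
      rw [sub_re] at hd
      linarith
    have b2 : 20 + 3 / 1000 ≤ (log w).re := by
      refine le_log_re (le_trans ?_ b1)
      have c1 := Real.exp_bound_div_one_sub_of_interval' (x := 31 / 10000) (by norm_num)
        (by norm_num)
      calc _ = Real.exp (31 / 10000) * Real.exp (20 - 1 / 10 ^ 4) := by
            rw [← Real.exp_add]; congr 1; norm_num
        _ ≤ _ := by gcongr; exact c1.le.trans (by norm_num)
    obtain ⟨c1, c2⟩ := confine hv hE hB (by linarith)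
    have c3 := abs_le.1 c2
    have c4 : A (i + 1) * (20 + 3 / 1000) ≤ A (i + 1) * (log w).re := by gcongr
    have key : ¬ ‖w - v i‖ / 10 ≤ |(w - v i).im| := by
      intro h
      have d1 := abs_sub w.im (v i).im
      rw [← sub_im] at d1
      have d2 := norm_sub_norm_le w (v i)
      have d3 : 4 * ‖w‖ / A (i + 1) ≤ 4 * ‖w‖ / 10 ^ 20 := by gcongr
      have d4 := pow_le_exp_nat 19
      push_cast at d4
      linarith [show (10 : ℝ) ^ 8 ≤ (27 / 10) ^ 19 by norm_num]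
    refine ⟨by linarith, fun h => absurd (h.trans (le_abs_self _)) key, fun h => absurd ?_ key⟩
    linarith [neg_abs_le (w - v i).im]

end

end Pool.Agent.MP_16212d_an

end MrgPart0

-- ======== part 1: formerly Pool.Agent.MP_16212d_an.Stage
section MrgPart1

/-! One stage of the construction: walls, channels and levels. -/

open Complex Set Filter Topology Metric

namespace Pool.Agent.MP_16212d_an

noncomputable def mdl (i : ℕ) (ζ : ℂ) : ℂ := (La i : ℂ) - 30 * ζ + ((26 * Real.pi : ℝ) : ℂ) * I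

lemma mdl_re (i : ℕ) (ζ : ℂ) : (mdl i ζ).re = La i - 30 * ζ.re := by simp [mdl]
lemma mdl_im (i : ℕ) (ζ : ℂ) : (mdl i ζ).im = Real.pi - ang ζ := by simp [mdl, ang]; ring

lemma exp_neg_mdl (i : ℕ) (ζ : ℂ) : cexp (-mdl i ζ) = -uu ζ / cc i := by
  have h1 : cexp (((26 * Real.pi : ℝ) : ℂ) * I) = 1 := by
    rw [← exp_nat_two_pi 13]; congr 2; push_cast; ring
  rw [Complex.exp_neg, mdl, Complex.exp_add, h1, Complex.exp_sub, uu, neg_neg, cc,
    Complex.ofReal_exp, ← Complex.exp_nat_mul]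
  simp

lemma cc_le_hp (i : ℕ) : cc i ≤ hp i - 4 ∧ cc i ≤ TT i - 1 := by
  have h1 := (hp_bounds i).1
  have h2 := cc_big i
  have h3 : cc i * 1 ≤ cc i * A (i + 1) := by gcongr; exact one_le_A _
  rw [TT]
  constructor <;> linarith

noncomputable def PP (j : ℕ) (ζ : ℂ) : ℝ :=
  max (ang ζ - 3 * Real.pi / 4) (min (ang ζ) ((uu ζ).im - UU j))

def In (i : ℕ) (ζ ζ' : ℂ) : Prop :=
  0 < ang ζ ∧ ang ζ < 13 * Real.pi / 12 ∧ -TT i < (uu ζ).re ∧
    (sig (uu ζ) < (uu ζ).im - hh i ∨ (-sig (uu ζ) < (uu ζ).im - hh i ∧ 0 < PP (i + 1) ζ')) ∧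
    ((uu ζ).im - hp i < -(Real.pi / 4) ∨ ((uu ζ).im - hp i < Real.pi / 4 ∧ PP (i + 1) ζ' < 0))

def InC (i : ℕ) (ζ ζ' : ℂ) : Prop :=
  0 ≤ ang ζ ∧ ang ζ ≤ 13 * Real.pi / 12 ∧ -TT i ≤ (uu ζ).re ∧
    (sig (uu ζ) ≤ (uu ζ).im - hh i ∨ (-sig (uu ζ) ≤ (uu ζ).im - hh i ∧ 0 ≤ PP (i + 1) ζ')) ∧
    ((uu ζ).im - hp i ≤ -(Real.pi / 4) ∨ ((uu ζ).im - hp i ≤ Real.pi / 4 ∧ PP (i + 1) ζ' ≤ 0))

def Rng (i : ℕ) (ζ : ℂ) : Prop :=
  |ang ζ - Real.pi| < 1 / 10 ∧ 1050 * A i < 30 * ζ.re ∧ 30 * ζ.re < La i - 34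

def RngC (i : ℕ) (ζ : ℂ) : Prop :=
  |ang ζ - Real.pi| ≤ 1 / 10 ∧ 1050 * A i ≤ 30 * ζ.re ∧ 30 * ζ.re ≤ La i - 34

def Mid (i : ℕ) (ζ : ℂ) : Prop :=
  |ang ζ - Real.pi| < 1 / 10 ∧ 1110 * A i < 30 * ζ.re ∧ 30 * ζ.re < La i - 40

structure Orb (v : ℕ → ℂ) (i : ℕ) (ζ ζ' : ℂ) : Prop where
  hE : ∀ k < mm (i + 1), (F v)^[k] (F v (cexp ζ)) ∈ E0
  hB : ∀ k ≤ mm (i + 1), (F v)^[k] (F v (cexp ζ)) ∉ B0
  eq : ζ' = log ((F v)^[mm (i + 1)] (F v (cexp ζ)))
  hE' : F v (cexp ζ') ∈ E0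

lemma Mid.rng {i : ℕ} {ζ : ℂ} (h : Mid i ζ) : Rng i ζ :=
  ⟨h.1, by linarith [h.2.1, A_pos i], by linarith [h.2.2]⟩

lemma Rng.rngC {i : ℕ} {ζ : ℂ} (h : Rng i ζ) : RngC i ζ := ⟨h.1.le, h.2.1.le, h.2.2.le⟩

lemma E0_L {w : ℂ} (h : w ∈ E0) : 0 < w.re - 10 * w.im := by
  have hn : 0 < ‖w‖ := by linarith [h.1]
  have h1 : |arg w| ≤ 1 / 20 := by linarith [h.2, Real.pi_lt_four]
  obtain ⟨c1, c2⟩ := cos_sin_small h1
  rw [Complex.cos_arg (norm_pos_iff.1 hn), le_div_iff₀ hn] at c1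
  rw [Complex.sin_arg, abs_div, abs_of_pos hn, div_le_iff₀ hn] at c2
  linarith [le_abs_self w.im]

lemma PP_neg {j : ℕ} {ζ : ℂ} (h1 : ang ζ < 3 * Real.pi / 4) (h2 : 30 * ζ.re ≤ La j - 40) :
    PP j ζ < 0 := by
  refine max_lt (by linarith) (min_lt_iff.2 (Or.inr ?_))
  have a1 := Complex.im_le_norm (uu ζ)
  have a2 : ‖uu ζ‖ ≤ Real.exp (La j - 36) := by
    rw [norm_uu]; exact Real.exp_le_exp.2 (by linarith)
  linarith [(UU_bounds j).1, Real.exp_pos (La j - 36)]

lemma PP_pos {j : ℕ} {ζ : ℂ} (h1 : 3 * Real.pi / 4 < ang ζ) : 0 < PP j ζ :=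
  lt_max_iff.2 (Or.inl (by linarith))

section
variable {v : ℕ → ℂ} (hv : Bd v)
include hv

lemma sector_est {i : ℕ} {ζ : ℂ} (hb0 : Real.pi / 2 ≤ ang ζ) (hb1 : ang ζ ≤ 13 * Real.pi / 12)
    (h1 : 600 * A i + 20 ≤ 30 * ζ.re) (h2 : 30 * ζ.re ≤ La i - 33) :
    ‖F v (cexp ζ) * cexp (-mdl i ζ) - 1‖ ≤ 1 / 10 ^ 4 := by
  have hpi := Real.pi_pos
  have a1 : ‖uu ζ‖ ≤ Real.exp (La i - 33) := by rw [norm_uu]; exact Real.exp_le_exp.2 h2
  have a2 : Real.exp (La i - 33) ≤ cc i := Real.exp_le_exp.2 (by linarith)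
  obtain ⟨a3, a4⟩ := cc_le_hp i
  have hAp : Ap i (v i) (uu ζ) (F v (cexp ζ)) :=
    omega_est (by linarith) (by linarith) hb1 hv (by linarith [Complex.im_le_norm (uu ζ)])
      (by linarith [Complex.abs_re_le_norm (uu ζ), neg_abs_le (uu ζ).re])
  rw [exp_neg_mdl]
  refine hAp.sector (hv i) ?_ (by rw [norm_uu]; exact Real.exp_le_exp.2 h1) a1
  rw [uu_re]
  exact mul_nonpos_of_nonneg_of_nonpos (Real.exp_pos _).le
    (Real.cos_nonpos_of_pi_div_two_le_of_le hb0 (by linarith))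

lemma sector_log {i : ℕ} {ζ : ℂ} (hb0 : Real.pi / 2 ≤ ang ζ) (hb1 : ang ζ ≤ 13 * Real.pi / 12)
    (h1 : 600 * A i + 20 ≤ 30 * ζ.re) (h2 : 30 * ζ.re ≤ La i - 33) :
    |(log (F v (cexp ζ))).re - (La i - 30 * ζ.re)| ≤ 2 / 10 ^ 4 ∧
      |arg (F v (cexp ζ)) - (Real.pi - ang ζ)| ≤ 2 / 10 ^ 4 := by
  have h := sector_est hv hb0 hb1 h1 h2
  set δ := F v (cexp ζ) * cexp (-mdl i ζ) - 1 with hδ
  have a1 := Complex.norm_log_one_add_half_le_self (z := δ) (by linarith)
  have hne : 1 + δ ≠ 0 :=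
    slitPlane_ne_zero (Complex.mem_slitPlane_of_norm_lt_one (by linarith))
  have a2 : F v (cexp ζ) = cexp (mdl i ζ + log (1 + δ)) := by
    rw [Complex.exp_add, Complex.exp_log hne, hδ, add_sub_cancel, mul_left_comm, ← Complex.exp_add]
    simp
  have a3 := (Complex.abs_re_le_norm _).trans a1
  have a4 := (Complex.abs_im_le_norm _).trans a1
  have a5 := abs_le.1 a4
  have hpi := Real.pi_gt_three
  have a6 : log (F v (cexp ζ)) = mdl i ζ + log (1 + δ) := by
    rw [a2]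
    exact Complex.log_exp (by rw [add_im, mdl_im]; linarith) (by rw [add_im, mdl_im]; linarith)
  rw [← log_im, a6, add_re, add_im, mdl_re, mdl_im, add_sub_cancel_left, add_sub_cancel_left]
  constructor <;> linarith

lemma sector_ang {i : ℕ} {ζ : ℂ} (hb0 : Real.pi / 2 ≤ ang ζ) (hb1 : ang ζ ≤ 13 * Real.pi / 12)
    (h1 : 600 * A i + 20 ≤ 30 * ζ.re) (h2 : 30 * ζ.re ≤ La i - 33) (hE : F v (cexp ζ) ∈ E0) :
    |ang ζ - Real.pi| < 1 / 20 := by
  have a1 := abs_le.1 (sector_log hv hb0 hb1 h1 h2).2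
  have a2 := abs_lt.1 hE.2
  have := Real.pi_lt_four
  exact abs_lt.2 ⟨by linarith, by linarith⟩

lemma free {j : ℕ} {ζ : ℂ} (hE : F v (cexp ζ) ∈ E0) : 1 / 100 < ‖ζ - LV j‖ := by
  by_contra h
  obtain ⟨a1, a2⟩ := ball_bounds (mem_closedBall_iff_norm.2 (not_lt.1 h))
  rw [LV_re, abs_le] at a1
  rw [LV_im, abs_le] at a2
  have hpi := Real.pi_gt_three
  have := abs_lt.1 (sector_ang hv (i := j) (by rw [ang]; linarith) (by rw [ang]; linarith)
    (by linarith) (by linarith [La_ge j, A_ge j]) hE)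
  rw [ang] at this
  linarith

lemma wall {j : ℕ} {ζ : ℂ} (h1 : 20 * A j + 1 ≤ ζ.re) (hE : F v (cexp ζ) ∈ E0) : PP j ζ ≠ 0 := by
  intro h
  have hpi := Real.pi_gt_three
  have hU := UU_bounds j
  have hU0 : 0 < UU j := by linarith [hU.1, Real.exp_pos (La j - 36)]
  have hE0 := Real.exp_pos (30 * ζ.re)
  have s2 : (14 / 10 : ℝ) ≤ Real.sqrt 2 := Real.le_sqrt_of_sq_le (by norm_num)
  rcases (max_eq_iff.1 h) with ⟨a1, a2⟩ | ⟨a1, a2⟩
  · have a3 : ang ζ = 3 * Real.pi / 4 := by linarith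
    have a4 : (uu ζ).im ≤ UU j := by
      rcases min_le_iff.1 a2 with b | b <;> linarith
    rw [uu_im, a3, show 3 * Real.pi / 4 = Real.pi - Real.pi / 4 by ring, Real.sin_pi_sub,
      Real.sin_pi_div_four] at a4
    have a5 : Real.exp (30 * ζ.re) ≤ Real.exp (La j - 33) := by
      have b1 := pow_le_exp_nat 3
      have b2 : Real.exp (La j - 33) = Real.exp ((3 : ℕ) : ℝ) * Real.exp (La j - 36) := by
        rw [← Real.exp_add]; congr 1; push_cast; ring
      have b3 : (10 : ℝ) * Real.exp (La j - 36) ≤ Real.exp ((3 : ℕ) : ℝ) * Real.exp (La j - 36) := by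
        gcongr; exact le_trans (by norm_num) b1
      have b4 : Real.exp (30 * ζ.re) * (7 / 10) ≤ Real.exp (30 * ζ.re) * (Real.sqrt 2 / 2) :=
        mul_le_mul_of_nonneg_left (by linarith) hE0.le
      linarith [hU.2]
    have := abs_lt.1 (sector_ang hv (i := j) (by linarith) (by linarith)
      (by linarith) (Real.exp_le_exp.1 a5) hE)
    linarith
  · rcases min_eq_iff.1 a1 with ⟨b1, b2⟩ | ⟨b1, b2⟩
    · rw [uu_im, b1, Real.sin_zero] at b2
      linarith
    · have c0 : 0 ≤ ang ζ := by linarith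
      have c1 : (uu ζ).im = UU j := by linarith
      have c2 : -UU j ≤ (uu ζ).re := by
        rw [← c1, uu_re, uu_im]
        have d1 : 0 ≤ Real.sin (ang ζ + Real.pi / 4) :=
          Real.sin_nonneg_of_nonneg_of_le_pi (by linarith) (by linarith)
        rw [Real.sin_add, Real.cos_pi_div_four, Real.sin_pi_div_four, ← add_mul] at d1
        have d2 : 0 ≤ Real.sin (ang ζ) + Real.cos (ang ζ) :=
          nonneg_of_mul_nonneg_left d1 (by linarith)
        have := mul_nonneg hE0.le d2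
        linarith
      have c3 : 7 * Real.exp (La j - 36) ≤ cc j := by
        have e1 : cc j = Real.exp 36 * Real.exp (La j - 36) := by
          rw [cc, ← Real.exp_add]; congr 1; ring
        rw [e1]
        gcongr
        linarith [exp_ge_of (x := 36)]
      obtain ⟨a3, a4⟩ := cc_le_hp j
      have hAp : Ap j (v j) (uu ζ) (F v (cexp ζ)) :=
        omega_est (by linarith) c0 (by linarith) hv (by linarith [hU.2]) (by linarith [hU.2])
      linarith [hAp.wall (hv j) c1 c2, E0_L hE]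

omit hv in
lemma mm_pos (i : ℕ) : 0 < mm i := by simp [mm]

theorem stage {i : ℕ} (hS : VSpec v i) {ζ ζ' : ℂ} (hO : Orb v i ζ ζ') (h : InC i ζ ζ') :
    In i ζ ζ' := by
  obtain ⟨h1, h2, h3, h4, h5⟩ := h
  have hpi := Real.pi_gt_three
  have hpi' := Real.pi_lt_four
  have hsig := sig_ge (uu ζ)
  have hh1 := hh_bounds i
  have hh2 := hh_big i
  have y1 : -sig (uu ζ) ≤ (uu ζ).im - hh i := by
    rcases h4 with h | h
    · linarith
    · exact h.1
  have y2 : (uu ζ).im - hp i ≤ Real.pi / 4 := by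
    rcases h5 with h | h
    · linarith
    · exact h.1
  have hu : Real.exp (600 * A i) ≤ ‖uu ζ‖ := by
    have a1 : max 0 (-(uu ζ).re) ≤ ‖uu ζ‖ :=
      max_le (norm_nonneg _) (by linarith [Complex.abs_re_le_norm (uu ζ), neg_abs_le (uu ζ).re])
    have a2 := Complex.im_le_norm (uu ζ)
    rw [sig] at y1
    linarith [hh1.1]
  have hu1 : 1 ≤ ‖uu ζ‖ := (Real.one_le_exp (by linarith [A_pos i])).trans hu
  have hx : 20 * A i ≤ ζ.re := by
    rw [norm_uu] at hu
    linarith [Real.exp_le_exp.1 hu]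
  have hAp : Ap i (v i) (uu ζ) (F v (cexp ζ)) := omega_est hx h1 h2 hv (by linarith) h3
  have hfree := free hv (j := i + 1) hO.hE'
  have hfree' := hfree
  rw [hO.eq] at hfree'
  have hdir := dir hv hS hO.hE hO.hB hfree'
  have hsmall := dir_small hv hS hO.hE hO.hB hfree'
  rw [← hO.eq] at hdir
  have hneg : ang ζ' < 3 * Real.pi / 4 ∧ ζ'.re ≤ 20 * A (i + 1) + 201 → PP (i + 1) ζ' < 0 :=
    fun h => PP_neg h.1 (by linarith [h.2, La_ge (i + 1), A_ge (i + 1)])
  have hE0 := Real.exp_pos (30 * ζ.re)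
  refine ⟨lt_of_le_of_ne h1 fun h => ?_, lt_of_le_of_ne h2 fun h => ?_,
    lt_of_le_of_ne h3 fun h => hsmall (hAp.far h.symm), ?_, ?_⟩
  · rw [sig, uu_im, uu_re, ← h, Real.sin_zero, Real.cos_zero,
      max_eq_left (by linarith)] at y1
    linarith
  · have e1 : 13 * Real.pi / 12 = Real.pi / 12 + Real.pi := by ring
    have c0 : 0 < Real.cos (Real.pi / 12) := Real.cos_pos_of_mem_Ioo ⟨by linarith, by linarith⟩
    have c1 : Real.cos (Real.pi / 12) ≤ 4 * Real.sin (Real.pi / 12) := by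
      have d1 := Real.lt_tan (x := Real.pi / 12) (by linarith) (by linarith)
      rw [Real.tan_eq_sin_div_cos, lt_div_iff₀ c0] at d1
      have : 1 / 4 * Real.cos (Real.pi / 12) ≤ Real.pi / 12 * Real.cos (Real.pi / 12) :=
        mul_le_mul_of_nonneg_right (by linarith) c0.le
      linarith
    have c2 := mul_le_mul_of_nonneg_left c1 hE0.le
    have c3 := mul_pos hE0 c0
    rw [sig, uu_im, uu_re, h, e1, Real.sin_add_pi, Real.cos_add_pi,
      max_eq_right (by linarith)] at y1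
    linarith
  · by_cases hy : sig (uu ζ) < (uu ζ).im - hh i
    · exact Or.inl hy
    right
    have hy' := not_lt.1 hy
    have habs : |(uu ζ).im - hh i| ≤ sig (uu ζ) := abs_le.2 ⟨y1, hy'⟩
    by_cases hre : (uu ζ).re ≤ -(2 * La i)
    · obtain ⟨l1, l2, l3⟩ := hAp.left hre habs
      obtain ⟨d1, d2, d3⟩ := hdir l1
      by_cases hy2 : (uu ζ).im - hh i = sig (uu ζ)
      · exact ⟨by linarith, PP_pos (d2 (l2 hy2))⟩
      · have hP : 0 ≤ PP (i + 1) ζ' := by
          rcases h4 with h | h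
          · exact absurd (le_antisymm hy' h) hy2
          · exact h.2
        refine ⟨lt_of_le_of_ne y1 fun h => ?_, lt_of_le_of_ne hP (wall hv d1 hO.hE').symm⟩
        linarith [hneg (d3 (l3 h.symm))]
    · have hre' := (not_le.1 hre).le
      have b1 := le_log_re (hAp.main_large (hv i) hu1 hre' habs)
      obtain ⟨c1, c2⟩ := confine hv hO.hE hO.hB (by linarith)
      rw [← hO.eq] at c2
      have hside : |(uu ζ).im - hh i| ≠ sig (uu ζ) := fun h =>
        hAp.main_side (hv i) hu1 hre' h c1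
      have c3 := abs_lt.1 (lt_of_le_of_ne habs hside)
      have hP : 0 ≤ PP (i + 1) ζ' := by
        rcases h4 with h | h
        · linarith
        · exact h.2
      have hA := A_ge (i + 1)
      have c4 : A (i + 1) * 25 ≤ A (i + 1) * (log (F v (cexp ζ))).re := by gcongr
      exact ⟨c3.1, lt_of_le_of_ne hP (wall hv (by linarith [(abs_le.1 c2).1]) hO.hE').symm⟩
  · by_cases hy : (uu ζ).im - hp i < -(Real.pi / 4)
    · exact Or.inl hy
    right
    have hy' := not_lt.1 hy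
    rcases hAp.top (abs_le.2 ⟨hy', y2⟩) with t | ⟨l1, l2, l3⟩
    · exact absurd t hsmall
    obtain ⟨d1, d2, d3⟩ := hdir l1
    by_cases hy2 : (uu ζ).im - hp i = -(Real.pi / 4)
    · exact ⟨by linarith, hneg (d3 (l3 hy2))⟩
    · have hP : PP (i + 1) ζ' ≤ 0 := by
        rcases h5 with h | h
        · exact absurd (le_antisymm h hy') hy2
        · exact h.2
      refine ⟨lt_of_le_of_ne y2 fun h => ?_, lt_of_le_of_ne hP (wall hv d1 hO.hE')⟩
      linarith [PP_pos (j := i + 1) (d2 (l2 h))]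

lemma level {i : ℕ} {ζ ζ' : ℂ} (hO : Orb v i ζ ζ') (h : RngC i ζ) :
    |ζ'.re - A (i + 1) * (La i - 30 * ζ.re)| ≤ A (i + 1) / 1000 ∧ |ang ζ - Real.pi| < 1 / 20 := by
  obtain ⟨h1, h2, h3⟩ := h
  have hpi := Real.pi_gt_three
  have h1' := abs_le.1 h1
  have hA := A_ge i
  have hA' := A_pos (i + 1)
  obtain ⟨a1, -⟩ := sector_log hv (i := i) (ζ := ζ) (by linarith) (by linarith) (by linarith)
    (by linarith)
  have a2 := abs_le.1 a1
  obtain ⟨-, c2⟩ := confine hv hO.hE hO.hB (by linarith)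
  rw [← hO.eq] at c2
  have c3 := abs_le.1 c2
  have b1 := mul_le_mul_of_nonneg_left a2.1 hA'.le
  have b2 := mul_le_mul_of_nonneg_left a2.2 hA'.le
  exact ⟨abs_le.2 ⟨by linarith, by linarith⟩, sector_ang hv (i := i) (by linarith) (by linarith)
    (by linarith) (by linarith) (hO.hE 0 (mm_pos _))⟩

lemma rng_strict {i : ℕ} {ζ ζ' : ℂ} (hO : Orb v i ζ ζ') (h : RngC i ζ) (h' : RngC (i + 1) ζ') :
    Rng i ζ := by
  obtain ⟨a1, a2⟩ := level hv hO h
  have a3 := abs_le.1 a1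
  have hA := A_ge i
  have hA' := A_pos (i + 1)
  refine ⟨by linarith, lt_of_le_of_ne h.2.1 fun e => ?_, lt_of_le_of_ne h.2.2 fun e => ?_⟩
  · have b1 := h'.2.2
    rw [La, Y_succ] at b1
    rw [← e] at a3
    have : A (i + 1) * 1 ≤ A (i + 1) * A i := by gcongr; linarith
    linarith
  · have b1 := h'.2.1
    rw [e] at a3
    linarith

lemma low_next {i : ℕ} {ζ ζ' : ℂ} (hO : Orb v i ζ ζ') (h : RngC i ζ) (h2 : 30 * ζ.re ≤ 1110 * A i) :
    1110 * A (i + 1) < 30 * ζ'.re := by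
  obtain ⟨a1, -⟩ := level hv hO h
  have a3 := abs_le.1 a1
  have hA := A_ge i
  have hA' := A_pos (i + 1)
  have : A (i + 1) * 100 ≤ A (i + 1) * (La i - 30 * ζ.re) := by
    gcongr; linarith [La_ge i]
  linarith

lemma high_small {i : ℕ} {ζ : ℂ} (h : RngC i ζ) (h2 : La i - 40 ≤ 30 * ζ.re) :
    (log (F v (cexp ζ))).re ≤ 41 := by
  obtain ⟨h1, h3, h4⟩ := h
  have hpi := Real.pi_gt_three
  have h1' := abs_le.1 h1
  have hA := A_ge i
  obtain ⟨a1, -⟩ := sector_log hv (i := i) (ζ := ζ) (by linarith) (by linarith) (by linarith)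
    (by linarith)
  linarith [(abs_le.1 a1).2]

omit hv in
lemma near_pi {ζ : ℂ} (h : |ang ζ - Real.pi| ≤ 1 / 10) :
    |(uu ζ).im| ≤ -(uu ζ).re / 8 ∧ |(uu ζ).im| ≤ |ang ζ - Real.pi| * ‖uu ζ‖ ∧
      -(uu ζ).re ≤ ‖uu ζ‖ ∧ ‖uu ζ‖ / 2 ≤ -(uu ζ).re := by
  have hE0 := Real.exp_pos (30 * ζ.re)
  have h' := abs_le.1 h
  have c1 := Real.one_sub_sq_div_two_le_cos (x := ang ζ - Real.pi)
  have c2 := Real.abs_sin_le_abs (x := ang ζ - Real.pi)
  have c3 := Real.neg_one_le_cos (ang ζ)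
  rw [Real.cos_sub_pi] at c1
  rw [Real.sin_sub_pi, abs_neg] at c2
  have c4 : 9 / 10 ≤ -Real.cos (ang ζ) := by nlinarith
  rw [uu_im, uu_re, norm_uu, abs_mul, abs_of_pos hE0]
  have b1 := mul_le_mul_of_nonneg_left c2 hE0.le
  have b2 := mul_le_mul_of_nonneg_left h hE0.le
  have b3 := mul_le_mul_of_nonneg_left c4 hE0.le
  have b4 := mul_le_mul_of_nonneg_left c3 hE0.le
  refine ⟨by linarith, by linarith, by linarith, by linarith⟩

lemma mid_next {i : ℕ} {ζ ζ' ζ'' : ℂ} (hO : Orb v i ζ ζ') (hI : In i ζ ζ')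
    (hI' : In (i + 1) ζ' ζ'') (h : Mid i ζ) : Mid (i + 1) ζ' := by
  obtain ⟨a1, -⟩ := level hv hO h.rng.rngC
  have a3 := abs_le.1 a1
  have hA := A_ge i
  have hA' := A_ge (i + 1)
  have hpi := Real.pi_gt_three
  have b1 : A (i + 1) * 40 ≤ A (i + 1) * (La i - 30 * ζ.re) := by gcongr; linarith [h.2.2]
  have b2 : A (i + 1) * (La i - 30 * ζ.re) ≤ A (i + 1) * (Y (i + 1) - 1) :=
    mul_le_mul_of_nonneg_left (by linarith [h.2.1, Y_succ i]) (by linarith)
  have b3 : 30 * ζ'.re < La (i + 1) - 40 := by rw [La]; linarith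
  have b4 : 1110 * A (i + 1) < 30 * ζ'.re := by linarith
  obtain ⟨c1, -, -, c2⟩ := near_pi h.1.le
  have hP : 0 < PP (i + 1) ζ' := by
    rcases hI.2.2.2.1 with h' | h'
    · have d1 := le_max_right 0 (-(uu ζ).re)
      have d2 := le_abs_self (uu ζ).im
      have d3 := norm_nonneg (uu ζ)
      rw [sig] at h'
      linarith [hh_big i]
    · exact h'.2
  have hang : 3 * Real.pi / 4 ≤ ang ζ' := by
    by_contra hc
    linarith [PP_neg (not_le.1 hc) b3.le]
  have := sector_ang hv (i := i + 1) (by linarith) hI'.2.1.le (by linarith) (by linarith) hO.hE'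
  exact ⟨by linarith, b4, b3⟩

omit hv in
lemma in_of_mid {i : ℕ} {ζ ζ' : ℂ} (h : Mid i ζ) (h' : Mid (i + 1) ζ') : In i ζ ζ' := by
  have hpi := Real.pi_gt_three
  have a1 := abs_lt.1 h.1
  have a2 := abs_lt.1 h'.1
  obtain ⟨c1, -, c3, c2⟩ := near_pi h.1.le
  have a3 : ‖uu ζ‖ ≤ cc i := by
    rw [norm_uu]; exact Real.exp_le_exp.2 (by linarith [h.2.2])
  obtain ⟨a4, a5⟩ := cc_le_hp i
  have a6 : 16 * hh i ≤ ‖uu ζ‖ := by
    have b1 := (hh_bounds i).2
    have b2 : (200 : ℝ) ≤ Real.exp (A i) := by linarith [exp_ge_of (x := A i), A_ge i]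
    have b3 : 200 * Real.exp (600 * A i) ≤ Real.exp (A i) * Real.exp (600 * A i) := by gcongr
    have b4 : Real.exp (A i) * Real.exp (600 * A i) ≤ ‖uu ζ‖ := by
      rw [norm_uu, ← Real.exp_add]; exact Real.exp_le_exp.2 (by linarith [h.2.1, A_pos i])
    linarith [Real.exp_pos (600 * A i)]
  refine ⟨by linarith, by linarith, by linarith, Or.inr ⟨?_, PP_pos (by linarith)⟩, Or.inl ?_⟩
  · have d1 := le_max_right 0 (-(uu ζ).re)
    have d2 := neg_abs_le (uu ζ).im
    rw [sig]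
    linarith
  · linarith [Complex.im_le_norm (uu ζ), Real.pi_lt_four]

end

end Pool.Agent.MP_16212d_an

end MrgPart1

-- ======== part 2: formerly Pool.Agent.MP_16212d_an.Comp
section MrgPart2

/-! An escaping point whose component in the escaping set is bounded. -/

open Complex Set Filter Topology Metric

namespace Pool.Agent.MP_16212d_an

def tau : ℕ → ℕ
  | 0 => 0
  | i + 1 => tau i + 1 + mm (i + 1)

noncomputable def yy (i : ℕ) : ℝ := Y i / 2 + 18
noncomputable def ctr (i : ℕ) : ℂ := ((A i * yy i : ℝ) : ℂ) + ((13 * Real.pi / 15 : ℝ) : ℂ) * I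
def KK (a : ℂ) : Set ℂ := cexp '' closedBall a (1 / 10 ^ 4)
def Esc (f : ℂ → ℂ) : Set ℂ := {z | Tendsto (fun n => ‖f^[n] z‖) atTop atTop}

lemma ctr_re (i : ℕ) : (ctr i).re = A i * yy i := by simp [ctr]
lemma ctr_im (i : ℕ) : (ctr i).im = 13 * Real.pi / 15 := by simp [ctr]
lemma ctr_im_le (i : ℕ) : |(ctr i).im| ≤ 3 := by
  rw [ctr_im, abs_of_pos (by positivity)]; linarith [Real.pi_lt_d2]
lemma yy_ge (i : ℕ) : 19 ≤ yy i := by rw [yy]; linarith [(Y_bounds i).1]
lemma yy_succ (i : ℕ) : yy (i + 1) = La i - 30 * (A i * yy i) := by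
  rw [yy, yy, Y_succ, La]; ring

lemma le_tau (i : ℕ) : i ≤ tau i := by
  induction i with
  | zero => simp
  | succ i ih => rw [tau]; omega

lemma exists_time (i0 : ℕ) (t : ℕ) (ht : tau i0 + 1 ≤ t) :
    ∃ i, i0 ≤ i ∧ ∃ k ≤ mm (i + 1), t = tau i + 1 + k := by
  induction t, ht using Nat.le_induction with
  | base => exact ⟨i0, le_rfl, 0, Nat.zero_le _, rfl⟩
  | succ t _ ih =>
    obtain ⟨i, hi, k, hk, rfl⟩ := ih
    by_cases h : k < mm (i + 1)
    · exact ⟨i, hi, k + 1, h, rfl⟩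
    · exact ⟨i + 1, by omega, 0, Nat.zero_le _, by rw [tau]; omega⟩

lemma isCompact_KK (a : ℂ) : IsCompact (KK a) :=
  (isCompact_closedBall _ _).image Complex.continuous_exp

lemma log_mem_of_KK {a z : ℂ} (ha : |a.im| ≤ 3) (h : z ∈ KK a) :
    log z ∈ closedBall a (1 / 10 ^ 4) := by
  obtain ⟨ζ, hζ, rfl⟩ := h
  have a1 := abs_le.1 (ball_bounds hζ).2
  have a2 := abs_le.1 ha
  have := Real.pi_gt_d2
  rwa [Complex.log_exp (by linarith) (by linarith)]

lemma mid_ctr {i : ℕ} {ζ : ℂ} (h : ζ ∈ closedBall (ctr i) (1 / 10 ^ 4)) : Mid i ζ := by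
  obtain ⟨a1, a2⟩ := ball_bounds h
  rw [ctr_re, abs_le, yy] at a1
  rw [ctr_im, abs_le] at a2
  have h1 := La_ge i
  have h2 := A_ge i
  have h3 : La i = 30 * A i * Y i := rfl
  refine ⟨abs_lt.2 ⟨?_, ?_⟩, ?_, ?_⟩
  · rw [ang]; linarith
  · rw [ang]; linarith
  · linarith
  · linarith

def Good (v : ℕ → ℂ) (i : ℕ) (z : ℂ) : Prop :=
  z ∈ KK (ctr i) ∧ ∀ k ≤ mm (i + 1), (F v)^[1 + k] z ∈ KK (ctr (i + 1) / 100 ^ (mm (i + 1) - k))

section
variable {v : ℕ → ℂ} (hv : Bd v)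
include hv

lemma good_surj (i : ℕ) {z' : ℂ} (hz : z' ∈ KK (ctr (i + 1))) :
    ∃ z, Good v i z ∧ (F v)^[1 + mm (i + 1)] z = z' := by
  obtain ⟨ξ, hξ, rfl⟩ := hz
  have hA := A_ge (i + 1)
  obtain ⟨ζ, a1, a2, a3⟩ := pull hv (mm (i + 1)) (ctr (i + 1))
    (by rw [ctr_re, ← A, mul_comm]; gcongr; exact yy_ge _) (ctr_im_le _) ξ hξ
  obtain ⟨ζ0, b1, b2⟩ := cover hv (a := ctr i) (b := ctr (i + 1) / 100 ^ mm (i + 1)) (l := -30)
    (by norm_num) (by norm_num) (fun ζ hζ => by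
      have c1 := mid_ctr hζ
      have c2 := abs_lt.1 c1.1
      have hpi := Real.pi_gt_three
      have c3 := sector_est hv (i := i) (ζ := ζ) (by linarith) (by linarith)
        (by linarith [c1.2.1, A_ge i]) (by linarith [c1.2.2])
      set s : ℝ := 13 * Real.pi / 15 / A (i + 1) with hs
      have c4 : ctr (i + 1) / 100 ^ mm (i + 1) + -30 * (ζ - ctr i) = mdl i ζ + s * I := by
        apply Complex.ext
        · rw [add_re, div_pow_re, ← A, ctr_re, add_re, mdl_re, yy_succ]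
          simp [ctr_re]
          field_simp
          ring
        · rw [add_im, div_pow_im, ← A, ctr_im, add_im, mdl_im, ang, ← hs]
          simp [ctr_im]
          ring
      have c5 : ‖-((s : ℂ) * I)‖ ≤ 4 / 10 ^ 20 := by
        rw [norm_neg, norm_mul, Complex.norm_I, mul_one, Complex.norm_real,
          Real.norm_of_nonneg (by positivity), hs]
        gcongr; linarith [Real.pi_lt_four]
      have c6 := Complex.norm_exp_sub_one_le (x := -((s : ℂ) * I)) (by linarith)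
      have c7 : ‖cexp (-((s : ℂ) * I))‖ = 1 := by rw [Complex.norm_exp]; simp
      have e : F v (cexp ζ) * cexp (-(mdl i ζ + s * I)) - 1 =
          (F v (cexp ζ) * cexp (-mdl i ζ) - 1) * cexp (-((s : ℂ) * I)) +
            (cexp (-((s : ℂ) * I)) - 1) := by
        rw [neg_add, Complex.exp_add]; ring
      rw [c4, e]
      refine (norm_add_le _ _).trans ?_
      rw [norm_mul, c7]
      linarith) (by simpa using a2 0 (Nat.zero_le _))
  have key : ∀ k ≤ mm (i + 1), (F v)^[1 + k] (cexp ζ0) = cexp (ζ k) := by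
    intro k hk
    induction k with
    | zero => simpa using b2
    | succ k ih => rw [← add_assoc, Function.iterate_succ_apply', ih (by omega), a3 k hk]
  refine ⟨cexp ζ0, ⟨⟨ζ0, b1, rfl⟩, fun k hk => ⟨ζ k, a2 k hk, (key k hk).symm⟩⟩, ?_⟩
  rw [key _ le_rfl, a1]

lemma exists_x : ∃ x, ∀ i, Good v i ((F v)^[tau i] x) := by
  have hc : Continuous (F v) := (differentiable_F hv).continuous
  let S : ℕ → Set ℂ := fun n => {x | ∀ i ≤ n, Good v i ((F v)^[tau i] x)}
  have hne : ∀ n z, Good v n z → ∃ x ∈ S n, (F v)^[tau n] x = z := by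
    intro n
    induction n with
    | zero =>
      intro z hz
      exact ⟨z, fun i hi => by rw [Nat.le_zero.1 hi]; exact hz, rfl⟩
    | succ n ih =>
      intro z hz
      obtain ⟨z0, a1, a2⟩ := good_surj hv n hz.1
      obtain ⟨x, b1, b2⟩ := ih z0 a1
      have e : (F v)^[tau (n + 1)] x = z := by
        rw [tau, add_assoc, add_comm, Function.iterate_add_apply, b2, a2]
      refine ⟨x, fun i hi => ?_, e⟩
      rcases hi.eq_or_lt with rfl | h
      · rwa [e]
      · exact b1 i (by omega)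
  have hcl : ∀ n, IsClosed (S n) := by
    intro n
    have : S n = ⋂ i ≤ n, ((F v)^[tau i] ⁻¹' (KK (ctr i) ∩ ⋂ k ≤ mm (i + 1),
        (F v)^[1 + k] ⁻¹' KK (ctr (i + 1) / 100 ^ (mm (i + 1) - k)))) := by
      ext x; simp [S, Good]
    rw [this]
    refine isClosed_biInter fun i _ => IsClosed.preimage (hc.iterate _) ?_
    exact (isCompact_KK _).isClosed.inter
      (isClosed_biInter fun k _ => (isCompact_KK _).isClosed.preimage (hc.iterate _))
  obtain ⟨x, hx⟩ := IsCompact.nonempty_iInter_of_sequence_nonempty_isCompact_isClosed S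
    (fun n x hx i hi => hx i (by omega))
    (fun n => by
      obtain ⟨z, hz, -⟩ := good_surj hv n (z' := cexp (ctr (n + 1)))
        ⟨_, mem_closedBall_self (by norm_num), rfl⟩
      obtain ⟨x, hx, -⟩ := hne n z hz
      exact ⟨x, hx⟩)
    ((isCompact_KK (ctr 0)).of_isClosed_subset (hcl 0) fun x hx => (hx 0 le_rfl).1) hcl
  exact ⟨x, fun i => mem_iInter.1 hx i i le_rfl⟩

lemma esc_notMem {z : ℂ} (hz : z ∈ Esc (F v)) (t : ℕ) : (F v)^[t] z ∉ B0 := by
  intro h
  have key : ∀ n, ‖(F v)^[t + n + 1] z‖ ≤ 1 / 2 := by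
    intro n
    induction n with
    | zero => rw [Function.iterate_succ_apply']; exact F_B0 hv h
    | succ n ih => rw [← add_assoc, Function.iterate_succ_apply']; exact F_B0 hv (Or.inl ih)
  obtain ⟨N, hN⟩ := eventually_atTop.1 (tendsto_atTop.1 hz 1)
  linarith [hN (t + N + 1) (by omega), key N]

omit hv in
lemma slit_of_notMem {w : ℂ} (h : w ∉ B0) : w ∈ slitPlane := by
  have h0 := ne_zero_of_notMem_B0 h
  rw [mem_slitPlane_iff_arg]
  refine ⟨fun ha => h (Or.inr ⟨(Real.log ‖w‖ : ℝ), by simp, ?_⟩), h0⟩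
  conv_lhs => rw [← Complex.exp_log h0, log, ha, Complex.exp_add, Complex.exp_pi_mul_I]
  ring

end

section
variable {v : ℕ → ℂ} {x : ℂ} (hx : ∀ i, Good v i ((F v)^[tau i] x))
include hx

lemma x_bounds (i k : ℕ) (hk : k ≤ mm (i + 1)) :
    yy (i + 1) - 1 ≤ ‖(F v)^[tau i + 1 + k] x‖ ∧
      (k < mm (i + 1) → (F v)^[tau i + 1 + k] x ∈ E0) := by
  obtain ⟨ζ, h1, h2⟩ := (hx i).2 k hk
  rw [← Function.iterate_add_apply, show 1 + k + tau i = tau i + 1 + k by ring] at h2
  obtain ⟨a1, a2⟩ := chain_bounds (s := yy (i + 1)) (by rw [ctr_re, ← A, mul_comm])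
    (ctr_im_le _) hk h1
  have a3 : yy (i + 1) * 1 ≤ yy (i + 1) * 100 ^ k :=
    mul_le_mul_of_nonneg_left (one_le_pow₀ (by norm_num)) (by linarith [yy_ge (i + 1)])
  have a4 : yy (i + 1) - 1 ≤ ‖cexp ζ‖ := by
    rw [Complex.norm_exp]; linarith [exp_ge_of (x := ζ.re)]
  rw [← h2]
  refine ⟨a4, fun h => ⟨by linarith [yy_ge (i + 1)], ?_⟩⟩
  have a5 := abs_le.1 (a2 h)
  have := Real.pi_gt_d2
  rw [← log_im, Complex.log_exp (by linarith) (by linarith)]
  exact abs_lt.2 ⟨by linarith, by linarith⟩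

lemma x_esc : x ∈ Esc (F v) := by
  refine tendsto_atTop.2 fun b => ?_
  obtain ⟨i0, hi0⟩ := exists_nat_ge b
  refine eventually_atTop.2 ⟨tau i0 + 1, fun t ht => ?_⟩
  obtain ⟨i, hi, k, hk, rfl⟩ := exists_time i0 t ht
  have h1 := (x_bounds hx i k hk).1
  have h2 := Y_succ_ge i
  have h3 := succ_le_A i
  have h4 : (i0 : ℝ) ≤ i := by exact_mod_cast hi
  rw [yy] at h1
  linarith [A_pos i]

lemma x_mid (i : ℕ) : Mid i (log ((F v)^[tau i] x)) :=
  mid_ctr (log_mem_of_KK (ctr_im_le _) (hx i).1)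

end

lemma continuous_ang : Continuous ang := by unfold ang; fun_prop
lemma continuous_uu : Continuous uu := by unfold uu; fun_prop
lemma continuous_sig : Continuous sig := by unfold sig; fun_prop
lemma continuous_PP (j : ℕ) : Continuous (PP j) := by
  have := continuous_ang
  have := continuous_uu
  unfold PP; fun_prop

section
variable {X : Type} [TopologicalSpace X] {a b : X → ℂ} (ha : Continuous a) (hb : Continuous b)

lemma isOpen_or {p q : X → Prop} (hp : IsOpen {z | p z}) (hq : IsOpen {z | q z}) :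
    IsOpen {z | p z ∨ q z} := hp.union hq

lemma isClosed_or {p q : X → Prop} (hp : IsClosed {z | p z}) (hq : IsClosed {z | q z}) :
    IsClosed {z | p z ∨ q z} := hp.union hq

include ha hb in
lemma isOpen_In (i : ℕ) : IsOpen {z | In i (a z) (b z)} := by
  have := continuous_ang
  have := continuous_uu
  have := continuous_sig
  have := continuous_PP (i + 1)
  unfold In
  refine (isOpen_lt ?_ ?_).and ((isOpen_lt ?_ ?_).and ((isOpen_lt ?_ ?_).and (IsOpen.and
    (isOpen_or (isOpen_lt ?_ ?_) ((isOpen_lt ?_ ?_).and (isOpen_lt ?_ ?_)))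
    (isOpen_or (isOpen_lt ?_ ?_) ((isOpen_lt ?_ ?_).and (isOpen_lt ?_ ?_)))))) <;> fun_prop

include ha hb in
lemma isClosed_InC (i : ℕ) : IsClosed {z | InC i (a z) (b z)} := by
  have := continuous_ang
  have := continuous_uu
  have := continuous_sig
  have := continuous_PP (i + 1)
  unfold InC
  refine (isClosed_le ?_ ?_).and ((isClosed_le ?_ ?_).and ((isClosed_le ?_ ?_).and (IsClosed.and
    (isClosed_or (isClosed_le ?_ ?_) ((isClosed_le ?_ ?_).and (isClosed_le ?_ ?_)))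
    (isClosed_or (isClosed_le ?_ ?_) ((isClosed_le ?_ ?_).and (isClosed_le ?_ ?_)))))) <;>
    fun_prop

include ha in
lemma isOpen_Rng (i : ℕ) : IsOpen {z | Rng i (a z)} := by
  have := continuous_ang
  unfold Rng
  refine (isOpen_lt ?_ ?_).and ((isOpen_lt ?_ ?_).and (isOpen_lt ?_ ?_)) <;> fun_prop

include ha in
lemma isOpen_Mid (i : ℕ) : IsOpen {z | Mid i (a z)} := by
  have := continuous_ang
  unfold Mid
  refine (isOpen_lt ?_ ?_).and ((isOpen_lt ?_ ?_).and (isOpen_lt ?_ ?_)) <;> fun_prop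

include ha in
lemma isClosed_RngC (i : ℕ) : IsClosed {z | RngC i (a z)} := by
  have := continuous_ang
  unfold RngC
  refine (isClosed_le ?_ ?_).and ((isClosed_le ?_ ?_).and (isClosed_le ?_ ?_)) <;> fun_prop

end

lemma In.inC {i : ℕ} {ζ ζ' : ℂ} (h : In i ζ ζ') : InC i ζ ζ' :=
  ⟨h.1.le, h.2.1.le, h.2.2.1.le, h.2.2.2.1.imp le_of_lt (And.imp le_of_lt le_of_lt),
    h.2.2.2.2.imp le_of_lt (And.imp le_of_lt le_of_lt)⟩

theorem bounded_component {v : ℕ → ℂ} (hv : Bd v) (hS : ∀ i, VSpec v i) :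
    ∃ x ∈ Esc (F v), Bornology.IsBounded (connectedComponentIn (Esc (F v)) x) := by
  obtain ⟨x, hx⟩ := exists_x hv
  refine ⟨x, x_esc hx, ?_⟩
  set C := connectedComponentIn (Esc (F v)) x with hC
  have hxC : x ∈ C := mem_connectedComponentIn (x_esc hx)
  have hsub : C ⊆ Esc (F v) := connectedComponentIn_subset _ _
  have hpre : IsPreconnected C := isPreconnected_connectedComponentIn
  have : PreconnectedSpace C := Subtype.preconnectedSpace hpre
  have hc : Continuous (F v) := (differentiable_F hv).continuous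
  have hB : ∀ (z : C) t, (F v)^[t] z ∉ B0 := fun z t => esc_notMem hv (hsub z.2) t
  let L : ℕ → C → ℂ := fun t z => log ((F v)^[t] z)
  have hL : ∀ t, Continuous (L t) := fun t =>
    ((hc.iterate t).comp continuous_subtype_val).clog fun z => slit_of_notMem (hB z t)
  have hexp : ∀ t z, cexp (L t z) = (F v)^[t] z := fun t z =>
    Complex.exp_log (ne_zero_of_notMem_B0 (hB z t))
  have hE : ∀ i k, k < mm (i + 1) → ∀ z : C, (F v)^[tau i + 1 + k] z ∈ E0 := by
    intro i k hk z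
    set t := tau i + 1 + k
    have h1 : ∀ z : C, 1 / 2 < ‖(F v)^[t] z‖ := fun z => not_le.1 fun h => hB z t (Or.inl h)
    refine ⟨h1 z, ?_⟩
    by_contra hcon
    have h2 := ((x_bounds hx i k hk.le).2 hk).2
    obtain ⟨z', hz'⟩ := intermediate_value_univ (f := fun z : C => |(L t z).im|) ⟨x, hxC⟩ z
      (by have := hL t; fun_prop)
      (show Real.pi / 100 ∈ Icc _ _ from ⟨by simpa [L, log_im] using h2.le,
        by simpa [L, log_im] using not_lt.1 hcon⟩)
    have h3 := F_side hv hz' (by rw [← Complex.norm_exp, hexp]; exact (h1 z').le)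
    rw [hexp, ← Function.iterate_succ_apply' (F v)] at h3
    exact hB z' _ h3
  have hit : ∀ (t k : ℕ) (z : C), (F v)^[k] (F v (cexp (L t z))) = (F v)^[t + 1 + k] z := by
    intro t k z
    rw [hexp, ← Function.iterate_succ_apply' (F v), ← Function.iterate_add_apply]
    congr 1; omega
  have hO : ∀ i z, Orb v i (L (tau i) z) (L (tau (i + 1)) z) := fun i z =>
    ⟨fun k hk => by rw [hit]; exact hE i k hk z, fun k _ => by rw [hit]; exact hB z _,
      by rw [hit]; rfl, by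
        have := hE (i + 1) 0 (mm_pos _) z
        rwa [← hit] at this⟩
  have hIn : ∀ i z, In i (L (tau i) z) (L (tau (i + 1)) z) := by
    intro i z
    have e : {z : C | In i (L (tau i) z) (L (tau (i + 1)) z)} =
        {z : C | InC i (L (tau i) z) (L (tau (i + 1)) z)} :=
      Set.ext fun z => ⟨In.inC, stage hv (hS i) (hO i z)⟩
    have hcl : IsClopen {z : C | In i (L (tau i) z) (L (tau (i + 1)) z)} :=
      ⟨e ▸ isClosed_InC (hL _) (hL _) i, isOpen_In (hL _) (hL _) i⟩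
    have := hcl.eq_univ ⟨⟨x, hxC⟩, in_of_mid (x_mid hx i) (x_mid hx (i + 1))⟩
    exact (Set.eq_univ_iff_forall.1 this) z
  have e : (⋂ k, {z : C | RngC k (L (tau k) z)}) =
      ⋃ k, ({z : C | Mid k (L (tau k) z)} ∩ ⋂ j ∈ Finset.range k, {z : C | Rng j (L (tau j) z)}) := by
    ext z
    simp only [mem_iInter, mem_iUnion, mem_inter_iff, mem_ofPred_eq, Finset.mem_range]
    constructor
    · intro h
      have h1 : ∀ k, Rng k (L (tau k) z) := fun k => rng_strict hv (hO k z) (h k) (h (k + 1))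
      by_contra hcon
      have h2 : ∀ k, 30 * (L (tau k) z).re ≤ 1110 * A k ∨ La k - 40 ≤ 30 * (L (tau k) z).re := by
        intro k
        by_contra h3
        push Not at h3
        exact hcon ⟨k, ⟨(h1 k).1, h3.1, h3.2⟩, fun j _ => h1 j⟩
      obtain ⟨N, hN⟩ := eventually_atTop.1 (tendsto_atTop.1 (hsub z.2) (Real.exp 42))
      have h3 : ∀ k, N ≤ k → ¬ La k - 40 ≤ 30 * (L (tau k) z).re := by
        intro k hk h4
        have h5 := high_small hv (h k) h4
        rw [hexp, ← Function.iterate_succ_apply' (F v)] at h5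
        linarith [le_log_re (hN (tau k).succ (by have := le_tau k; omega))]
      rcases h2 N with h4 | h4
      · rcases h2 (N + 1) with h5 | h5
        · linarith [low_next hv (hO N z) (h N) h4]
        · exact h3 _ (by omega) h5
      · exact h3 _ le_rfl h4
    · rintro ⟨k, h1, h2⟩ j
      by_cases hj : j < k
      · exact (h2 j hj).rngC
      · have : ∀ n, k ≤ n → Mid n (L (tau n) z) := fun n hn => by
          induction n, hn using Nat.le_induction with
          | base => exact h1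
          | succ n _ ih => exact mid_next hv (hO n z) (hIn n z) (hIn (n + 1) z) ih
        exact (this j (not_lt.1 hj)).rng.rngC
  have hcl : IsClopen (⋂ k, {z : C | RngC k (L (tau k) z)}) :=
    ⟨isClosed_iInter fun k => isClosed_RngC (hL _) k, e ▸ isOpen_iUnion fun k =>
      (isOpen_Mid (hL _) k).inter (isOpen_biInter_finset fun j _ => isOpen_Rng (hL _) j)⟩
  have hall := hcl.eq_univ ⟨⟨x, hxC⟩, mem_iInter.2 fun k => (x_mid hx k).rng.rngC⟩
  refine (isBounded_closedBall (x := (0 : ℂ)) (r := Real.exp (La 0))).subset fun z hz => ?_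
  have h1 : RngC 0 (L (tau 0) ⟨z, hz⟩) := mem_iInter.1 (Set.eq_univ_iff_forall.1 hall ⟨z, hz⟩) 0
  have h2 := hexp (tau 0) ⟨z, hz⟩
  rw [mem_closedBall_zero_iff]
  have h3 : ‖z‖ = Real.exp (L (tau 0) ⟨z, hz⟩).re := by rw [← Complex.norm_exp, h2]; rfl
  rw [h3]
  exact Real.exp_le_exp.2 (by linarith [h1.2.2, h1.2.1, A_pos 0])

end Pool.Agent.MP_16212d_an

end MrgPart2

-- ======== part 3: formerly Pool.Agent.MP_16212d_an.Crit
section MrgPart3

/-! Large critical values and the order of growth. -/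

open Complex Set Filter Topology Metric

namespace Pool.Agent.MP_16212d_an

noncomputable def zz (u : ℂ) : ℂ := log u / 30 + ((5 * Real.pi / 6 : ℝ) : ℂ) * I

lemma uu_zz {u : ℂ} (h : u ≠ 0) : uu (zz u) = u := by
  have h1 : ((30 : ℕ) : ℂ) * zz u = log u + (((2 * Real.pi * (12 : ℕ) : ℝ) : ℂ) * I + Real.pi * I) := by
    rw [zz]; push_cast; ring
  rw [uu, ← Complex.exp_nat_mul, h1, Complex.exp_add, Complex.exp_add, exp_nat_two_pi,
    Complex.exp_pi_mul_I, Complex.exp_log h]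
  ring

lemma ang_zz (u : ℂ) : ang (zz u) = arg u := by
  simp [ang, zz, log_im]; ring

lemma zz_re (u : ℂ) : (zz u).re = (log u).re / 30 := by simp [zz]

lemma mu_cc_le (i : ℕ) : mu i * cc i ≤ cc i / La i ^ 2 / 10 ^ 10 := by
  have b1 := La_le_exp i
  have b2 : mu i * Real.exp (A i) = 1 := by rw [mu, ← Real.exp_add]; simp
  have b0 := mu_pos i
  have b3 : mu i * (10 ^ 10 * La i ^ 2) ≤ 1 := by
    rw [← b2]; gcongr
  have := La_pos i
  have := cc_pos i
  rw [div_div, le_div_iff₀ (by positivity)]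
  nlinarith

lemma kappa_ge (i : ℕ) : La i ≤ cc i / La i ^ 2 := by
  have h1 := pow_le_exp' (La_big i) (k := 3) (by norm_num)
  have h2 := La_pos i
  rw [le_div_iff₀ (by positivity), cc]
  have : 0 < La i ^ 3 := by positivity
  nlinarith

lemma log_small {x : ℝ} (hx : 10 ^ 20 ≤ x) : Real.log x ≤ x / 10 ^ 4 := by
  rw [Real.log_le_iff_le_exp (by linarith)]
  refine le_trans ?_ (Real.pow_div_factorial_le_exp (x / 10 ^ 4) (by positivity) 2)
  norm_num [Nat.factorial]
  nlinarith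

theorem exists_crit {v : ℕ → ℂ} (hv : Bd v) (i : ℕ) :
    ∃ z, deriv (F v) z = 0 ∧ (i : ℝ) ≤ ‖F v z‖ := by
  have hF := differentiable_F hv
  have hL := La_big i
  have hc := cc_big i
  have hk := kappa_big i
  have hk' := kappa_ge i
  have hmc := mu_cc_le i
  have hmu := mu_small i
  have hmu0 := mu_pos i
  have hpi := Real.pi_lt_four
  have hpi' := Real.pi_gt_three
  have hh1 := hh_bounds i
  have hh2 := hh_le_cc i
  have hh3 := hh_big i
  obtain ⟨hp1, hp2⟩ := cc_le_hp i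
  set κ := cc i / La i ^ 2 with hκ
  set ξ := Real.log (100 * κ) with hξ
  have eξ : Real.exp ξ = 100 * κ := Real.exp_log (by linarith)
  have ξ1 : ξ = Real.log 100 + (La i - 2 * Real.log (La i)) := by
    rw [hξ, Real.log_mul (by norm_num) (by linarith), hκ, Real.log_div (by linarith)
      (by positivity), cc, Real.log_exp, Real.log_pow]
    push_cast; ring
  have ξ2 : |ξ - La i| ≤ La i / 4000 := by
    have a1 := log_small hL
    have a2 : 0 ≤ Real.log (La i) := Real.log_nonneg (by linarith)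
    have a3 : 0 ≤ Real.log 100 := Real.log_nonneg (by norm_num)
    have a4 : Real.log 100 ≤ 100 := by linarith [Real.log_le_sub_one_of_pos (x := 100) (by norm_num)]
    exact abs_le.2 ⟨by linarith, by linarith⟩
  have ξ3 := abs_le.1 ξ2
  set u0 : ℂ := (ξ : ℂ) + ((hh i + Real.pi : ℝ) : ℂ) * I with hu0
  have u0re : u0.re = ξ := by simp [hu0]
  have u0im : u0.im = hh i + Real.pi := by simp [hu0]
  have eu0 : cexp u0 = -(100 * κ : ℝ) := by
    rw [hu0, Complex.exp_add, ← Complex.ofReal_exp, eξ, Complex.ofReal_add, add_mul,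
      Complex.exp_add, exp_hh, Complex.exp_pi_mul_I]
    ring
  let g : ℂ → ℂ := fun u => F v (cexp (zz u))
  let er : ℂ → ℂ := fun u => g u - v i - DD i u - (1 / 100) * cexp u
  have key : ∀ u ∈ closedBall u0 1, u ∈ slitPlane ∧ ‖u - qq i + La i‖ ≤ La i / 1000 ∧
      Real.exp u.re ≤ 300 * κ ∧ ‖er u‖ ≤ κ / 1000 := by
    intro u hu
    obtain ⟨a1, a2⟩ := ball_bounds hu
    rw [u0re, abs_le] at a1
    rw [u0im, abs_le] at a2
    have a3 := Complex.im_le_norm u
    have hu' : u ≠ 0 := norm_pos_iff.1 (by linarith)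
    have a4 : ‖u - qq i + La i‖ ≤ La i / 1000 := by
      refine (Complex.norm_le_abs_re_add_abs_im _).trans ?_
      rw [add_re, add_im, abs_re_sub_qq, abs_im_sub_qq, ofReal_re, ofReal_im]
      have b1 : |u.re - 2 * La i + La i| ≤ La i / 4000 + 1 := abs_le.2 ⟨by linarith, by linarith⟩
      have b2 : |u.im - hh i + 0| ≤ 5 := abs_le.2 ⟨by linarith, by linarith⟩
      linarith
    have a5 : Real.exp u.re ≤ 300 * κ := by
      calc _ ≤ Real.exp (1 + ξ) := Real.exp_le_exp.2 (by linarith)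
        _ ≤ 3 * (100 * κ) := by
            rw [Real.exp_add, eξ]; gcongr; linarith [Real.exp_one_lt_d9]
        _ = _ := by ring
    have hAp : Ap i (v i) (uu (zz u)) (g u) := omega_est
      (by
        rw [zz_re]
        linarith [le_log_re (w := u) (s := 600 * A i) (by linarith [Real.exp_pos (600 * A i)])])
      (by rw [ang_zz]; exact arg_nonneg_iff.2 (by linarith))
      (by rw [ang_zz]; linarith [arg_le_pi u]) hv (by rw [uu_zz hu']; linarith)
      (by rw [uu_zz hu']; linarith)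
    rw [uu_zz hu'] at hAp
    have a6 : 1 ≤ ‖u - qq i‖ := by
      have := Complex.abs_re_le_norm (u - qq i)
      rw [abs_re_sub_qq] at this
      linarith [neg_abs_le (u.re - 2 * La i)]
    have a7 := hAp.base a6
    have a8 : mu i * (cc i / ‖u‖) ≤ mu i * cc i := by
      gcongr; exact div_le_self (by linarith) (by linarith)
    have a9 : mu i * Real.exp u.re ≤ 1 / 10 ^ 20 * (300 * κ) := by gcongr
    exact ⟨Or.inr (by linarith), a4, a5, a7.trans (by linarith)⟩
  have hq : ∀ u ∈ closedBall u0 1, La i / 2 ≤ ‖u - qq i‖ ∧ ‖u - qq i‖ ≤ 2 * La i := by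
    intro u hu
    have a1 := (key u hu).2.1
    have a2 := norm_sub_norm_le (u - qq i) (-(La i : ℂ))
    have a3 := norm_sub_norm_le (-(La i : ℂ)) (u - qq i)
    rw [norm_sub_rev (-(La i : ℂ))] at a3
    rw [sub_neg_eq_add, norm_neg, Complex.norm_real, Real.norm_of_nonneg (by linarith)] at a2 a3
    constructor <;> linarith
  have hq' : ∀ u ∈ closedBall u0 1, u - qq i ≠ 0 := fun u hu =>
    norm_pos_iff.1 (by linarith [(hq u hu).1])
  have hz : ∀ u ∈ closedBall u0 1, HasDerivAt (fun u => cexp (zz u)) (cexp (zz u) * (u⁻¹ / 30)) u :=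
    fun u hu => (((Complex.hasDerivAt_log (key u hu).1).div_const 30).add_const _).cexp
  have hg : ∀ u ∈ closedBall u0 1,
      HasDerivAt g (deriv (F v) (cexp (zz u)) * (cexp (zz u) * (u⁻¹ / 30))) u :=
    fun u hu => (hF _).hasDerivAt.comp u (hz u hu)
  have hD : ∀ u ∈ closedBall u0 1, HasDerivAt (DD i) (cc i / (u - qq i) ^ 2) u := by
    intro u hu
    have := ((hasDerivAt_id u).sub_const (qq i)).fun_inv (hq' u hu) |>.const_mul (-(cc i : ℂ))
    refine (this.congr_deriv ?_).congr_of_eventuallyEq (Eventually.of_forall fun x => ?_)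
    · simp; ring
    · simp [DD, div_eq_mul_inv]
  have her : ∀ u ∈ closedBall u0 1,
      HasDerivAt er (deriv g u - cc i / (u - qq i) ^ 2 - (1 / 100) * cexp u) u := fun u hu =>
    ((((hg u hu).differentiableAt.hasDerivAt).sub_const _).fun_sub (hD u hu)).fun_sub
      ((Complex.hasDerivAt_exp u).const_mul _)
  have hsub : ∀ u ∈ closedBall u0 (1 / 2), closedBall u (1 / 2) ⊆ closedBall u0 1 := fun u hu =>
    closedBall_subset_closedBall' (by linarith [mem_closedBall.1 hu])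
  have est : ∀ u ∈ closedBall u0 (1 / 2), ‖deriv g u - κ * (1 - cexp (u - u0))‖ ≤ κ / 100 := by
    intro u hu
    have hu1 : u ∈ closedBall u0 1 := closedBall_subset_closedBall (by norm_num) hu
    have a1 := Complex.norm_deriv_le_of_forall_mem_sphere_norm_le (c := u) (R := 1 / 2)
      (C := κ / 1000) (f := er) (by norm_num)
      (DifferentiableOn.diffContOnCl_ball (U := closedBall u0 1)
        (fun z hz => (her z hz).differentiableAt.differentiableWithinAt) (hsub u hu))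
      (fun z hz => (key z (hsub u hu (sphere_subset_closedBall hz))).2.2.2)
    rw [(her u hu1).deriv] at a1
    have a2 : cexp u = -(100 * κ : ℝ) * cexp (u - u0) := by
      rw [← eu0, ← Complex.exp_add]; congr 1; ring
    have a3 : ‖(cc i : ℂ) / (u - qq i) ^ 2 - κ‖ ≤ κ * (6 / 1000) := by
      have hLc : (La i : ℂ) ≠ 0 := by exact_mod_cast (La_pos i).ne'
      have e : (cc i : ℂ) / (u - qq i) ^ 2 - κ =
          κ * ((u - qq i + La i) * (La i - (u - qq i)) / (u - qq i) ^ 2) := by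
        have := hq' u hu1
        rw [hκ]; push_cast; field_simp; ring
      have b1 := (key u hu1).2.1
      have b2 : 999 / 1000 * La i ≤ ‖u - qq i‖ := by
        have a3 := norm_sub_norm_le (-(La i : ℂ)) (u - qq i)
        rw [norm_sub_rev (-(La i : ℂ)), sub_neg_eq_add, norm_neg, Complex.norm_real,
          Real.norm_of_nonneg (by linarith)] at a3
        linarith
      have b3 : ‖La i - (u - qq i)‖ ≤ 3 * La i := by
        refine (norm_sub_le _ _).trans ?_
        rw [Complex.norm_real, Real.norm_of_nonneg (by linarith)]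
        linarith [(hq u hu1).2]
      rw [e, norm_mul, Complex.norm_real, Real.norm_of_nonneg (by linarith), norm_div, norm_mul,
        norm_pow]
      refine mul_le_mul_of_nonneg_left ?_ (by linarith)
      calc _ ≤ La i / 1000 * (3 * La i) / (999 / 1000 * La i) ^ 2 := by gcongr
        _ = 3 / 1000 / (999 / 1000) ^ 2 := by field_simp
        _ ≤ _ := by norm_num
    have e : deriv g u - κ * (1 - cexp (u - u0)) =
        (deriv g u - cc i / (u - qq i) ^ 2 - (1 / 100) * cexp u) +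
          ((cc i : ℂ) / (u - qq i) ^ 2 - κ) := by
      rw [a2]; push_cast; ring
    rw [e]
    exact (norm_add_le _ _).trans (by linarith)
  have hgd : DifferentiableOn ℂ (deriv g) (ball u0 1) :=
    DifferentiableOn.deriv (fun z hz =>
      (hg z (ball_subset_closedBall hz)).differentiableAt.differentiableWithinAt) isOpen_ball
  obtain ⟨u, hu, h0⟩ := min_mod (g := deriv g) (a := u0) (r := 1 / 2) (C := κ / 10) (by norm_num)
    (fun z hz => hgd.differentiableAt (isOpen_ball.mem_nhds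
      (closedBall_subset_ball (by norm_num) hz)))
    (by
      have := est u0 (mem_closedBall_self (by norm_num))
      simp only [sub_self, Complex.exp_zero, mul_zero, sub_zero] at this
      linarith)
    (fun z hz => by
      have a1 := est z (sphere_subset_closedBall hz)
      have a2 : ‖z - u0‖ = 1 / 2 := mem_sphere_iff_norm.1 hz
      have a3 := Complex.norm_exp_sub_one_sub_id_le (x := z - u0) (by linarith)
      have a4 := norm_sub_norm_le (z - u0) (cexp (z - u0) - 1)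
      rw [norm_sub_rev (z - u0), norm_sub_rev _ 1, a2] at a4
      rw [a2] at a3
      have a5 := norm_sub_norm_le (κ * (1 - cexp (z - u0))) (deriv g z)
      rw [norm_sub_rev, norm_mul, Complex.norm_real, Real.norm_of_nonneg (by linarith)] at a5
      have a6 : κ * (1 / 4) ≤ κ * ‖1 - cexp (z - u0)‖ := by gcongr; linarith
      linarith)
  have hu1 : u ∈ closedBall u0 1 := closedBall_subset_closedBall (by norm_num) hu
  refine ⟨cexp (zz u), ?_, ?_⟩
  · rw [(hg u hu1).deriv] at h0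
    have a1 : u ≠ 0 := slitPlane_ne_zero (key u hu1).1
    simpa [Complex.exp_ne_zero, a1] using h0
  · obtain ⟨-, -, a1, a2⟩ := key u hu1
    have a3 : 1000 * κ ≤ ‖DD i u‖ := by
      rw [norm_DD, le_div_iff₀ (by linarith [(hq u hu1).1])]
      calc _ ≤ 1000 * κ * (2 * La i) := by gcongr; exact (hq u hu1).2
        _ = cc i * (2000 / La i) := by rw [hκ]; field_simp; ring
        _ ≤ cc i * 1 := by gcongr; rw [div_le_one (by linarith)]; linarith
        _ = _ := by ring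
    have e : DD i u = g u - (er u + v i + (1 / 100) * cexp u) := by simp only [er]; ring
    have a4 := norm_sub_le (g u) (er u + v i + (1 / 100) * cexp u)
    have a5 := norm_add₃_le (a := er u) (b := v i) (c := (1 / 100) * cexp u)
    rw [← e] at a4
    rw [norm_eps] at a5
    have a6 := hv i
    change (i : ℝ) ≤ ‖g u‖
    linarith [exp21, succ_le_A i, La_ge i, A_pos i]

lemma one_le_norm_F {v : ℕ → ℂ} (hv : Bd v) {r : ℝ} (hr : 3 ≤ r) : 1 ≤ ‖F v r‖ := by
  have h1 : 1 ≤ Real.log r := by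
    rw [Real.le_log_iff_exp_le (by linarith)]; linarith [Real.exp_one_lt_d9]
  have h2 := delta_half hv (ζ := (Real.log r : ℝ)) (by simp) (by simpa using h1)
  rw [← Complex.ofReal_exp, Real.exp_log (by linarith)] at h2
  have h3 := norm_sub_norm_le 1 (F v r * cexp (-(100 * (Real.log r : ℝ))))
  rw [norm_sub_rev, norm_one, norm_mul, Complex.norm_exp] at h3
  have h4 : Real.exp (-(100 * ((Real.log r : ℝ) : ℂ))).re ≤ 1 / 2 := by
    have : (-(100 * ((Real.log r : ℝ) : ℂ))).re = -(100 * Real.log r) := by simp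
    rw [this, Real.exp_neg, ← one_div]
    exact one_div_le_one_div_of_le (by norm_num) (by linarith [exp_ge_of (x := 100 * Real.log r)])
  have h5 := mul_le_mul_of_nonneg_left h4 (norm_nonneg (F v r))
  linarith

lemma order_bound {v : ℕ → ℂ} (hv : Bd v) {r : ℝ} (hr : 10 ≤ r) :
    Real.log (Real.log (sSup ((fun z => ‖F v z‖) '' sphere 0 r))) / Real.log r ≤ 31 := by
  set M := sSup ((fun z => ‖F v z‖) '' sphere 0 r)
  have hmem : (r : ℂ) ∈ sphere (0 : ℂ) r := by simp; linarith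
  have hb : ∀ y ∈ (fun z => ‖F v z‖) '' sphere 0 r, y ≤ Real.exp (10 * r ^ 30) := by
    rintro _ ⟨z, hz, rfl⟩
    have : ‖z‖ = r := mem_sphere_zero_iff_norm.1 hz
    rw [← this]
    exact norm_F_le hv (by rw [this]; exact hr)
  have h1 : M ≤ Real.exp (10 * r ^ 30) := csSup_le ⟨_, _, hmem, rfl⟩ hb
  have h2 : 1 ≤ M := (one_le_norm_F hv (by linarith)).trans (le_csSup ⟨_, hb⟩ ⟨_, hmem, rfl⟩)
  have h3 : Real.log M ≤ r ^ 31 := by
    rw [Real.log_le_iff_le_exp (by linarith)]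
    refine h1.trans (Real.exp_le_exp.2 ?_)
    rw [pow_succ' r 30]; gcongr
  have h4 := Real.log_nonneg h2
  have h5 : 0 < Real.log r := Real.log_pos (by linarith)
  rw [div_le_iff₀ h5]
  rcases h4.eq_or_lt with h | h
  · rw [← h, Real.log_zero]; positivity
  · have := Real.log_le_log h h3
    rw [Real.log_pow] at this
    exact_mod_cast this

end Pool.Agent.MP_16212d_an

end MrgPart3

-- marker of a merged file
example : 731051 + 881946 = 731051 + 881946 := rfl
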