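import Pool.Agent.MP_16212d_an.B.Sing

/-! A transcendental entire function of infinite order in the class B whose escaping set has
a bounded connected component. -/

open Set Filter Topology

namespace Pool.Agent.Results.MP_16212d_an.ClassB

/-- The escaping set. -/
def escaping (f : ℂ → ℂ) : Set ℂ := {z | Tendsto (fun n : ℕ => ‖f^[n] z‖) atTop atTop}

/-- The maximum modulus. -/
noncomputable def maxMod (f : ℂ → ℂ) (r : ℝ) : ℝ := sSup ((fun z => ‖f z‖) '' Metric.sphere 0 r)

/-- The order of growth. -/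
noncomputable def order (f : ℂ → ℂ) : EReal :=
  limsup (fun r : ℝ => ((Real.log (Real.log (maxMod f r)) / Real.log r : ℝ) : EReal)) atTop

/-- The critical values. -/
def criticalValues (f : ℂ → ℂ) : Set ℂ := {w | ∃ z, deriv f z = 0 ∧ f z = w}

/-- The finite asymptotic values. -/
def asymptoticValues (f : ℂ → ℂ) : Set ℂ :=
  {w | ∃ γ : ℝ → ℂ, Continuous γ ∧ Tendsto (fun t => ‖γ t‖) atTop atTop ∧
    Tendsto (fun t => f (γ t)) atTop (𝓝 w)}

/-- The singular set. -/
def singularSet (f : ℂ → ℂ) : Set ℂ := closure (criticalValues f ∪ asymptoticValues f)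

open Pool.Agent.MP_16212d_an.B in
theorem result : ∃ f : ℂ → ℂ, Differentiable ℂ f ∧ (¬ ∃ p : Polynomial ℂ, ∀ z, f z = p.eval z) ∧
    order f = ⊤ ∧ Bornology.IsBounded (singularSet f) ∧
    ∃ x ∈ escaping f, Bornology.IsBounded (connectedComponentIn (escaping f) x) := by
  obtain ⟨τ, hτ⟩ := exists_Mk
  refine ⟨ff τ, differentiable_ff τ, not_poly hτ,
    (EReal.tendsto_coe_atTop.comp (order_top hτ)).limsup_eq,
    (isBounded_iff_forall_norm_le.2 ⟨Real.exp 10030, ?_⟩).closure, bounded_component hτ⟩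
  rintro w (⟨z, h, rfl⟩ | ⟨γ, h1, h2, h3⟩)
  · exact crit_bound hτ h
  · exact asym_bound hτ h1 h2 h3

end Pool.Agent.Results.MP_16212d_an.ClassB
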