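import Mathlib.Analysis.Calculus.Deriv.Polynomial
import Pool.Agent.MP_16212d_an.Crit

/-! A transcendental entire function of finite order, outside the class B, whose escaping set has
a bounded connected component. -/

open Set Filter Topology

namespace Pool.Agent.Results.MP_16212d_an.FiniteOrder

/-- The escaping set. -/
def escaping (f : ℂ → ℂ) : Set ℂ := {z | Tendsto (fun n : ℕ => ‖f^[n] z‖) atTop atTop}

/-- The maximum modulus. -/
noncomputable def maxMod (f : ℂ → ℂ) (r : ℝ) : ℝ := sSup ((fun z => ‖f z‖) '' Metric.sphere 0 r)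

/-- The order of growth. -/
noncomputable def order (f : ℂ → ℂ) : EReal :=
  limsup (fun r : ℝ => ((Real.log (Real.log (maxMod f r)) / Real.log r : ℝ) : EReal)) atTop

/-- The critical values. -/
def criticalValues (f : ℂ → ℂ) : Set ℂ := {w | ∃ z, deriv f z = 0 ∧ f z = w}

/-- The finite asymptotic values. -/
def asymptoticValues (f : ℂ → ℂ) : Set ℂ :=
  {w | ∃ γ : ℝ → ℂ, Continuous γ ∧ Tendsto (fun t => ‖γ t‖) atTop atTop ∧
    Tendsto (fun t => f (γ t)) atTop (𝓝 w)}

/-- The singular set. -/
def singularSet (f : ℂ → ℂ) : Set ℂ := closure (criticalValues f ∪ asymptoticValues f)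

open Pool.Agent.MP_16212d_an in
theorem result : ∃ f : ℂ → ℂ, Differentiable ℂ f ∧ (¬ ∃ p : Polynomial ℂ, ∀ z, f z = p.eval z) ∧
    order f < ⊤ ∧ ¬ Bornology.IsBounded (singularSet f) ∧
    ∃ x ∈ escaping f, Bornology.IsBounded (connectedComponentIn (escaping f) x) := by
  obtain ⟨v, hv, hS⟩ := exists_v
  have hunb : ¬ Bornology.IsBounded (criticalValues (F v)) := by
    intro h
    obtain ⟨r, hr⟩ := h.exists_norm_le
    obtain ⟨i, hi⟩ := exists_nat_gt r
    obtain ⟨z, h1, h2⟩ := exists_crit hv i
    linarith [hr _ ⟨z, h1, rfl⟩]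
  refine ⟨F v, differentiable_F hv, ?_, ?_, fun h => hunb ?_, bounded_component hv hS⟩
  · rintro ⟨p, hp⟩
    have e : F v = fun z => p.eval z := funext hp
    apply hunb
    by_cases h0 : p.derivative = 0
    · refine (Set.finite_singleton (p.coeff 0)).isBounded.subset ?_
      rintro _ ⟨z, -, rfl⟩
      rw [hp, Polynomial.eq_C_of_derivative_eq_zero h0]
      simp
    · refine ((p.derivative.roots.toFinset.finite_toSet).image (F v)).isBounded.subset ?_
      rintro _ ⟨z, hz, rfl⟩
      refine ⟨z, ?_, rfl⟩
      rw [e, Polynomial.deriv] at hz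
      simpa [h0] using hz
  · refine lt_of_le_of_lt (limsup_le_of_le (by isBoundedDefault) ?_) (EReal.coe_lt_top 31)
    filter_upwards [eventually_ge_atTop 10] with r hr
    exact EReal.coe_le_coe_iff.2 (order_bound hv hr)
  · exact h.subset (subset_union_left.trans subset_closure)

end Pool.Agent.Results.MP_16212d_an.FiniteOrder
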